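import Pool.Agent.Chain.Fn

/-! # Step functions approximating a number form a ring. -/

open Finset Polynomial

namespace Pool.Agent.Chain

open Pool.Agent.SqrtDC Pool.Agent.DigitA Pool.Agent.AlgD

/-- `G` is a step function with jumps in `S` which approximates `x`; `R ↦ b^R D G(R)` is integral;
the pole at `p` is at most `K` -/
structure Apx (p : ℕ) [Fact p.Prime] (b n : ℕ) (x : ℝ) (G : ℕ → ℚ) (S : Finset ℕ) (E : ℝ)
    (D K : ℕ) : Prop where
  zero : 0 ∈ S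
  one : 1 ≤ E
  xbd : |x| ≤ E
  app : ∀ R ≤ n, |(G R : ℝ) - x| ≤ E / (b:ℝ)^R
  int : ∀ R ≤ n, ∃ z : ℤ, (b:ℚ)^R * D * G R = z
  const : ∀ u, 1 ≤ u → u ≤ n → u ∉ S → G u = G (u-1)
  norm : ∀ R ≤ n, ‖(G R : ℚ_[p])‖ ≤ (p:ℝ)^K

variable {p : ℕ} [hp : Fact p.Prime]

lemma sum_norm_le {ι : Type*} (s : Finset ι) (f : ι → ℚ_[p]) {C : ℝ} (hC : 0 ≤ C)
    (h : ∀ i ∈ s, ‖f i‖ ≤ C) : ‖∑ i ∈ s, f i‖ ≤ C := by
  classical
  induction s using Finset.induction_on with
  | empty => simpa using hC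
  | insert a s ha ih =>
    rw [Finset.sum_insert ha]
    exact (Padic.nonarchimedean _ _).trans (max_le (h a (Finset.mem_insert_self _ _))
      (ih (fun i hi => h i (Finset.mem_insert_of_mem hi))))

lemma Apx.mono {b n : ℕ} {x : ℝ} {G : ℕ → ℚ} {S : Finset ℕ} {E E' : ℝ} {D K : ℕ}
    (h : Apx p b n x G S E D K) (hE : E ≤ E') : Apx p b n x G S E' D K where
  zero := h.zero
  one := h.one.trans hE
  xbd := h.xbd.trans hE
  app := fun R hR => (h.app R hR).trans (by gcongr)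
  int := h.int
  const := h.const
  norm := h.norm

lemma Apx.one' (b n : ℕ) : Apx p b n 1 (fun _ => 1) {0} 1 1 0 where
  zero := Finset.mem_singleton_self 0
  one := le_rfl
  xbd := by simp
  app := fun R _ => by simp
  int := fun R _ => ⟨(b:ℤ)^R, by push_cast; ring⟩
  const := fun _ _ _ _ => rfl
  norm := fun R _ => by simp

lemma Apx.dG_bd {b n : ℕ} {x : ℝ} {G : ℕ → ℚ} {S : Finset ℕ} {E : ℝ} {D K : ℕ} (hb : 2 ≤ b)
    (h : Apx p b n x G S E D K) (v : ℕ) (hv : v ≤ n) :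
    |(dG G v : ℝ)| ≤ (b+1) * E / (b:ℝ)^v := by
  have hbr : (2:ℝ) ≤ b := by exact_mod_cast hb
  have hb0 : (0:ℝ) < b := by linarith
  have hE := h.one
  rcases Nat.eq_zero_or_pos v with h2 | h2
  · subst h2
    rw [dG_zero, pow_zero, div_one]
    have h3 := h.app 0 (Nat.zero_le _)
    rw [pow_zero, div_one] at h3
    have h4 : |(G 0 : ℝ)| ≤ |(G 0 : ℝ) - x| + |x| := by
      have := abs_add_le ((G 0 : ℝ) - x) x
      rwa [sub_add_cancel] at this
    have h5 := h.xbd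
    nlinarith
  · obtain ⟨w, rfl⟩ : ∃ w, v = w + 1 := ⟨v - 1, by omega⟩
    rw [dG_succ]
    have h3 := h.app (w+1) (by omega)
    have h4 := h.app w (by omega)
    have h5 : ((G (w+1) - G w : ℚ) : ℝ) = ((G (w+1) : ℝ) - x) - ((G w : ℝ) - x) := by
      push_cast
      ring
    rw [h5]
    refine (abs_sub _ _).trans ((add_le_add h3 h4).trans (le_of_eq ?_))
    rw [pow_succ]
    field_simp
    ring

lemma Apx.dG_int {b n : ℕ} {x : ℝ} {G : ℕ → ℚ} {S : Finset ℕ} {E : ℝ} {D K : ℕ}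
    (h : Apx p b n x G S E D K) (v : ℕ) (hv : v ≤ n) :
    ∃ z : ℤ, (b:ℚ)^v * D * dG G v = z := by
  rcases Nat.eq_zero_or_pos v with h2 | h2
  · subst h2
    rw [dG_zero]
    exact h.int 0 (Nat.zero_le _)
  · obtain ⟨w, rfl⟩ : ∃ w, v = w + 1 := ⟨v - 1, by omega⟩
    obtain ⟨z1, h3⟩ := h.int (w+1) (by omega)
    obtain ⟨z2, h4⟩ := h.int w (by omega)
    refine ⟨z1 - b * z2, ?_⟩
    rw [dG_succ]
    push_cast
    rw [← h3, ← h4]
    ring

lemma Apx.dG_zero' {b n : ℕ} {x : ℝ} {G : ℕ → ℚ} {S : Finset ℕ} {E : ℝ} {D K : ℕ}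
    (h : Apx p b n x G S E D K) (v : ℕ) (hv : v ≤ n) (hS : v ∉ S) : dG G v = 0 := by
  have h1 : v ≠ 0 := by
    rintro rfl
    exact hS h.zero
  unfold dG
  rw [if_neg h1, h.const v (by omega) hv hS, sub_self]

/-- the product of two step functions: `R ↦ Σ_{u+v ≤ R} dG₁(u) dG₂(v)` -/
def star (G₁ G₂ : ℕ → ℚ) (R : ℕ) : ℚ := ∑ v ∈ range (R+1), dG G₂ v * G₁ (R - v)

lemma star_sub (G₁ G₂ : ℕ → ℚ) (u : ℕ) :
    star G₁ G₂ (u+1) - star G₁ G₂ u = ∑ v ∈ range (u+1+1), dG G₂ v * dG G₁ (u + 1 - v) := by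
  unfold star
  rw [Finset.sum_range_succ, Finset.sum_range_succ (n := u+1)]
  have h1 : ∑ v ∈ range (u+1), dG G₂ v * G₁ (u + 1 - v) - ∑ v ∈ range (u+1), dG G₂ v * G₁ (u - v)
      = ∑ v ∈ range (u+1), dG G₂ v * dG G₁ (u + 1 - v) := by
    rw [← Finset.sum_sub_distrib]
    refine Finset.sum_congr rfl (fun v hv => ?_)
    have hv' := Finset.mem_range.1 hv
    have : u + 1 - v = (u - v) + 1 := by omega
    rw [this, dG_succ]
    ring
  rw [← h1, Nat.sub_self, dG_zero]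
  ring

theorem Apx.mul {b n : ℕ} {x₁ x₂ : ℝ} {G₁ G₂ : ℕ → ℚ} {S₁ S₂ : Finset ℕ} {E₁ E₂ : ℝ}
    {D₁ D₂ K₁ K₂ t : ℕ} (hb : 2 ≤ b) (h₁ : Apx p b n x₁ G₁ S₁ E₁ D₁ K₁)
    (h₂ : Apx p b n x₂ G₂ S₂ E₂ D₂ K₂) (ht : #S₂ ≤ t) :
    Apx p b n (x₁ * x₂) (star G₁ G₂) (image₂ (· + ·) S₂ S₁) ((b+2) * t * E₁ * E₂) (D₁ * D₂)
      (K₁ + K₂) := by
  classical
  have hbr : (2:ℝ) ≤ b := by exact_mod_cast hb
  have hb0 : (0:ℝ) < b := by linarith
  have hE₁ := h₁.one
  have hE₂ := h₂.one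
  have hS₂ : 1 ≤ #S₂ := Finset.card_pos.2 ⟨0, h₂.zero⟩
  have ht1 : (1:ℝ) ≤ t := by exact_mod_cast hS₂.trans ht
  have htr : (#S₂ : ℝ) ≤ t := by exact_mod_cast ht
  have hEE : 1 ≤ E₁ * E₂ := by nlinarith
  have hbt : 1 ≤ ((b:ℝ)+2) * t := by nlinarith
  have hEbig : E₁ * E₂ ≤ ((b:ℝ)+2) * t * E₁ * E₂ := by
    have : ((b:ℝ)+2) * t * E₁ * E₂ = (((b:ℝ)+2) * t) * (E₁ * E₂) := by ring
    rw [this]
    exact le_mul_of_one_le_left (by linarith) hbt
  refine ⟨?_, hEE.trans hEbig, ?_, ?_, ?_, ?_, ?_⟩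
  · exact Finset.mem_image₂.2 ⟨0, h₂.zero, 0, h₁.zero, rfl⟩
  · rw [abs_mul]
    refine (mul_le_mul h₁.xbd h₂.xbd (abs_nonneg _) (by linarith)).trans hEbig
  · intro R hR
    have h1 : ((star G₁ G₂ R : ℚ) : ℝ) - x₁ * x₂ =
        ∑ v ∈ range (R+1), (dG G₂ v : ℝ) * ((G₁ (R - v) : ℝ) - x₁) + x₁ * ((G₂ R : ℝ) - x₂) := by
      have h2 : ∑ v ∈ range (R+1), (dG G₂ v : ℝ) = (G₂ R : ℝ) := by
        have := congrArg (fun x : ℚ => (x : ℝ)) (sum_dG G₂ R)
        push_cast at this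
        exact this
      unfold star
      push_cast
      simp only [mul_sub]
      rw [Finset.sum_sub_distrib, ← Finset.sum_mul, h2]
      ring
    rw [h1]
    refine (abs_add_le _ _).trans ?_
    have h3 : |∑ v ∈ range (R+1), (dG G₂ v : ℝ) * ((G₁ (R - v) : ℝ) - x₁)| ≤
        t * ((b+1) * E₂ * E₁ / (b:ℝ)^R) := by
      refine (Finset.abs_sum_le_sum_abs _ _).trans ?_
      calc ∑ v ∈ range (R+1), |(dG G₂ v : ℝ) * ((G₁ (R - v) : ℝ) - x₁)|
          ≤ ∑ v ∈ range (R+1), (if v ∈ S₂ then (b+1) * E₂ * E₁ / (b:ℝ)^R else 0) := by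
            refine Finset.sum_le_sum (fun v hv => ?_)
            have hv' := Finset.mem_range.1 hv
            split_ifs with hvS
            · rw [abs_mul]
              have h4 := h₂.dG_bd hb v (by omega)
              have h5 := h₁.app (R - v) (by omega)
              calc |(dG G₂ v : ℝ)| * |(G₁ (R - v) : ℝ) - x₁|
                  ≤ ((b+1) * E₂ / (b:ℝ)^v) * (E₁ / (b:ℝ)^(R-v)) :=
                    mul_le_mul h4 h5 (abs_nonneg _) (by positivity)
                _ = (b+1) * E₂ * E₁ / (b:ℝ)^R := by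
                    rw [div_mul_div_comm, ← pow_add, Nat.add_sub_cancel' (by omega)]
            · rw [h₂.dG_zero' v (by omega) hvS]
              simp
        _ = (#((range (R+1)).filter (fun v => v ∈ S₂)) : ℝ) * ((b+1) * E₂ * E₁ / (b:ℝ)^R) := by
            rw [← Finset.sum_filter, Finset.sum_const, nsmul_eq_mul]
        _ ≤ t * ((b+1) * E₂ * E₁ / (b:ℝ)^R) := by
            refine mul_le_mul_of_nonneg_right ?_ (by positivity)
            refine le_trans ?_ htr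
            have h6 : (range (R+1)).filter (fun v => v ∈ S₂) ⊆ S₂ := by
              intro v hv
              exact (Finset.mem_filter.1 hv).2
            exact_mod_cast Finset.card_le_card h6
    have h4 : |x₁ * ((G₂ R : ℝ) - x₂)| ≤ E₁ * (E₂ / (b:ℝ)^R) := by
      rw [abs_mul]
      exact mul_le_mul h₁.xbd (h₂.app R hR) (abs_nonneg _) (by linarith)
    refine (add_le_add h3 h4).trans ?_
    have h5 : t * ((b+1) * E₂ * E₁ / (b:ℝ)^R) + E₁ * (E₂ / (b:ℝ)^R) =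
        (t * (b+1) + 1) * (E₁ * E₂) / (b:ℝ)^R := by ring
    rw [h5]
    apply div_le_div_of_nonneg_right _ (by positivity)
    have h6 : (t:ℝ) * (b+1) + 1 ≤ (b+2) * t := by nlinarith
    calc (t * (b+1) + 1) * (E₁ * E₂) ≤ ((b+2) * t) * (E₁ * E₂) :=
          mul_le_mul_of_nonneg_right h6 (by linarith)
      _ = (b+2) * t * E₁ * E₂ := by ring
  · intro R hR
    have key : (b:ℚ)^R * ((D₁ * D₂ : ℕ) : ℚ) * star G₁ G₂ R ∈ (Int.castRingHom ℚ).range := by
      unfold star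
      rw [Finset.mul_sum]
      refine Subring.sum_mem _ (fun v hv => ?_)
      have hv' := Finset.mem_range.1 hv
      obtain ⟨z1, h1⟩ := h₂.dG_int v (by omega)
      obtain ⟨z2, h2⟩ := h₁.int (R - v) (by omega)
      refine RingHom.mem_range.2 ⟨z1 * z2, ?_⟩
      have h3 : (b:ℚ)^R = (b:ℚ)^v * (b:ℚ)^(R-v) := by
        rw [← pow_add, Nat.add_sub_cancel' (by omega)]
      simp only [eq_intCast]
      push_cast
      rw [← h1, ← h2, h3]
      ring
    obtain ⟨z, hz⟩ := key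
    exact ⟨z, by rw [← hz]; rfl⟩
  · intro u hu hun huS
    obtain ⟨w, rfl⟩ : ∃ w, u = w + 1 := ⟨u - 1, by omega⟩
    have h1 := star_sub G₁ G₂ w
    have h2 : ∑ v ∈ range (w+1+1), dG G₂ v * dG G₁ (w + 1 - v) = 0 := by
      refine Finset.sum_eq_zero (fun v hv => ?_)
      have hv' := Finset.mem_range.1 hv
      by_cases hvS : v ∈ S₂
      · have h3 : w + 1 - v ∉ S₁ := by
          intro h4
          exact huS (Finset.mem_image₂.2 ⟨v, hvS, _, h4, by omega⟩)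
        rw [h₁.dG_zero' _ (by omega) h3, mul_zero]
      · rw [h₂.dG_zero' v (by omega) hvS, zero_mul]
    rw [h2] at h1
    rw [Nat.add_sub_cancel]
    linarith
  · intro R hR
    unfold star
    push_cast
    apply sum_norm_le _ _ (pow_nonneg p_pos.le _)
    intro v hv
    have hv' := Finset.mem_range.1 hv
    rw [norm_mul, pow_add, mul_comm]
    exact mul_le_mul (h₁.norm _ (by omega)) (norm_dG h₂.norm v (by omega)) (norm_nonneg _)
      (pow_nonneg p_pos.le _)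

/-- monomials -/
theorem Apx.prod {b n r : ℕ} (hb : 2 ≤ b) {ξ : Fin r → ℝ} {G : Fin r → ℕ → ℚ} {S : Finset ℕ}
    {E : ℝ} {D K t : ℕ} (ht : #S ≤ t) (ht1 : 1 ≤ t) (h : ∀ i, Apx p b n (ξ i) (G i) S E D K)
    (hE : 1 ≤ E) (m : Multiset (Fin r)) :
    ∃ H : ℕ → ℚ, Apx p b n (m.map ξ).prod H (ss S (Multiset.card m))
      (((b+2) * t * E)^(Multiset.card m)) (D^(Multiset.card m)) (K * Multiset.card m) := by
  induction m using Multiset.induction_on with
  | empty =>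
    refine ⟨fun _ => 1, ?_⟩
    have h1 := Apx.one' (p := p) b n
    simpa [ss] using h1
  | cons i m ih =>
    obtain ⟨H, hH⟩ := ih
    refine ⟨star H (G i), ?_⟩
    have h1 := hH.mul hb (h i) ht
    rw [Multiset.map_cons, Multiset.prod_cons, Multiset.card_cons, mul_comm (ξ i)]
    have h2 : ((b+2) * t * ((b+2) * t * E)^(Multiset.card m) * E : ℝ) =
        ((b+2) * t * E)^(Multiset.card m + 1) := by rw [pow_succ]; ring
    have h3 : D^(Multiset.card m) * D = D^(Multiset.card m + 1) := by rw [pow_succ]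
    have h4 : K * Multiset.card m + K = K * (Multiset.card m + 1) := by ring
    rw [h2, h3, h4] at h1
    exact h1

end Pool.Agent.Chain
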