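import Pool.Agent.Chain.Digits

/-! # The step function attached to a piecewise periodic expansion. -/

open Finset

namespace Pool.Agent.Chain

/-- the largest element of `S` that is `≤ R` -/
def lst (S : Finset ℕ) (R : ℕ) : ℕ := (S.filter (fun s => s ≤ R)).sup id

lemma lst_mem {S : Finset ℕ} (h0 : 0 ∈ S) (R : ℕ) : lst S R ∈ S ∧ lst S R ≤ R := by
  have hne : (S.filter (fun s => s ≤ R)).Nonempty := ⟨0, Finset.mem_filter.2 ⟨h0, Nat.zero_le _⟩⟩
  obtain ⟨x, hx, hx'⟩ := Finset.exists_mem_eq_sup _ hne (id : ℕ → ℕ)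
  have h1 : lst S R = x := hx'
  rw [h1]
  exact Finset.mem_filter.1 hx

lemma le_lst {S : Finset ℕ} {R s : ℕ} (hs : s ∈ S) (hR : s ≤ R) : s ≤ lst S R :=
  Finset.le_sup (f := id) (Finset.mem_filter.2 ⟨hs, hR⟩)

lemma lst_pred {S : Finset ℕ} {u : ℕ} (hu : 1 ≤ u) (h : u ∉ S) : lst S u = lst S (u-1) := by
  unfold lst
  congr 1
  ext s
  simp only [Finset.mem_filter]
  constructor
  · rintro ⟨hs, hle⟩
    refine ⟨hs, ?_⟩
    have : s ≠ u := fun h' => h (h' ▸ hs)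
    omega
  · rintro ⟨hs, hle⟩
    exact ⟨hs, by omega⟩

theorem fn_of_digits {b : ℕ} (hb : 2 ≤ b) (B : ℕ) : ∃ C' : ℕ, ∀ (n q L : ℕ) (r : ℤ) (e : ℕ → ℤ)
    (α : ℝ) (S : Finset ℕ) (Pm : ℕ → Prop), 1 ≤ n → 1 ≤ q → Pm 1 → L + 1 ≤ n →
    (∀ k : ℕ, |e k| ≤ B * ((k:ℤ)+1)^B) →
    HasSum (fun k => (e k : ℝ) / (b:ℝ)^k) (q * α + r) →
    (∀ a a', a + L < a' → a' ≤ n → (∀ s ∈ S, s ≤ a ∨ a' ≤ s) →
      ∃ m, 1 ≤ m ∧ m ≤ L + 1 ∧ Pm m ∧ ∀ k, a ≤ k → k + m < a' → e (k+m) = e k) →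
    ∃ (S' : Finset ℕ) (m : ℕ → ℕ) (G : ℕ → ℚ), 0 ∈ S' ∧ S' ⊆ range n ∧ #S' ≤ #S + 1 ∧
      (∀ a ∈ S', 1 ≤ m a ∧ m a ≤ L + 1 ∧ Pm (m a)) ∧
      (∀ R ≤ n, |(G R : ℝ) - α| ≤ C' * ((n:ℝ)+1)^B / (b:ℝ)^R) ∧
      (∀ R ≤ n, ∃ a ∈ S', a ≤ R ∧
        ∃ z : ℤ, (b:ℚ)^a * ((b:ℚ)^(L+1) * ((b:ℚ)^(m a) - 1)) * (q * G R + r) = z) ∧
      (∀ u, 1 ≤ u → u ≤ n → u ∉ S' → G u = G (u-1)) := by
  classical
  obtain ⟨C, hC⟩ := tail_unif hb B
  refine ⟨b * C + 2 * (B * 2^B), ?_⟩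
  intro n q L r e α S Pm hn hq hP1 hMn hbd hsum hper
  have htail := hC _ e hbd hsum
  have hb0 : (0:ℝ) < b := by exact_mod_cast (by omega : 0 < b)
  have hb1 : (1:ℝ) ≤ b := by exact_mod_cast (by omega : 1 ≤ b)
  obtain ⟨S', hS'⟩ : ∃ S', S' = insert 0 (S.filter (fun s => s < n)) := ⟨_, rfl⟩
  have h0 : 0 ∈ S' := by rw [hS']; exact Finset.mem_insert_self _ _
  have hS'n : S' ⊆ range n := by
    intro s hs
    rw [hS', Finset.mem_insert, Finset.mem_filter] at hs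
    rw [Finset.mem_range]
    omega
  have hcard : #S' ≤ #S + 1 := by
    rw [hS']
    exact (Finset.card_insert_le _ _).trans (Nat.add_le_add_right (Finset.card_filter_le _ _) 1)
  obtain ⟨x, hx⟩ : ∃ x : ℝ, x = q * α + r := ⟨_, rfl⟩
  rw [← hx] at htail
  have key : ∀ a ∈ S', ∃ (m : ℕ) (β : ℚ), 1 ≤ m ∧ m ≤ L + 1 ∧ Pm m ∧
      (∀ R, R ≤ n → (∀ s ∈ S', s ≤ R → s ≤ a) →
        |(β : ℝ) - x| ≤ ((b * C + 2 * (B * 2^B) : ℕ) : ℝ) * ((n:ℝ)+1)^B / (b:ℝ)^R) ∧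
      ∃ z : ℤ, (b:ℚ)^a * ((b:ℚ)^(L+1) * ((b:ℚ)^m - 1)) * β = z := by
    intro a ha
    have han := Finset.mem_range.1 (hS'n ha)
    obtain ⟨T, hT⟩ : ∃ T, T = insert n (S'.filter (fun s => a < s)) := ⟨_, rfl⟩
    have hTne : T.Nonempty := ⟨n, by rw [hT]; exact Finset.mem_insert_self _ _⟩
    obtain ⟨a', ha'⟩ : ∃ a', a' = T.min' hTne := ⟨_, rfl⟩
    have ha'T : a' ∈ T := by rw [ha']; exact Finset.min'_mem _ _
    have ha'min : ∀ s ∈ T, a' ≤ s := by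
      intro s hs
      rw [ha']
      exact Finset.min'_le _ _ hs
    have haa' : a < a' := by
      rw [hT, Finset.mem_insert, Finset.mem_filter] at ha'T
      rcases ha'T with h | h
      · omega
      · exact h.2
    have ha'n : a' ≤ n := ha'min n (by rw [hT]; exact Finset.mem_insert_self _ _)
    have hfree : ∀ s ∈ S', s ≤ a ∨ a' ≤ s := by
      intro s hs
      by_cases h : s ≤ a
      · exact Or.inl h
      · right
        exact ha'min s (by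
          rw [hT, Finset.mem_insert, Finset.mem_filter]
          exact Or.inr ⟨hs, by omega⟩)
    have hRa' : ∀ R, R ≤ n → (∀ s ∈ S', s ≤ R → s ≤ a) → R ≤ a' := by
      intro R hR hRs
      rw [hT, Finset.mem_insert, Finset.mem_filter] at ha'T
      rcases ha'T with h | h
      · omega
      · by_contra hcon
        have := hRs a' h.1 (by omega)
        omega
    have hbound : ∀ β : ℚ, |(β : ℝ) - x| ≤
        ((b * C + 2 * (B * 2^B) : ℕ) : ℝ) * ((n:ℝ)+1)^B / (b:ℝ)^a' →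
        ∀ R, R ≤ n → (∀ s ∈ S', s ≤ R → s ≤ a) →
        |(β : ℝ) - x| ≤ ((b * C + 2 * (B * 2^B) : ℕ) : ℝ) * ((n:ℝ)+1)^B / (b:ℝ)^R := by
      intro β hβ R hR hRs
      refine hβ.trans ?_
      apply div_le_div_of_nonneg_left (by positivity) (by positivity)
      exact pow_le_pow_right₀ hb1 (hRa' R hR hRs)
    by_cases hlong : a + L < a'
    · obtain ⟨m, hm1, hm2, hmP, hm3⟩ := hper a a' hlong ha'n (by
        intro s hs
        by_cases hsn : s < n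
        · apply hfree
          rw [hS', Finset.mem_insert, Finset.mem_filter]
          exact Or.inr ⟨hs, hsn⟩
        · right; omega)
      obtain ⟨β, hβ1, z, hz⟩ := block_long hb hbd htail haa' ha'n hm1 (hm2.trans hMn) hm3
      refine ⟨m, β, hm1, hm2, hmP, hbound β (hβ1.trans (le_of_eq ?_)), (b:ℤ)^(L+1) * z, ?_⟩
      · push_cast
        rw [mul_pow]
        ring
      · push_cast
        rw [← hz]
        ring
    · obtain ⟨hβ1, z, hz⟩ := block_short hb (x := x) htail haa' ha'n (by omega : a' ≤ a + L)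
      refine ⟨1, pre b e a', le_rfl, by omega, hP1, hbound _ (hβ1.trans ?_),
        (b:ℤ) * ((b:ℤ) - 1) * z, ?_⟩
      · apply div_le_div_of_nonneg_right _ (by positivity)
        push_cast
        have h1 : (0:ℝ) ≤ 2 * (B * 2^B) * ((n:ℝ)+1)^B := by positivity
        nlinarith
      · push_cast
        rw [← hz]
        ring
  choose! m β hm1 hm2 hmP hβ hz using key
  have hq0 : (0:ℚ) < q := by exact_mod_cast hq
  have hq0r : (0:ℝ) < q := by exact_mod_cast hq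
  have hq1r : (1:ℝ) ≤ q := by exact_mod_cast hq
  refine ⟨S', m, fun R => (β (lst S' R) - r) / q, h0, hS'n, hcard,
    fun a ha => ⟨hm1 a ha, hm2 a ha, hmP a ha⟩, ?_, ?_, ?_⟩
  · intro R hR
    obtain ⟨h1, h2⟩ := lst_mem h0 R
    have h3 := hβ _ h1 R hR (fun s hs hsR => le_lst hs hsR)
    have h4 : (((β (lst S' R) - r) / q : ℚ) : ℝ) - α = ((β (lst S' R) : ℝ) - x) / q := by
      rw [hx]
      push_cast
      field_simp
      ring
    rw [h4, abs_div, abs_of_pos hq0r]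
    exact (div_le_self (abs_nonneg _) hq1r).trans h3
  · intro R hR
    obtain ⟨h1, h2⟩ := lst_mem h0 R
    obtain ⟨z, hz'⟩ := hz _ h1
    refine ⟨_, h1, h2, z, ?_⟩
    rw [← hz']
    congr 1
    field_simp
    ring
  · intro u hu1 hu2 hu3
    simp only
    rw [lst_pred hu1 hu3]

end Pool.Agent.Chain
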