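import Pool.Agent.AlgD.Coarse
import Pool.Agent.AlgD.Frob

/-! # Chains of rational approximations: exact systems over a field, coarsening and truncation. -/

open Finset Polynomial

namespace Pool.Agent.Chain

open Pool.Agent.SqrtDC Pool.Agent.DigitA Pool.Agent.AlgD

/-- exactness over a field: off the neighbourhoods of the `d`-fold sums the truncated sums of `P(f)`,
`f = gp A v`, vanish -/
structure ExK {K : Type*} [Field K] (P : K[X]) (d : ℕ) (A : Finset ℕ) (v : ℕ → K)
    (N Λ : ℕ) : Prop where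
  zero : 0 ∈ A
  ex : ∀ R, R + Λ ≤ N → (∀ s ∈ ss A d, ¬ (R < s ∧ s ≤ R + Λ)) → cum R (P.comp (gp A v)) = 0

variable {K : Type*} [Field K]

lemma ExK.mono {P : K[X]} {d : ℕ} {A : Finset ℕ} {v : ℕ → K} {N Λ Λ' : ℕ}
    (h : ExK P d A v N Λ) (hΛ : Λ ≤ Λ') : ExK P d A v N Λ' where
  zero := h.zero
  ex := fun R hR hs => h.ex R (by omega) (fun s hs' hc => hs s hs' ⟨hc.1, by omega⟩)

lemma mem_ss_iff (A : Finset ℕ) (m s : ℕ) :
    s ∈ ss A m ↔ ∃ u ∈ tup A m, ∑ j, u j = s := by
  induction m generalizing s with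
  | zero =>
    simp only [ss, Finset.mem_singleton, tup, Fintype.mem_piFinset, univ_eq_empty, sum_empty]
    constructor
    · rintro rfl
      exact ⟨fun i => i.elim0, fun i => i.elim0, rfl⟩
    · rintro ⟨u, _, h⟩
      exact h.symm
  | succ m ih =>
    constructor
    · intro h
      obtain ⟨e, he, s1, hs1, h1⟩ := Finset.mem_image₂.1 h
      obtain ⟨u, hu, hu1⟩ := (ih s1).1 hs1
      rw [tup, Fintype.mem_piFinset] at hu
      refine ⟨Fin.cons e u, ?_, ?_⟩
      · rw [tup, Fintype.mem_piFinset]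
        intro j
        refine Fin.cases ?_ (fun i => ?_) j
        · rw [Fin.cons_zero]; exact he
        · rw [Fin.cons_succ]; exact hu i
      · rw [Fin.sum_univ_succ, Fin.cons_zero]
        simp only [Fin.cons_succ]
        rw [hu1, h1]
    · rintro ⟨u, hu, hu1⟩
      rw [tup, Fintype.mem_piFinset] at hu
      refine Finset.mem_image₂.2 ⟨u 0, hu 0, ∑ j : Fin m, u j.succ, ?_, ?_⟩
      · exact (ih _).2 ⟨fun j => u j.succ, by
          rw [tup, Fintype.mem_piFinset]
          exact fun j => hu _, rfl⟩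
      · rw [← hu1, Fin.sum_univ_succ]

/-- `cum R (P(f))` as a sum over tuples -/
lemma cum_comp_tup (P : K[X]) (A : Finset ℕ) (v : ℕ → K) (R : ℕ) :
    cum R (P.comp (gp A v)) = ∑ i ∈ range (P.natDegree + 1), P.coeff i *
      ∑ u ∈ (tup A i).filter (fun u => ∑ j, u j ≤ R), ∏ j, v (u j) := by
  rw [coarse_comp]
  exact Finset.sum_congr rfl (fun i _ => by rw [cum_gp_powD])

/-- truncation of an exact system -/
lemma ExK.trunc {P : K[X]} {d : ℕ} {A : Finset ℕ} {v : ℕ → K} {N Λ T : ℕ}
    (h : ExK P d A v N Λ) (hT : T ≤ N) :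
    ExK P d (A.filter (fun e => e ≤ T)) v T Λ where
  zero := Finset.mem_filter.2 ⟨h.zero, Nat.zero_le _⟩
  ex := by
    intro R hR hs
    have h1 : cum R (P.comp (gp A v)) = 0 := by
      refine h.ex R (by omega) ?_
      intro s hs' hc
      refine hs s ?_ hc
      rw [mem_ss_iff] at hs' ⊢
      obtain ⟨u, hu, hu1⟩ := hs'
      refine ⟨u, ?_, hu1⟩
      rw [tup, Fintype.mem_piFinset] at hu ⊢
      intro j
      refine Finset.mem_filter.2 ⟨hu j, ?_⟩
      have h2 : u j ≤ ∑ j, u j := Finset.single_le_sum (f := u) (fun i _ => Nat.zero_le _) (mem_univ j)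
      omega
    rw [← h1, cum_comp_tup, cum_comp_tup]
    refine Finset.sum_congr rfl (fun i _ => ?_)
    congr 1
    refine Finset.sum_congr ?_ (fun _ _ => rfl)
    ext u
    simp only [tup, Finset.mem_filter, Fintype.mem_piFinset]
    constructor
    · rintro ⟨hu, hu1⟩
      exact ⟨fun j => (hu j).1, hu1⟩
    · rintro ⟨hu, hu1⟩
      refine ⟨fun j => ⟨hu j, ?_⟩, hu1⟩
      have h2 : u j ≤ ∑ j, u j := Finset.single_le_sum (f := u) (fun i _ => Nat.zero_le _) (mem_univ j)
      omega

section coarse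

variable [DecidableEq K]

theorem regroup_starts (A : Finset ℕ) (v : ℕ → K) (γ i : ℕ) (G : (Fin i → ℕ) → K) :
    ∑ u ∈ tup A i, G (fun j => stt A γ (u j)) * ∏ j, v (u j) =
      ∑ x ∈ tup (starts A γ) i, G x * ∏ j, mass A v γ (x j) := by
  rw [← Finset.sum_fiberwise_of_maps_to (s := tup A i) (t := tup (starts A γ) i)
    (g := fun u j => stt A γ (u j))]
  · refine Finset.sum_congr rfl (fun x _ => ?_)
    have h2 : (tup A i).filter (fun u => (fun j => stt A γ (u j)) = x) =
        Fintype.piFinset (fun j => A.filter (fun e => stt A γ e = x j)) := by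
      ext u
      simp only [tup, Finset.mem_filter, Fintype.mem_piFinset, funext_iff]
      constructor
      · rintro ⟨a, b⟩ j
        exact ⟨a j, b j⟩
      · intro a
        exact ⟨fun j => (a j).1, fun j => (a j).2⟩
    have h3 : ∑ u ∈ (tup A i).filter (fun u => (fun j => stt A γ (u j)) = x),
        G (fun j => stt A γ (u j)) * ∏ j, v (u j) =
        ∑ u ∈ (tup A i).filter (fun u => (fun j => stt A γ (u j)) = x),
        G x * ∏ j, v (u j) := by
      refine Finset.sum_congr rfl (fun u hu => ?_)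
      rw [(Finset.mem_filter.1 hu).2]
    rw [h3, ← Finset.mul_sum, h2, ← Finset.prod_univ_sum]
    rfl
  · intro u hu
    rw [tup, Fintype.mem_piFinset] at hu ⊢
    exact fun j => stt_mem' A (hu j)

lemma sum_le_stt (A : Finset ℕ) (γ t : ℕ) (ht : #A ≤ t) {i : ℕ} (u : Fin i → ℕ) (hu : u ∈ tup A i) :
    ∑ j, u j ≤ ∑ j, stt A γ (u j) + i * (t * γ) := by
  rw [tup, Fintype.mem_piFinset] at hu
  have h1 : ∑ j, u j ≤ ∑ j : Fin i, (stt A γ (u j) + t * γ) :=
    Finset.sum_le_sum (fun j _ => le_stt' A γ (u j) t ht (hu j))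
  rw [Finset.sum_add_distrib, Finset.sum_const, Finset.card_univ, Fintype.card_fin,
    smul_eq_mul] at h1
  exact h1

/-- passage to the clusters -/
theorem ExK.coarse {P : K[X]} {d : ℕ} {A : Finset ℕ} {v : ℕ → K} {N Λ : ℕ}
    (h : ExK P d A v N Λ) (hPd : P.natDegree ≤ d) (t γ : ℕ) (ht : #A ≤ t) :
    ExK P d (starts A γ) (mass A v γ) N (Λ + d * (t * γ)) where
  zero := by
    rw [mem_starts]
    exact ⟨h.zero, fun e' _ hlt => absurd hlt (Nat.not_lt_zero _)⟩
  ex := by
    intro R hR hs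
    have hmem : ∀ {i : ℕ} (u : Fin i → ℕ), u ∈ tup A i →
        (fun j => stt A γ (u j)) ∈ tup (starts A γ) i := by
      intro i u hu
      rw [tup, Fintype.mem_piFinset] at hu ⊢
      exact fun j => stt_mem' A (hu j)
    -- the fine relation at `R + d t γ`
    have h1 : cum (R + d * (t * γ)) (P.comp (gp A v)) = 0 := by
      refine h.ex _ (by omega) ?_
      intro s hs' hc
      rw [mem_ss_iff] at hs'
      obtain ⟨u, hu, hu1⟩ := hs'
      have h2 := sum_le_stt A γ t ht u hu
      have h3 := coarse_sum_stt_le A γ u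
      refine hs (∑ j, stt A γ (u j)) ?_ (by omega)
      rw [mem_ss_iff]
      exact ⟨_, hmem u hu, rfl⟩
    rw [← h1, cum_comp_tup, cum_comp_tup]
    refine Finset.sum_congr rfl (fun i hi => ?_)
    congr 1
    have hi' : i ≤ d := by
      have := Finset.mem_range.1 hi
      omega
    have hgood : ∀ u ∈ tup A d,
        ¬ (∑ j, stt A γ (u j) ≤ R + d * (t * γ) ∧ R + d * (t * γ) < ∑ j, u j) := by
      intro u hu hc
      have h2 := sum_le_stt A γ t ht u hu
      refine hs (∑ j, stt A γ (u j)) ?_ (by omega)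
      rw [mem_ss_iff]
      exact ⟨_, hmem u hu, rfl⟩
    have hiff : ∀ u ∈ tup A i, (∑ j, u j ≤ R + d * (t * γ) ↔
        ∑ j, stt A γ (u j) ≤ R + d * (t * γ)) := by
      obtain ⟨m, hm⟩ := Nat.exists_eq_add_of_le hi'
      generalize R + d * (t * γ) = R1 at hgood
      subst hm
      exact coarse_pad h.zero γ R1 i m hgood
    rw [Finset.sum_filter, Finset.sum_filter]
    have h2 := regroup_starts A v γ i (fun x => if ∑ j, x j ≤ R + d * (t * γ) then 1 else 0)
    have h3 : ∑ x ∈ tup (starts A γ) i, (if ∑ j, x j ≤ R then ∏ j, mass A v γ (x j) else 0) =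
        ∑ x ∈ tup (starts A γ) i, (if ∑ j, x j ≤ R + d * (t * γ) then 1 else 0) *
          ∏ j, mass A v γ (x j) := by
      refine Finset.sum_congr rfl (fun x hx => ?_)
      rw [ite_mul, one_mul, zero_mul]
      refine if_congr ?_ rfl rfl
      constructor
      · intro hx1; omega
      · intro hx1
        by_contra hx2
        push Not at hx2
        refine hs (∑ j, x j) ?_ ⟨hx2, by omega⟩
        have h0s : 0 ∈ starts A γ := by
          rw [mem_starts]
          exact ⟨h.zero, fun e' _ hlt => absurd hlt (Nat.not_lt_zero _)⟩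
        exact ss_le _ h0s hi' ((mem_ss_iff _ _ _).2 ⟨x, hx, rfl⟩)
    rw [h3, ← h2]
    refine Finset.sum_congr rfl (fun u hu => ?_)
    rw [ite_mul, one_mul, zero_mul]
    exact if_congr (hiff u hu).symm rfl rfl

end coarse

end Pool.Agent.Chain
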