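import Mathlib

/-! # Valuations of `b^m - 1`, and the poles of the approximations. -/

open Finset

namespace Pool.Agent.Chain

variable {p : ℕ} [hp : Fact p.Prime]

lemma norm_nat_ge {N K : ℕ} (hN : N ≠ 0) (h : ∀ j, p^j ∣ N → j ≤ K) :
    1 ≤ (p:ℝ)^K * ‖(N : ℚ_[p])‖ := by
  obtain ⟨e, n', hn', hNe⟩ := Nat.exists_eq_pow_mul_and_not_dvd hN p hp.out.ne_one
  have he : e ≤ K := h e ⟨n', hNe⟩
  have hp0 : (0:ℝ) < p := by exact_mod_cast hp.out.pos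
  have hp1 : (1:ℝ) ≤ p := by exact_mod_cast hp.out.one_le
  have h1 : ‖(n' : ℚ_[p])‖ = 1 := by
    rw [Padic.norm_natCast_eq_one_iff]
    exact (Nat.Prime.coprime_iff_not_dvd hp.out).2 hn'
  have h2 : ‖(N : ℚ_[p])‖ = ((p:ℝ)^e)⁻¹ := by
    rw [hNe]
    push_cast
    rw [norm_mul, norm_pow, Padic.norm_p, h1, mul_one, inv_pow]
  rw [h2, ← div_eq_mul_inv, le_div_iff₀ (by positivity), one_mul]
  exact pow_le_pow_right₀ hp1 he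

lemma pow_dvd_log {m j : ℕ} (hm : m ≠ 0) (h : p^j ∣ m) : j ≤ Nat.log 2 m := by
  have h1 : p^j ≤ m := Nat.le_of_dvd (Nat.pos_of_ne_zero hm) h
  apply Nat.le_log_of_pow_le (by norm_num)
  exact (Nat.pow_le_pow_left hp.out.two_le j).trans h1

lemma pow_dvd_bm {b m j : ℕ} (hb : 2 ≤ b) (hp3 : 3 ≤ p) (hpb : ¬ p ∣ b) (hm : 1 ≤ m)
    (h : p^j ∣ b^m - 1) : j ≤ padicValNat p (b^(p-1) - 1) + padicValNat p m := by
  have hodd : Odd p := hp.out.odd_of_ne_two (by omega)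
  have hpb' : ¬ p ∣ b^(p-1) := fun h' => hpb (hp.out.dvd_of_dvd_pow h')
  have h1 : b^m - 1 ∣ b^(m*(p-1)) - 1 := by
    have := Nat.pow_sub_pow_dvd_pow_sub_pow b 1 (Dvd.intro (p-1) (rfl : m * (p-1) = m*(p-1)))
    simpa using this
  have h2 : p ∣ b^(p-1) - 1 := by
    have h3 : (b^(p-1)) ≡ 1 [MOD p] := by
      have := ZMod.pow_card_sub_one_eq_one (p := p) (a := (b : ZMod p)) (by
        intro h0
        exact hpb ((ZMod.natCast_eq_zero_iff _ _).1 h0))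
      rw [← ZMod.natCast_eq_natCast_iff]
      push_cast
      exact this
    exact (Nat.modEq_iff_dvd' (Nat.one_le_pow _ _ (by omega))).1 h3.symm
  have hlt : 1 < b^(p-1) := Nat.one_lt_pow (by omega) (by omega)
  have hne : b^(m*(p-1)) - 1 ≠ 0 := by
    have : 1 < b^(m*(p-1)) := Nat.one_lt_pow (by
      have : 1 ≤ m * (p-1) := Nat.mul_pos hm (by omega)
      omega) (by omega)
    omega
  have h4 : p^j ∣ b^(m*(p-1)) - 1 := h.trans h1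
  rw [padicValNat_dvd_iff_le hne] at h4
  have h5 : padicValNat p ((b^(p-1))^m - 1^m) = padicValNat p (b^(p-1) - 1) + padicValNat p m :=
    padicValNat.pow_sub_pow hodd hlt h2 hpb' (by omega)
  have h6 : (b^(p-1))^m - 1^m = b^(m*(p-1)) - 1 := by
    rw [one_pow, ← pow_mul, mul_comm]
  rw [h6] at h5
  omega

lemma val_le {m K : ℕ} (hm : m ≠ 0) (h : ¬ p^(K+1) ∣ m) : padicValNat p m ≤ K := by
  by_contra hcon
  push Not at hcon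
  exact h ((padicValNat_dvd_iff_le hm).2 hcon)

/-- the pole of `G` -/
lemma norm_G {b q m K1 K2 a : ℕ} {r z : ℤ} {g : ℚ} (hb : 2 ≤ b) (hpb : ¬ p ∣ b) (hm : 1 ≤ m)
    (hq : 1 ≤ q) (h1 : ∀ j, p^j ∣ b^m - 1 → j ≤ K1) (h2 : ∀ j, p^j ∣ q → j ≤ K2)
    (L : ℕ) (hz : (b:ℚ)^a * ((b:ℚ)^(L+1) * ((b:ℚ)^m - 1)) * (q * g + r) = z) :
    ‖(g : ℚ_[p])‖ ≤ (p:ℝ)^(K1 + K2) := by
  have hp0 : (0:ℝ) < p := by exact_mod_cast hp.out.pos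
  have hp1 : (1:ℝ) ≤ p := by exact_mod_cast hp.out.one_le
  have hbm : 1 < b^m := Nat.one_lt_pow (by omega) (by omega)
  have h3 := norm_nat_ge (p := p) (N := b^m - 1) (by omega) h1
  have h4 := norm_nat_ge (p := p) (N := q) (by omega) h2
  have hbn : ‖(b : ℚ_[p])‖ = 1 := by
    rw [Padic.norm_natCast_eq_one_iff]
    exact (Nat.Prime.coprime_iff_not_dvd hp.out).2 hpb
  have h5 : ((b^m - 1 : ℕ) : ℚ_[p]) = (b : ℚ_[p])^m - 1 := by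
    rw [Nat.cast_sub hbm.le]
    push_cast
    rfl
  have h6 := congrArg (fun x : ℚ => ‖(x : ℚ_[p])‖) hz
  beta_reduce at h6
  push_cast at h6
  rw [norm_mul, norm_mul, norm_mul, norm_pow, norm_pow, hbn, one_pow, one_pow, one_mul, one_mul,
    ← h5] at h6
  have h7 : ‖(z : ℚ_[p])‖ ≤ 1 := Padic.norm_int_le_one z
  -- the norm of `q g + r`
  have h8 : ‖(q : ℚ_[p]) * (g : ℚ_[p]) + (r : ℚ_[p])‖ ≤ (p:ℝ)^K1 := by
    have h9 : (0:ℝ) ≤ ‖(q : ℚ_[p]) * (g : ℚ_[p]) + (r : ℚ_[p])‖ := norm_nonneg _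
    have h10 : (0:ℝ) < (p:ℝ)^K1 := by positivity
    calc ‖(q : ℚ_[p]) * (g : ℚ_[p]) + (r : ℚ_[p])‖
        = 1 * ‖(q : ℚ_[p]) * (g : ℚ_[p]) + (r : ℚ_[p])‖ := (one_mul _).symm
      _ ≤ ((p:ℝ)^K1 * ‖((b^m - 1 : ℕ) : ℚ_[p])‖) * ‖(q : ℚ_[p]) * (g : ℚ_[p]) + (r : ℚ_[p])‖ :=
          mul_le_mul_of_nonneg_right h3 h9
      _ = (p:ℝ)^K1 * (‖((b^m - 1 : ℕ) : ℚ_[p])‖ *
          ‖(q : ℚ_[p]) * (g : ℚ_[p]) + (r : ℚ_[p])‖) := by ring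
      _ ≤ (p:ℝ)^K1 * 1 := mul_le_mul_of_nonneg_left (by rw [h6]; exact h7) h10.le
      _ = (p:ℝ)^K1 := mul_one _
  have h9 : ‖(q : ℚ_[p]) * (g : ℚ_[p])‖ ≤ (p:ℝ)^K1 := by
    have h10 : (q : ℚ_[p]) * (g : ℚ_[p]) =
        ((q : ℚ_[p]) * (g : ℚ_[p]) + (r : ℚ_[p])) + -(r : ℚ_[p]) := by ring
    rw [h10]
    refine (Padic.nonarchimedean _ _).trans (max_le h8 ?_)
    rw [norm_neg]
    exact (Padic.norm_int_le_one r).trans (one_le_pow₀ hp1)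
  rw [norm_mul] at h9
  have h10 : (0:ℝ) ≤ ‖(g : ℚ_[p])‖ := norm_nonneg _
  calc ‖(g : ℚ_[p])‖ = 1 * ‖(g : ℚ_[p])‖ := (one_mul _).symm
    _ ≤ ((p:ℝ)^K2 * ‖(q : ℚ_[p])‖) * ‖(g : ℚ_[p])‖ := mul_le_mul_of_nonneg_right h4 h10
    _ = (p:ℝ)^K2 * (‖(q : ℚ_[p])‖ * ‖(g : ℚ_[p])‖) := by ring
    _ ≤ (p:ℝ)^K2 * (p:ℝ)^K1 := mul_le_mul_of_nonneg_left h9 (by positivity)
    _ = (p:ℝ)^(K1 + K2) := by rw [← pow_add, add_comm]

end Pool.Agent.Chain
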