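import Pool.Agent.Chain.Poly
import Pool.Agent.Chain.Assemble
import Pool.Agent.Chain.Val

/-! # From piecewise periodic expansions of several numbers to step functions. -/

open Finset

namespace Pool.Agent.Chain

open Pool.Agent.SqrtDC Pool.Agent.DigitA Pool.Agent.AlgD

lemma G_int {b q L a : ℕ} {r z : ℤ} (hb : 2 ≤ b) {S' : Finset ℕ} {m : ℕ → ℕ}
    (hm : ∀ a ∈ S', 1 ≤ m a) (ha : a ∈ S') {R : ℕ} (haR : a ≤ R) {g : ℚ}
    (hz : (b:ℚ)^a * ((b:ℚ)^(L+1) * ((b:ℚ)^(m a) - 1)) * (q * g + r) = z) :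
    ∃ z' : ℤ, (b:ℚ)^R * ((q * b^(L+1) * ∏ a ∈ S', (b^(m a) - 1) : ℕ) : ℚ) * g = z' := by
  classical
  have hcast : ∀ i ∈ S', ((b^(m i) - 1 : ℕ) : ℚ) = (b:ℚ)^(m i) - 1 := by
    intro i hi
    rw [Nat.cast_sub (Nat.one_le_pow _ _ (by omega))]
    push_cast
    rfl
  have hprod : ((∏ i ∈ S', (b^(m i) - 1) : ℕ) : ℚ) = ∏ i ∈ S', ((b:ℚ)^(m i) - 1) := by
    rw [Nat.cast_prod]
    exact Finset.prod_congr rfl hcast
  refine ⟨(b:ℤ)^(R - a) * (∏ i ∈ S'.erase a, ((b:ℤ)^(m i) - 1)) * z -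
    (b:ℤ)^R * (b:ℤ)^(L+1) * (∏ i ∈ S', ((b:ℤ)^(m i) - 1)) * r, ?_⟩
  push_cast [hprod]
  rw [← hz, ← Finset.mul_prod_erase S' _ ha]
  have h1 : (b:ℚ)^R = (b:ℚ)^(R-a) * (b:ℚ)^a := by rw [← pow_add, Nat.sub_add_cancel haR]
  rw [h1]
  ring

theorem apx_of_digits {b : ℕ} (hb : 2 ≤ b) (B : ℕ) : ∃ cE : ℕ, 1 ≤ cE ∧
    ∀ (p : ℕ) [Fact p.Prime], 3 ≤ p → ¬ p ∣ b → ∀ (r n L K t : ℕ) (e : Fin r → ℕ → ℤ)
    (ξ : Fin r → ℝ) (S : Finset ℕ), 1 ≤ n → L + 1 ≤ n → #S + 1 ≤ t →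
    (∀ i, ∀ k : ℕ, |e i k| ≤ B * ((k:ℤ)+1)^B) →
    (∀ i, HasSum (fun k => (e i k : ℝ) / (b:ℝ)^k) (ξ i)) →
    (∀ a a', a + L < a' → a' ≤ n → (∀ s ∈ S, s ≤ a ∨ a' ≤ s) → ∀ i,
      ∃ m, 1 ≤ m ∧ m ≤ L + 1 ∧ ¬ p^(K+1) ∣ m ∧ ∀ k, a ≤ k → k + m < a' → e i (k+m) = e i k) →
    ∃ (S' : Finset ℕ) (G : Fin r → ℕ → ℚ) (D : ℕ), 0 ∈ S' ∧ S' ⊆ range (n+1) ∧
      #S' ≤ 1 + r * (#S + 1) ∧ 1 ≤ D ∧ D ≤ b^(r * ((L+1)*(t+1))) ∧
      ∀ i, Apx p b n (ξ i) (G i) S' ((cE * (n+1)^B : ℕ) : ℝ) D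
        (padicValNat p (b^(p-1) - 1) + K) := by
  classical
  obtain ⟨C', hC'⟩ := fn_of_digits hb B
  obtain ⟨C'', hC''⟩ := tail_unif hb B
  refine ⟨C' + C'' + B + 1, by omega, ?_⟩
  intro p hp hp3 hpb r n L K t e ξ S hn hMn ht hbd hsum hper
  have hP1 : ¬ p^(K+1) ∣ 1 := by
    intro h
    have h1 := Nat.le_of_dvd one_pos h
    have h2 : 1 < p^(K+1) := Nat.one_lt_pow (by omega) (by omega)
    omega
  have hb0 : 0 < b := by omega
  have key : ∀ i, ∃ (S' : Finset ℕ) (m : ℕ → ℕ) (G : ℕ → ℚ), 0 ∈ S' ∧ S' ⊆ range n ∧ #S' ≤ #S + 1 ∧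
      (∀ a ∈ S', 1 ≤ m a ∧ m a ≤ L + 1 ∧ ¬ p^(K+1) ∣ m a) ∧
      (∀ R ≤ n, |(G R : ℝ) - ξ i| ≤ C' * ((n:ℝ)+1)^B / (b:ℝ)^R) ∧
      (∀ R ≤ n, ∃ a ∈ S', a ≤ R ∧
        ∃ z : ℤ, (b:ℚ)^a * ((b:ℚ)^(L+1) * ((b:ℚ)^(m a) - 1)) * (((1:ℕ):ℚ) * G R + ((0:ℤ):ℚ)) = z) ∧
      (∀ u, 1 ≤ u → u ≤ n → u ∉ S' → G u = G (u-1)) := by
    intro i
    apply hC' n 1 L 0 (e i) (ξ i) S (fun m => ¬ p^(K+1) ∣ m) hn le_rfl hP1 hMn (hbd i)
    · have := hsum i
      simpa using this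
    · intro a a' h1 h2 h3
      exact hper a a' h1 h2 h3 i
  choose S₁ m G h0 hsub hcard hm happ hint hconst using key
  obtain ⟨D, hD⟩ : ∃ D : Fin r → ℕ, D = fun i => 1 * b^(L+1) * ∏ a ∈ S₁ i, (b^(m i a) - 1) :=
    ⟨_, rfl⟩
  have hD1 : ∀ i, 1 ≤ D i := by
    intro i
    rw [hD]
    refine Nat.mul_pos (Nat.mul_pos one_pos (Nat.pow_pos (by omega))) ?_
    refine Finset.prod_pos (fun a ha => ?_)
    have : 1 < b^(m i a) := Nat.one_lt_pow (by have := (hm i a ha).1; omega) (by omega)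
    omega
  have hD2 : ∀ i, D i ≤ b^((L+1)*(t+1)) := by
    intro i
    rw [hD]
    have h2 : ∏ a ∈ S₁ i, (b^(m i a) - 1) ≤ b^((L+1)*t) := by
      calc ∏ a ∈ S₁ i, (b^(m i a) - 1) ≤ ∏ a ∈ S₁ i, b^(L+1) := by
            refine Finset.prod_le_prod' (fun a ha => ?_)
            exact (Nat.sub_le _ _).trans (Nat.pow_le_pow_right hb0 (hm i a ha).2.1)
        _ = b^((L+1)*#(S₁ i)) := by rw [Finset.prod_const, ← pow_mul]
        _ ≤ b^((L+1)*t) := Nat.pow_le_pow_right hb0 (Nat.mul_le_mul_left _ ((hcard i).trans ht))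
    calc 1 * b^(L+1) * ∏ a ∈ S₁ i, (b^(m i a) - 1) ≤ 1 * b^(L+1) * b^((L+1)*t) := by gcongr
      _ = b^((L+1)*(t+1)) := by rw [one_mul, ← pow_add]; congr 1; ring
  have hxi : ∀ i, |ξ i| ≤ C'' + B := by
    intro i
    have h1 := hC'' (ξ i) (e i) (hbd i) (hsum i) 0
    simp only [zero_add, Finset.sum_range_one, pow_zero, div_one, Nat.cast_zero, one_pow,
      mul_one] at h1
    have h2 : ((|e i 0| : ℤ) : ℝ) ≤ ((B * (((0:ℕ):ℤ)+1)^B : ℤ) : ℝ) := Int.cast_le.2 (hbd i 0)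
    push_cast at h2
    simp only [zero_add, one_pow, mul_one] at h2
    have h3 : |ξ i| ≤ |(e i 0 : ℝ) - ξ i| + |(e i 0 : ℝ)| := by
      have := abs_sub_abs_le_abs_sub (ξ i) (e i 0 : ℝ)
      rw [abs_sub_comm (ξ i)] at this
      linarith
    linarith
  refine ⟨insert 0 (univ.biUnion S₁), G, ∏ i, D i, Finset.mem_insert_self _ _, ?_, ?_, ?_, ?_, ?_⟩
  · intro s hs
    rw [Finset.mem_insert, Finset.mem_biUnion] at hs
    rw [Finset.mem_range]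
    rcases hs with h | ⟨i, _, h⟩
    · omega
    · have := Finset.mem_range.1 (hsub i h)
      omega
  · have h1 : #(univ.biUnion S₁) ≤ r * (#S + 1) := by
      have := Finset.card_biUnion_le_card_mul (univ : Finset (Fin r)) S₁ (#S + 1)
        (fun i _ => hcard i)
      rwa [Finset.card_univ, Fintype.card_fin] at this
    have h2 := Finset.card_insert_le 0 (univ.biUnion S₁)
    omega
  · have hpos : 0 < ∏ i, D i := Finset.prod_pos (fun i _ => Nat.lt_of_lt_of_le one_pos (hD1 i))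
    exact hpos
  · calc ∏ i, D i ≤ ∏ _i : Fin r, b^((L+1)*(t+1)) := Finset.prod_le_prod' (fun i _ => hD2 i)
      _ = b^(r * ((L+1)*(t+1))) := by
          rw [Finset.prod_const, Finset.card_univ, Fintype.card_fin, ← pow_mul, mul_comm]
  · intro i
    have hn1 : (1:ℝ) ≤ ((n:ℝ)+1)^B := one_le_pow₀ (by
      have : (0:ℝ) ≤ n := by positivity
      linarith)
    have hE : ((C' + C'' + B + 1 : ℕ) * (n+1)^B : ℕ) = (C' + C'' + B + 1) * (n+1)^B := rfl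
    refine ⟨Finset.mem_insert_self _ _, ?_, ?_, ?_, ?_, ?_, ?_⟩
    · push_cast
      have : (0:ℝ) ≤ (C' + C'' + B : ℝ) := by positivity
      nlinarith
    · refine (hxi i).trans ?_
      push_cast
      have : (0:ℝ) ≤ (C' : ℝ) := by positivity
      have h4 : (0:ℝ) ≤ (C'' + B : ℝ) := by positivity
      nlinarith
    · intro R hR
      refine (happ i R hR).trans ?_
      apply div_le_div_of_nonneg_right _ (by positivity)
      push_cast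
      apply mul_le_mul_of_nonneg_right _ (by positivity)
      have : (0:ℝ) ≤ (C'' + B + 1 : ℝ) := by positivity
      linarith
    · intro R hR
      obtain ⟨a, ha, haR, z, hz⟩ := hint i R hR
      obtain ⟨z', hz'⟩ := G_int hb (fun a ha => (hm i a ha).1) ha haR hz
      refine ⟨(∏ j ∈ univ.erase i, (D j : ℤ)) * z', ?_⟩
      have h1 : ((∏ j, D j : ℕ) : ℚ) = (∏ j ∈ univ.erase i, (D j : ℚ)) * (D i : ℚ) := by
        rw [Nat.cast_prod, ← Finset.mul_prod_erase univ _ (Finset.mem_univ i)]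
        ring
      have h2 : (D i : ℚ) = ((1 * b^(L+1) * ∏ a ∈ S₁ i, (b^(m i a) - 1) : ℕ) : ℚ) := by rw [hD]
      rw [h1, h2]
      push_cast
      push_cast at hz'
      rw [← hz']
      ring
    · intro u hu hun huS
      apply hconst i u hu hun
      intro h
      apply huS
      rw [Finset.mem_insert, Finset.mem_biUnion]
      exact Or.inr ⟨i, Finset.mem_univ i, h⟩
    · intro R hR
      obtain ⟨a, ha, haR, z, hz⟩ := hint i R hR
      have h1 := norm_G (p := p) (K1 := padicValNat p (b^(p-1) - 1) + K) (K2 := 0)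
        (q := 1) hb hpb (hm i a ha).1 le_rfl (by
          intro j hj
          have h1 := pow_dvd_bm hb hp3 hpb (hm i a ha).1 hj
          have h2 := val_le (p := p) (by have := (hm i a ha).1; omega) (hm i a ha).2.2
          omega) (by
          intro j hj
          have h1 := pow_dvd_log (p := p) one_ne_zero hj
          simpa using h1) L hz
      simpa using h1

end Pool.Agent.Chain
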