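import Pool.Agent.Chain.Params2
import Pool.Agent.Chain.Blocks
import Pool.Agent.AlgD.Cover

/-! # Numbers with piecewise periodic expansions and algebraic numbers. -/

open Finset Filter Polynomial

namespace Pool.Agent.Chain

open Pool.Agent.SqrtDC Pool.Agent.AlgD

theorem ring_pieces {b : ℕ} (hb : 2 ≤ b) {α : ℝ} (hα : IsAlgebraic ℚ α) (hirr : Irrational α)
    (r D₀ B A N₀ : ℕ) (δ : ℝ) (hδ : 0 < δ) :
    ∃ p : ℕ, p.Prime ∧ N₀ < p ∧ ∃ C : ℝ, ∀ᶠ n : ℕ in atTop, ∀ L K : ℕ,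
      ((L:ℝ)+1) * Real.exp ((Real.log n)^δ + C * K * Real.log (Real.log n)) ≤ n →
      ∀ (q : ℕ) (Q : MvPolynomial (Fin r) ℤ) (ξ : Fin r → ℝ) (e : Fin r → ℕ → ℤ),
      1 ≤ q → q ≤ B * b^L → ¬ p^(K+1) ∣ q →
      Q.totalDegree ≤ D₀ → (∀ s, |Q.coeff s| ≤ B * (b:ℤ)^L) →
      MvPolynomial.aeval ξ Q = q * α →
      (∀ i, ∀ k : ℕ, |e i k| ≤ B * ((k:ℤ)+1)^B) →
      (∀ i, HasSum (fun k => (e i k : ℝ) / (b:ℝ)^k) (ξ i)) →
      ∀ S : Finset ℕ, (#S : ℝ) ≤ (Real.log n)^A →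
      ∃ a a' : ℕ, a + L < a' ∧ a' ≤ n ∧ (∀ s ∈ S, s ≤ a ∨ a' ≤ s) ∧
        ∃ i, ∀ m : ℕ, 1 ≤ m → m ≤ L + 1 → ¬ p^(K+1) ∣ m →
          ∃ k, a ≤ k ∧ k + m < a' ∧ e i (k+m) ≠ e i k := by
  classical
  obtain ⟨K1, hK1⟩ := Pool.Agent.DigitG.choose_y δ hδ
  obtain ⟨A1, hA1⟩ : ∃ A1, A1 = (K1*A + 2)*(D₀+1) := ⟨_, rfl⟩
  obtain ⟨P, hPirr, hPdeg, hPα⟩ := int_poly hα hirr
  obtain ⟨d, hd⟩ : ∃ d, d = P.natDegree := ⟨_, rfl⟩
  obtain ⟨C₀, hC₀⟩ := exK_of_fn b hb P (by omega) α hPα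
  obtain ⟨cE, hcE1, hcE⟩ := apx_of_digits hb B
  -- the prime
  obtain ⟨p, hp, hpM, hplc, hproot, i₀, hi₀, hPq⟩ :=
    root_free P hPirr hPdeg (2^(d*(d*(4*A1))) + b + 3 + d + N₀)
  have hMp : 1 ≤ 2^(d*(d*(4*A1))) := Nat.one_le_two_pow
  obtain ⟨Q0, hQ0⟩ : ∃ Q0, Q0 = p^i₀ := ⟨_, rfl⟩
  have hpb : ¬ p ∣ b := fun h => by
    have := Nat.le_of_dvd (by omega) h
    omega
  have hpp : 1 ≤ p := hp.out.one_le
  obtain ⟨m₁, y₀, hmain⟩ := chain_padic (p := p) A1 P d hd.symm (by omega) (by omega) hplc hproot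
    (by omega) (by omega) Q0 i₀ hQ0 hi₀ (by rw [hQ0]; exact hPq)
  have hQ02 : 2 ≤ Q0 := by
    rw [hQ0]
    calc 2 ≤ p := by omega
      _ ≤ p^i₀ := Nat.le_self_pow (by omega) p
  obtain ⟨K', hK'⟩ : ∃ K', K' = (A1+1)*(m₁+10+d) + 1 := ⟨_, rfl⟩
  obtain ⟨c3, hc3⟩ : ∃ c3, c3 = K1 + A1 + 4 + A1*Q0 := ⟨_, rfl⟩
  obtain ⟨c4, hc4⟩ : ∃ c4, c4 = (A1+1)*(p+1)+1 := ⟨_, rfl⟩
  obtain ⟨cp, hcp⟩ : ∃ cp, cp = padicValNat p (b^(p-1) - 1) := ⟨_, rfl⟩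
  obtain ⟨Cw, hCw⟩ : ∃ Cw, Cw = 28*(A1+1)^2 + (c3 + Q0*K') + 1 := ⟨_, rfl⟩
  obtain ⟨y₁, hy₁⟩ := Pool.Agent.DigitG.log_sq_small Cw
  obtain ⟨c6, hc6⟩ : ∃ c6, c6 = (D₀+1)^r * (B+1) * ((b+2) * cE)^D₀ * (B+1) := ⟨_, rfl⟩
  obtain ⟨c7, hc7⟩ : ∃ c7, c7 = 1 + (B+1)*D₀ := ⟨_, rfl⟩
  obtain ⟨c5, hc5⟩ : ∃ c5, c5 = C₀*c6^d := ⟨_, rfl⟩
  obtain ⟨c8, hc8⟩ : ∃ c8, c8 = d*(r*D₀+2) := ⟨_, rfl⟩
  obtain ⟨Y, hY⟩ : ∃ Y, Y = y₀ + y₁ + 512 + 100*d*(m₁+2)^2 + 8*p^2*d +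
    (c5 + 2*(c7*d) + c8) + (1 + c4*cp*D₀) + 4*(r+1) := ⟨_, rfl⟩
  obtain ⟨C, hC0, hreal⟩ := real_fin3 hδ c4 cp D₀
  refine ⟨p, hp.out, by omega, C, ?_⟩
  filter_upwards [hK1 Y, eventually_ge_atTop 1, hreal] with n hn hn1 hfinal
  obtain ⟨y, hyY, hylog, hyn, hyL⟩ := hn
  obtain ⟨hloglog, hfinal⟩ := hfinal
  intro L K hL q Q ξ e hq hqB hqp hQdeg hQco hval hbd hsum S hS
  by_contra hcon
  push Not at hcon
  have hn0r : (0:ℝ) < n := by exact_mod_cast hn1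
  -- `L + 1 ≤ n`
  have hLn : L + 1 ≤ n := by
    have h1 : ((L + 1 : ℕ) : ℝ) ≤ n := by
      refine le_trans ?_ hL
      push_cast
      apply le_mul_of_one_le_right (by positivity)
      apply Real.one_le_exp
      have hx0 : (0:ℝ) ≤ (Real.log n)^δ := Real.rpow_nonneg (Real.log_natCast_nonneg _) _
      have h3 : 0 ≤ C * K * Real.log (Real.log n) := by positivity
      linarith
    exact_mod_cast h1
  -- numerical facts
  have hy512 : 512 ≤ y := by omega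
  have hym : 100*d*(m₁+2)^2 ≤ y := by omega
  have hy8 : 8*p^2*d ≤ y := by omega
  have hyc : c5 + 2*(c7*d) + c8 ≤ y := by omega
  have hyr : 4*(r+1) ≤ y := by omega
  have hyp : 0 < y := by omega
  have hn0 : n ≠ 0 := by omega
  obtain ⟨Ln, hLn'⟩ : ∃ Ln, Ln = Nat.log 2 n := ⟨_, rfl⟩
  have hn2 : n < 2^(Ln+1) := by rw [hLn']; exact Nat.lt_pow_succ_log_self (by norm_num) n
  have hLn1 : Ln ≤ y^(K1+1) := by
    have h1 : (Ln : ℝ) * Real.log 2 ≤ Real.log n := by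
      rw [← Real.log_pow]
      apply Real.log_le_log (by positivity)
      have := Nat.pow_log_le_self 2 hn0
      rw [← hLn'] at this
      exact_mod_cast this
    have h2 : (1/2:ℝ) ≤ Real.log 2 := by
      have := Real.log_two_gt_d9
      linarith
    have h3 : (Ln:ℝ) ≤ 2 * (y:ℝ)^K1 := by
      have : (0:ℝ) ≤ Ln := by positivity
      nlinarith
    have h4 : (2:ℝ) * (y:ℝ)^K1 ≤ (y:ℝ)^(K1+1) := by
      rw [pow_succ, mul_comm]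
      have : (2:ℝ) ≤ y := by exact_mod_cast (by omega : 2 ≤ y)
      gcongr
    have h5 : (Ln:ℝ) ≤ ((y^(K1+1) : ℕ) : ℝ) := by push_cast; linarith
    exact_mod_cast h5
  obtain ⟨t, ht⟩ : ∃ t, t = y^A1 := ⟨_, rfl⟩
  have hSy : #S ≤ y^(K1*A) := by
    have h1 : (#S : ℝ) ≤ ((y^(K1*A) : ℕ) : ℝ) := by
      refine hS.trans ?_
      push_cast
      rw [pow_mul]
      apply pow_le_pow_left₀ _ hylog
      exact Real.log_natCast_nonneg _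
    exact_mod_cast h1
  have h1y : 1 ≤ y^(K1*A) := Nat.one_le_pow _ _ hyp
  have ht1 : 1 ≤ t := by rw [ht]; exact Nat.one_le_pow _ _ hyp
  -- `1 + r (#S + 1) ≤ y^(K1 A + 1)`
  have hcount : 1 + r * (#S + 1) ≤ y^(K1*A+1) := by
    calc 1 + r * (#S + 1) ≤ 1 * y^(K1*A) + r * (y^(K1*A) + y^(K1*A)) := by
          rw [one_mul]
          gcongr
      _ = (1 + 2*r) * y^(K1*A) := by ring
      _ ≤ y * y^(K1*A) := Nat.mul_le_mul_right _ (by omega)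
      _ = y^(K1*A+1) := by ring
  have hSt : #S + 1 ≤ t := by
    calc #S + 1 ≤ y^(K1*A) + y^(K1*A) := by omega
      _ = 2 * y^(K1*A) := by ring
      _ ≤ y * y^(K1*A) := Nat.mul_le_mul_right _ (by omega)
      _ = y^(K1*A+1) := by ring
      _ ≤ y^A1 := by
          apply Nat.pow_le_pow_right hyp
          rw [hA1]
          nlinarith [Nat.zero_le (K1*A*D₀)]
      _ = t := ht.symm
  have htya : t < y^(A1+1) := by
    rw [ht]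
    exact Nat.pow_lt_pow_right (by omega) (by omega)
  obtain ⟨w, hw⟩ : ∃ w, w = Nat.log 2 y + 1 := ⟨_, rfl⟩
  have hw1 : 1 ≤ w := by omega
  have hyw : y ≤ 2^w := by
    rw [hw]
    exact (Nat.lt_pow_succ_log_self (by norm_num) y).le
  have hCww : Cw * w^2 ≤ y := by
    rw [hw]
    exact hy₁ y (by omega)
  have hww : w ≤ w^2 := Nat.le_self_pow (by norm_num) w
  have hwy : w ≤ y := by
    calc w ≤ w^2 := hww
      _ ≤ Cw * w^2 := Nat.le_mul_of_pos_left _ (by omega)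
      _ ≤ y := hCww
  obtain ⟨l, hl⟩ : ∃ l, l = A1*w + 1 := ⟨_, rfl⟩
  have htl : t < 2^l := by
    have h1 : y^A1 ≤ 2^(A1*w) := by
      calc y^A1 ≤ (2^w)^A1 := Nat.pow_le_pow_left hyw _
        _ = 2^(A1*w) := by rw [← pow_mul]; congr 1; ring
    have h2 : 2^(A1*w) < 2^l := Nat.pow_lt_pow_right (by norm_num) (by omega)
    omega
  have hl28 : 28*l^2 ≤ y := by
    have h1 : l ≤ (A1+1)*w := by
      rw [hl, add_mul, one_mul]
      omega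
    have h2 : l^2 ≤ ((A1+1)*w)^2 := Nat.pow_le_pow_left h1 2
    have h3 : 28*(A1+1)^2 * w^2 ≤ Cw * w^2 := Nat.mul_le_mul_right _ (by omega)
    have h4 : 28 * ((A1+1)*w)^2 = 28*(A1+1)^2 * w^2 := by ring
    omega
  have hc3w : (c3 + Q0*K')*w ≤ y := by
    calc (c3 + Q0*K')*w ≤ Cw * w^2 := Nat.mul_le_mul (by omega) hww
      _ ≤ y := hCww
  -- the step functions
  obtain ⟨S', G, D, h0S', hS'n, hcardS', hD1, hDle, hG⟩ :=
    hcE p (by omega) hpb r n L K t e ξ S hn1 hLn hSt hbd hsum (by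
      intro a a' h1 h2 h3 i
      exact hcon a a' h1 h2 h3 i)
  rw [← hcp] at hG
  have hS'card : #S' ≤ n + 1 := by
    have := Finset.card_le_card hS'n
    rwa [Finset.card_range] at this
  have hE1 : (1:ℝ) ≤ ((cE * (n+1)^B : ℕ) : ℝ) := by
    exact_mod_cast Nat.mul_pos hcE1 (Nat.pow_pos (Nat.succ_pos n))
  have hKq : 1 ≤ (p:ℝ)^K * ‖(q : ℚ_[p])‖ := by
    apply norm_nat_ge (by omega)
    intro j hj
    by_contra hcon'
    push Not at hcon'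
    exact hqp ((pow_dvd_pow p hcon').trans hj)
  obtain ⟨F, hFapp, hFint, hFconst, hFnorm⟩ := Apx.poly (p := p) (H := ((B * b^L : ℕ) : ℝ))
    (t := n + 1) (D₀ := D₀) (q := q)
    (K₂ := K) (α := α) hb h0S' hS'card hG hE1 Q hQdeg (by
      intro s
      have h1 : (((|Q.coeff s| : ℤ)) : ℝ) ≤ (((B * (b:ℤ)^L : ℤ)) : ℝ) := Int.cast_le.2 (hQco s)
      push_cast at h1 ⊢
      exact h1) hq hval hKq
  -- the final step function
  obtain ⟨Ef, hEf⟩ : ∃ Ef : ℕ, Ef = (D₀+1)^r * ((B+1) * b^L) *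
    ((b+2) * (n+1) * (cE * (n+1)^B))^D₀ := ⟨_, rfl⟩
  have hEf1 : 1 ≤ Ef := by
    rw [hEf]
    refine Nat.mul_pos (Nat.mul_pos (Nat.pow_pos (Nat.succ_pos _)) (Nat.mul_pos (Nat.succ_pos _)
      (Nat.pow_pos (by omega)))) (Nat.pow_pos ?_)
    exact Nat.mul_pos (Nat.mul_pos (by omega) (by omega))
      (Nat.mul_pos hcE1 (Nat.pow_pos (Nat.succ_pos _)))
  obtain ⟨Df, hDf⟩ : ∃ Df, Df = q * D^D₀ := ⟨_, rfl⟩
  have hDf1 : 1 ≤ Df := by rw [hDf]; exact Nat.mul_pos hq (Nat.pow_pos hD1)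
  obtain ⟨Sf, hSf⟩ : ∃ Sf, Sf = (ss S' D₀).filter (fun s => s ≤ n) := ⟨_, rfl⟩
  have h0Sf : 0 ∈ Sf := by
    rw [hSf, Finset.mem_filter]
    exact ⟨ss_le _ h0S' (Nat.zero_le _) (by simp [ss]), Nat.zero_le _⟩
  have hSfn : Sf ⊆ range (n+1) := by
    intro s hs
    rw [hSf, Finset.mem_filter] at hs
    rw [Finset.mem_range]
    omega
  have hSfcard : #Sf ≤ t := by
    rw [hSf]
    refine (Finset.card_filter_le _ _).trans ((ss_card _ _).trans ?_)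
    calc (#S')^D₀ ≤ (y^(K1*A+1))^D₀ := Nat.pow_le_pow_left (hcardS'.trans hcount) _
      _ = y^((K1*A+1)*D₀) := by rw [← pow_mul]
      _ ≤ y^A1 := by
          apply Nat.pow_le_pow_right hyp
          rw [hA1]
          exact Nat.mul_le_mul (by omega) (by omega)
      _ = t := ht.symm
  obtain ⟨X, hX⟩ : ∃ X, X = (r*D₀+2) * ((L+1)*(t+1)) := ⟨_, rfl⟩
  have hW : (n+1) * Ef * Df ≤ c6 * (n+1)^c7 * b^X := by
    have hb0 : 0 < b := by omega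
    have h1 : Df ≤ (B+1) * b^(L + D₀*(r*((L+1)*(t+1)))) := by
      have h2 : q ≤ (B+1) * b^L := hqB.trans (Nat.mul_le_mul_right _ (by omega))
      have h3 : D^D₀ ≤ b^(D₀*(r*((L+1)*(t+1)))) := by
        calc D^D₀ ≤ (b^(r*((L+1)*(t+1))))^D₀ := Nat.pow_le_pow_left hDle _
          _ = b^(D₀*(r*((L+1)*(t+1)))) := by rw [← pow_mul, mul_comm D₀]
      rw [hDf, pow_add, ← mul_assoc]
      exact Nat.mul_le_mul h2 h3
    have h4 : L + (L + D₀*(r*((L+1)*(t+1)))) ≤ X := by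
      rw [hX]
      have h6 : L + 1 ≤ (L+1)*(t+1) := Nat.le_mul_of_pos_right _ (by omega)
      have h8 : (r*D₀+2) * ((L+1)*(t+1)) =
        D₀*(r*((L+1)*(t+1))) + 2*((L+1)*(t+1)) := by ring
      omega
    calc (n+1) * Ef * Df ≤ (n+1) * Ef * ((B+1) * b^(L + D₀*(r*((L+1)*(t+1))))) :=
          Nat.mul_le_mul_left _ h1
      _ = c6 * (n+1)^c7 * b^(L + (L + D₀*(r*((L+1)*(t+1))))) := by
          rw [hEf, hc6, hc7, pow_add b L (L + _), pow_add (n+1) 1, pow_mul (n+1) (B+1), pow_one]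
          have e1 : (b+2) * (n+1) * (cE * (n+1)^B) = ((b+2) * cE) * (n+1)^(B+1) := by ring
          rw [e1, mul_pow]
          ring
      _ ≤ c6 * (n+1)^c7 * b^X := Nat.mul_le_mul_left _ (Nat.pow_le_pow_right hb0 h4)
  obtain ⟨Λ, hΛ⟩ : ∃ Λ, Λ = c5 + (Ln+1)*(c7*d) + c8*((L+1)*(t+1)) := ⟨_, rfl⟩
  have hΛ' : Λ = C₀*c6^d + (Ln+1)*(c7*d) + d*X := by
    rw [hΛ, hc5, hc8, hX]
    ring
  have hΛ1 : 1 ≤ Λ := by
    rw [hΛ]
    have h1 : 1 ≤ c8 := by rw [hc8]; exact Nat.mul_pos (by omega) (by omega)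
    have : 1 ≤ c8 * ((L+1)*(t+1)) := Nat.mul_pos h1 (Nat.mul_pos (by omega) (by omega))
    omega
  have hΛle : Λ ≤ (L+1)*1*y^(K1+A1+3) := by
    rw [hΛ]
    exact Lam_le3 ht (by omega) hLn1 hyc
  have hprec : C₀ * ((n+1) * Ef * Df)^P.natDegree < b^Λ := by
    rw [← hd, hΛ']
    exact prec2 hb hn2 hW
  have hXX := hC₀ p Ef Df n Λ Sf F h0Sf hSfn hEf1 hDf1
    (by
      intro R hR
      refine (hFapp R hR).trans ?_
      apply div_le_div_of_nonneg_right _ (by positivity)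
      rw [hEf]
      push_cast
      gcongr
      linarith)
    (by
      intro R hR
      rw [hDf]
      exact hFint R hR)
    (by
      intro u hu hun huS
      apply hFconst u hu hun
      intro h
      apply huS
      rw [hSf, Finset.mem_filter]
      exact ⟨h, hun⟩) hprec
  rw [← hd] at hXX
  obtain ⟨k, hk⟩ : ∃ k, k = (cp + K)*D₀ + K := ⟨_, rfl⟩
  rw [← hk] at hFnorm
  have hfin := hfinal L K y w (by omega) hyL hw hwy hL
  rw [← hk] at hfin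
  obtain ⟨β, hβ⟩ : ∃ β, β = K'*w := ⟨_, rfl⟩
  have htot := total_le (K' := K') (β := β) (t := t) (Λ := Λ) (c3 := c3) (c4 := c4) hpp
    (by omega : 1 ≤ d) le_rfl ht (by omega) hy8
    hΛ1 hΛle hQ02 hβ hyw hc3 hc4 hc3w hfin
  obtain ⟨ρ, hρ⟩ : ∃ ρ, ρ = 12*(Λ * (Gam p d t)^k * t^Q0 + 1) := ⟨_, rfl⟩
  rw [← hρ] at htot
  have hp2k : 0 < (2*p)^k := Nat.pow_pos (by omega)
  have hB1 : 100 * d * (m₁+2)^2 * (t+1)^(m₁+10+d) ≤ Q0^β := by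
    have h1 : t + 1 ≤ y^(A1+1) := by
      have h2 : y^(A1+1) = y * y^A1 := by rw [pow_succ]; ring
      have h3 : 512 * y^A1 ≤ y * y^A1 := Nat.mul_le_mul_right _ hy512
      omega
    have h2 : (t+1)^(m₁+10+d) ≤ y^((A1+1)*(m₁+10+d)) := by
      rw [pow_mul]
      exact Nat.pow_le_pow_left h1 _
    calc 100 * d * (m₁+2)^2 * (t+1)^(m₁+10+d)
        ≤ y * y^((A1+1)*(m₁+10+d)) := Nat.mul_le_mul hym h2
      _ = y^K' := by rw [hK', pow_succ]; ring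
      _ ≤ (2^w)^K' := Nat.pow_le_pow_left hyw K'
      _ = 2^β := by rw [← pow_mul, hβ]; congr 1; ring
      _ ≤ Q0^β := Nat.pow_le_pow_left hQ02 β
  refine hmain y (by omega) l t n Λ ρ β k Sf _ hXX hSfcard ?_ hΛ1 ?_ htya htl hl28 (by omega) hB1 ?_
  · intro u hu
    exact norm_dG hFnorm u (by have := Finset.mem_range.1 (hSfn hu); omega)
  · -- `Λ Γ^k (2p)^k ≤ n`
    refine le_trans ?_ htot
    have h1 : Λ * (Gam p d t)^k ≤ ρ := by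
      rw [hρ]
      have h2 : Λ * (Gam p d t)^k ≤ Λ * (Gam p d t)^k * t^Q0 :=
        Nat.le_mul_of_pos_right _ (Nat.pow_pos ht1)
      omega
    have h2 : 1 ≤ (Q0^β)^(y^8) := Nat.pow_pos (Nat.pow_pos (by omega))
    calc Λ * (Gam p d t)^k * (2*p)^k ≤ ρ * (2*p)^k := Nat.mul_le_mul_right _ h1
      _ ≤ ρ * (Q0^β)^(y^8) * (2*p)^k := Nat.mul_le_mul_right _ (Nat.le_mul_of_pos_right _ h2)
  · rw [Nat.le_div_iff_mul_le hp2k]
    exact htot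

end Pool.Agent.Chain
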