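import Mathlib
import Pool.Agent.Chain.Ring

/-! `AlgebraicDigits` (linear patterns) follows from `ring_pieces` (piecewise periodic expansions). -/

open Finset Filter

namespace Pool.Agent.Chain

/-- shifted expansions -/
lemma hasSum_shift {b : ℕ} (hb : 2 ≤ b) {e : ℕ → ℤ} {ξ : ℝ}
    (hs : HasSum (fun k => (e k : ℝ) / (b:ℝ)^k) ξ) (j : ℕ) :
    HasSum (fun k => (e (k+j) : ℝ) / (b:ℝ)^k)
      ((b:ℝ)^j * ξ - ((∑ k ∈ range j, e k * (b:ℤ)^(j-k) : ℤ) : ℝ)) := by
  have hb0 : (b:ℝ) ≠ 0 := by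
    have : (0:ℝ) < b := by exact_mod_cast (by omega : 0 < b)
    exact this.ne'
  have h1 := ((hasSum_nat_add_iff' j).mpr hs).mul_left ((b:ℝ)^j)
  have h2 : (b:ℝ)^j * (ξ - ∑ k ∈ range j, (e k : ℝ) / (b:ℝ)^k)
      = (b:ℝ)^j * ξ - ((∑ k ∈ range j, e k * (b:ℤ)^(j-k) : ℤ) : ℝ) := by
    rw [mul_sub]
    congr 1
    rw [mul_sum]
    push_cast
    refine sum_congr rfl (fun k hk => ?_)
    have hkj : k ≤ j := (mem_range.mp hk).le
    have : (b:ℝ)^j = (b:ℝ)^(j-k) * (b:ℝ)^k := by rw [← pow_add]; congr 1; omega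
    rw [this]
    field_simp
  rw [h2] at h1
  refine h1.congr_fun ?_ |> fun h => h
  intro k
  rw [pow_add]
  field_simp

/-- integer polynomial in the transformed variables -/
lemma poly_transform {r : ℕ} (ξ : Fin r → ℝ) (γ ρ : Fin r → ℤ) (Q : MvPolynomial (Fin r) ℤ) :
    ∃ (N : ℕ) (Q' : MvPolynomial (Fin r) ℤ),
      MvPolynomial.aeval (fun i => (γ i : ℝ) * ξ i - ρ i) Q'
        = ((∏ i, γ i : ℤ) : ℝ)^N * MvPolynomial.aeval ξ Q := by
  have hC : ∀ z : ℤ, MvPolynomial.aeval (fun i => (γ i : ℝ) * ξ i - ρ i) (MvPolynomial.C z : MvPolynomial (Fin r) ℤ)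
      = (z:ℝ) := fun z => by rw [MvPolynomial.aeval_C]; simp
  induction Q using MvPolynomial.induction_on with
  | C a => exact ⟨0, MvPolynomial.C a, by simp⟩
  | add P Q hP hQ =>
    obtain ⟨N, P', hP'⟩ := hP
    obtain ⟨M, Q', hQ'⟩ := hQ
    refine ⟨N + M, MvPolynomial.C ((∏ i, γ i)^M) * P' + MvPolynomial.C ((∏ i, γ i)^N) * Q', ?_⟩
    rw [map_add, map_mul, map_mul, hP', hQ', map_add, hC, hC, Int.cast_pow, Int.cast_pow]
    ring
  | mul_X P i hP =>
    obtain ⟨N, P', hP'⟩ := hP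
    refine ⟨N + 1, P' * (MvPolynomial.C (∏ j ∈ univ.erase i, γ j) *
      (MvPolynomial.X i + MvPolynomial.C (ρ i))), ?_⟩
    rw [map_mul, hP', map_mul, map_mul, map_add, hC, hC, MvPolynomial.aeval_X, MvPolynomial.aeval_X]
    have h1 : (∏ j, γ j : ℤ) = γ i * ∏ j ∈ univ.erase i, γ j := by
      rw [mul_prod_erase univ γ (mem_univ i)]
    have h2 : ((∏ j, γ j : ℤ) : ℝ) = (γ i : ℝ) * ((∏ j ∈ univ.erase i, γ j : ℤ) : ℝ) := by
      rw [h1]; push_cast; ring
    rw [pow_succ, h2]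
    ring

/-- The conclusion of `AlgebraicDigits` from `ring_pieces` (with `K = 0` and the period `m = 1`). -/
theorem ring_pattern_of_pieces {b : ℕ} (hb : 2 ≤ b) {r : ℕ} (ξ : Fin r → ℝ) (Q : MvPolynomial (Fin r) ℤ)
    (hα : IsAlgebraic ℚ (MvPolynomial.aeval ξ Q)) (hirr : Irrational (MvPolynomial.aeval ξ Q))
    {B : ℕ} (e : Fin r → ℕ → ℤ) (he : ∀ i, ∀ k : ℕ, |e i k| ≤ B * ((k:ℤ)+1)^B)
    (hs : ∀ i, HasSum (fun k => (e i k : ℝ) / (b:ℝ)^k) (ξ i))
    (l : ℕ) (c : Fin r → ℕ → ℤ) (c' : Fin r → ℤ)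
    (hc : ∀ i, ∑ j ∈ range (l+1), c i j * (b:ℤ)^j ≠ 0) (A : ℕ) (δ : ℝ) (hδ : 0 < δ) :
    ∀ᶠ n : ℕ in Filter.atTop, ∀ L : ℕ, (L : ℝ) * Real.exp ((Real.log n)^δ) ≤ n →
      ∀ S : Finset ℕ, (S.card : ℝ) ≤ (Real.log n)^A →
      ∃ k : ℕ, 1 ≤ k ∧ k ≤ n ∧ (∃ i, ∑ j ∈ range (l+1), c i j * e i (k+j) ≠ c' i) ∧
        ∀ s ∈ S, k < s ∨ s + L < k := by
  set γ : Fin r → ℤ := fun i => ∑ j ∈ range (l+1), c i j * (b:ℤ)^j with hγ
  set ρ : Fin r → ℤ := fun i => ∑ j ∈ range (l+1), c i j * ∑ k ∈ range j, e i k * (b:ℤ)^(j-k) with hρ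
  obtain ⟨N, Q', hQ'⟩ := poly_transform ξ γ ρ Q
  set Γ : ℤ := ∏ i, γ i with hΓ
  have hΓ0 : Γ ≠ 0 := prod_ne_zero_iff.mpr (fun i _ => hc i)
  set e' : Fin r → ℕ → ℤ := fun i k => ∑ j ∈ range (l+1), c i j * e i (k+j) with he'
  set Q'' : MvPolynomial (Fin r) ℤ := MvPolynomial.C (Γ^N) * Q' with hQ''
  set q : ℕ := (Γ^N).natAbs^2 with hq
  -- a common bound
  obtain ⟨M, hM⟩ : ∃ M : ℕ, ∀ s, |Q''.coeff s| ≤ M := by
    refine ⟨∑ s ∈ Q''.support, (Q''.coeff s).natAbs, fun s => ?_⟩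
    by_cases h : s ∈ Q''.support
    · have := single_le_sum (f := fun s => (Q''.coeff s).natAbs) (fun _ _ => Nat.zero_le _) h
      have h2 : ((Q''.coeff s).natAbs : ℤ) ≤ ((∑ s ∈ Q''.support, (Q''.coeff s).natAbs : ℕ) : ℤ) := by
        exact_mod_cast this
      rwa [Int.natCast_natAbs] at h2
    · rw [MvPolynomial.notMem_support_iff.mp h, abs_zero]
      positivity
  set E : ℕ := (∑ i, ∑ j ∈ range (l+1), (c i j).natAbs) * B * (l+1)^B with hE
  set B' : ℕ := M + q + E + B with hB'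
  have he'B : ∀ i, ∀ k : ℕ, |e' i k| ≤ B' * ((k:ℤ)+1)^B' := by
    intro i k
    calc |e' i k| ≤ ∑ j ∈ range (l+1), |c i j * e i (k+j)| := abs_sum_le_sum_abs _ _
      _ ≤ ∑ j ∈ range (l+1), |c i j| * (B * (((l:ℤ)+1)^B * ((k:ℤ)+1)^B)) := by
          refine sum_le_sum (fun j hj => ?_)
          rw [abs_mul]
          refine mul_le_mul_of_nonneg_left ((he i (k+j)).trans ?_) (abs_nonneg _)
          have hjl : (j:ℤ) ≤ l := by have := mem_range.mp hj; omega
          rw [← mul_pow]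
          refine mul_le_mul_of_nonneg_left (pow_le_pow_left₀ (by positivity) ?_ _) (by positivity)
          push_cast
          nlinarith [mul_nonneg (Int.natCast_nonneg l) (Int.natCast_nonneg k)]
      _ = (∑ j ∈ range (l+1), |c i j|) * B * ((l:ℤ)+1)^B * ((k:ℤ)+1)^B := by
          rw [← sum_mul]; ring
      _ ≤ (E:ℤ) * ((k:ℤ)+1)^B := by
          refine mul_le_mul_of_nonneg_right ?_ (by positivity)
          rw [hE]
          push_cast
          refine mul_le_mul_of_nonneg_right (mul_le_mul_of_nonneg_right ?_ (by positivity)) (by positivity)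
          have := single_le_sum (f := fun i => ∑ j ∈ range (l+1), |c i j|)
            (fun i _ => sum_nonneg (fun _ _ => abs_nonneg _)) (mem_univ i)
          exact this
      _ ≤ B' * ((k:ℤ)+1)^B' := by
          refine mul_le_mul ?_ (pow_le_pow_right₀ (by linarith [Int.natCast_nonneg k]) ?_)
            (by positivity) (by positivity)
          · rw [hB']; push_cast; nlinarith [Int.natCast_nonneg M, Int.natCast_nonneg q, Int.natCast_nonneg B]
          · rw [hB']; omega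
  have hs' : ∀ i, HasSum (fun k => (e' i k : ℝ) / (b:ℝ)^k) ((γ i : ℝ) * ξ i - ρ i) := by
    intro i
    have h1 := hasSum_sum (s := range (l+1)) (fun j _ => (hasSum_shift hb (hs i) j).mul_left (c i j : ℝ))
    have hf : (fun k => (e' i k : ℝ) / (b:ℝ)^k)
        = fun k => ∑ j ∈ range (l+1), (c i j : ℝ) * ((e i (k+j) : ℝ) / (b:ℝ)^k) := by
      funext k
      rw [he']
      push_cast
      rw [sum_div]
      exact sum_congr rfl (fun j _ => by ring)
    have hv : (γ i : ℝ) * ξ i - ρ i = ∑ j ∈ range (l+1), (c i j : ℝ) *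
        ((b:ℝ)^j * ξ i - ((∑ k ∈ range j, e i k * (b:ℤ)^(j-k) : ℤ) : ℝ)) := by
      have h2 : (γ i : ℝ) = ∑ j ∈ range (l+1), (c i j : ℝ) * (b:ℝ)^j := by
        rw [hγ]; push_cast; rfl
      have h3 : (ρ i : ℝ) = ∑ j ∈ range (l+1), (c i j : ℝ) *
          ((∑ k ∈ range j, e i k * (b:ℤ)^(j-k) : ℤ) : ℝ) := by
        rw [hρ]; push_cast; rfl
      rw [h2, h3, sum_mul, ← sum_sub_distrib]
      exact sum_congr rfl (fun j _ => by ring)
    rw [hf, hv]
    exact h1
  have hval : MvPolynomial.aeval (fun i => (γ i : ℝ) * ξ i - ρ i) Q'' = q * MvPolynomial.aeval ξ Q := by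
    rw [hQ'', map_mul, hQ', MvPolynomial.aeval_C, hq]
    have : (((Γ^N).natAbs^2 : ℕ) : ℝ) = ((Γ:ℝ)^N)^2 := by
      have h1 : (((Γ^N).natAbs^2 : ℕ) : ℤ) = (Γ^N)^2 := by
        push_cast
        exact sq_abs _
      have h2 : ((((Γ^N).natAbs^2 : ℕ) : ℤ) : ℝ) = (((Γ^N)^2 : ℤ) : ℝ) := by rw [h1]
      rw [Int.cast_natCast] at h2
      rw [h2, Int.cast_pow, Int.cast_pow]
    rw [this]
    simp
    ring
  have hq1 : 1 ≤ q := by
    rw [hq]
    exact Nat.one_le_pow _ _ (Int.natAbs_pos.mpr (pow_ne_zero _ hΓ0))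
  have hδ' : 0 < min δ 1 / 2 := by positivity
  obtain ⟨p, hp, hpN, C, hC⟩ := ring_pieces hb hα hirr r Q''.totalDegree B' (A+1) q (min δ 1 / 2) hδ'
  have hlog : Filter.Tendsto (fun n : ℕ => Real.log (n:ℝ)) Filter.atTop Filter.atTop :=
    Real.tendsto_log_atTop.comp tendsto_natCast_atTop_atTop
  have hpow : Filter.Tendsto (fun n : ℕ => (Real.log (n:ℝ))^(min δ 1 / 2)) Filter.atTop Filter.atTop :=
    (tendsto_rpow_atTop hδ').comp hlog
  filter_upwards [hC, hlog.eventually_ge_atTop 4, hpow.eventually_ge_atTop 4,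
    Filter.eventually_ge_atTop 1] with n hn hn1 hn2 hn3
  intro L hL S hS
  by_contra hcon
  push Not at hcon
  set x : ℝ := Real.log n with hx
  have hx1 : 1 ≤ x := by linarith
  have hn0 : (0:ℝ) < n := by exact_mod_cast hn3
  have hexpx : Real.exp x = n := Real.exp_log hn0
  -- the length condition
  have hcond : (((L+1 : ℕ):ℝ)+1) * Real.exp (x^(min δ 1 / 2) + C * (0:ℕ) * Real.log x) ≤ n := by
    have hsq : (x^(min δ 1 / 2))^2 = x^(min δ 1) := by
      rw [← Real.rpow_natCast, ← Real.rpow_mul (by linarith)]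
      congr 1
      push_cast; ring
    have h4 : 2 + 1 * x^(min δ 1 / 2) ≤ x^(min δ 1) := by
      rw [← hsq]; nlinarith
    have h5 : x^(min δ 1) ≤ x^δ := Real.rpow_le_rpow_of_exponent_le hx1 (min_le_left _ _)
    have h6 : x^(min δ 1) ≤ x := by
      calc x^(min δ 1) ≤ x^(1:ℝ) := Real.rpow_le_rpow_of_exponent_le hx1 (min_le_right _ _)
        _ = x := Real.rpow_one x
    have h3 : (3:ℝ) ≤ Real.exp 2 := by
      have := Real.add_one_le_exp (2:ℝ); linarith
    have h7 : C * (0:ℕ) * Real.log x = 0 := by simp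
    rw [h7, add_zero]
    rcases Nat.eq_zero_or_pos L with h0 | h0
    · subst h0
      calc (((0+1:ℕ):ℝ)+1) * Real.exp (x^(min δ 1 / 2)) ≤ Real.exp 2 * Real.exp (x^(min δ 1 / 2)) := by
            refine mul_le_mul_of_nonneg_right ?_ (Real.exp_pos _).le
            push_cast; linarith
        _ = Real.exp (2 + x^(min δ 1 / 2)) := by rw [Real.exp_add]
        _ ≤ Real.exp x := Real.exp_le_exp.mpr (by linarith)
        _ = n := hexpx
    · have hL1 : (1:ℝ) ≤ L := by exact_mod_cast h0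
      calc (((L+1:ℕ):ℝ)+1) * Real.exp (x^(min δ 1 / 2))
          ≤ (L * Real.exp 2) * Real.exp (x^(min δ 1 / 2)) := by
            refine mul_le_mul_of_nonneg_right ?_ (Real.exp_pos _).le
            push_cast; nlinarith
        _ = L * Real.exp (2 + x^(min δ 1 / 2)) := by rw [Real.exp_add]; ring
        _ ≤ L * Real.exp (x^δ) := by
            refine mul_le_mul_of_nonneg_left (Real.exp_le_exp.mpr ?_) (by positivity)
            linarith
        _ ≤ n := hL
  set S' : Finset ℕ := insert 1 (S ∪ S.image (fun s => s + L + 1)) with hS'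
  have hS'card : (S'.card : ℝ) ≤ x^(A+1) := by
    have h1 : S'.card ≤ 2 * S.card + 1 := by
      rw [hS']
      refine (card_insert_le _ _).trans ?_
      have := card_union_le S (S.image (fun s => s + L + 1))
      have h3 : (S.image (fun s => s + L + 1)).card ≤ S.card := card_image_le
      omega
    have h2 : (S'.card : ℝ) ≤ 2 * S.card + 1 := by exact_mod_cast h1
    have h3 : 1 ≤ x^A := one_le_pow₀ hx1
    calc (S'.card : ℝ) ≤ 2 * x^A + x^A := by linarith
      _ ≤ x^A * x := by nlinarith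
      _ = x^(A+1) := by rw [pow_succ]
  obtain ⟨a, a', haa', ha'n, hfree, i, hi⟩ := hn (L+1) 0 hcond q Q''
    (fun i => (γ i : ℝ) * ξ i - ρ i) e' hq1
    (by
      refine le_trans ?_ (Nat.mul_le_mul_right (b^(L+1)) (show q ≤ B' by rw [hB']; omega))
      exact Nat.le_mul_of_pos_right _ (pow_pos (by omega) _))
    (by
      rw [zero_add, pow_one]
      exact Nat.not_dvd_of_pos_of_lt hq1 hpN)
    le_rfl
    (by
      intro s
      refine (hM s).trans ?_
      have h1 : (M:ℤ) ≤ B' := by rw [hB']; push_cast; nlinarith [Int.natCast_nonneg E, Int.natCast_nonneg q, Int.natCast_nonneg B]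
      have h2 : (1:ℤ) ≤ (b:ℤ)^(L+1) := one_le_pow₀ (by exact_mod_cast (by omega : 1 ≤ b))
      nlinarith [Int.natCast_nonneg M])
    hval he'B hs' S' hS'card
  obtain ⟨k, hk1, hk2, hk3⟩ := hi 1 le_rfl (by omega) (by
    rw [zero_add, pow_one]; exact hp.one_lt.ne' ∘ Nat.dvd_one.mp)
  -- one of `k, k+1` deviates
  obtain ⟨κ, hκ1, hκ2, hκ3⟩ : ∃ κ, a ≤ κ ∧ κ < a' ∧ e' i κ ≠ c' i := by
    by_contra h
    push Not at h
    exact hk3 (by rw [h (k+1) (by omega) hk2, h k hk1 (by omega)])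
  have h1S : (1:ℕ) ∈ S' := mem_insert_self _ _
  have hκ0 : 1 ≤ κ := by
    rcases hfree 1 h1S with h | h
    · omega
    · omega
  obtain ⟨s, hsS, hs1, hs2⟩ := hcon κ hκ0 (by omega) ⟨i, hκ3⟩
  have hsS' : s ∈ S' := mem_insert_of_mem (mem_union_left _ hsS)
  have hsS'' : s + L + 1 ∈ S' := mem_insert_of_mem (mem_union_right _ (mem_image_of_mem _ hsS))
  rcases hfree s hsS' with h | h
  · rcases hfree _ hsS'' with h' | h'
    · omega
    · omega
  · omega

end Pool.Agent.Chain
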