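import Mathlib

/-! # Rational approximations attached to blocks of digits. -/

open Finset

namespace Pool.Agent.Chain

theorem tail_unif {b : ℕ} (hb : 2 ≤ b) (B : ℕ) :
    ∃ C : ℕ, ∀ (x : ℝ) (e : ℕ → ℤ), (∀ k : ℕ, |e k| ≤ B * ((k:ℤ)+1)^B) →
      HasSum (fun k => (e k : ℝ) / (b:ℝ)^k) x → ∀ M : ℕ,
      |∑ k ∈ range (M+1), (e k : ℝ) / (b:ℝ)^k - x| ≤ C * ((M:ℝ)+1)^B / (b:ℝ)^M := by
  have hb0 : (0:ℝ) < b := by exact_mod_cast (by omega : 0 < b)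
  have hb1 : (1:ℝ) < b := by exact_mod_cast (by omega : 1 < b)
  set r : ℝ := (b:ℝ)⁻¹ with hr
  have hr0 : 0 < r := by positivity
  have hr1 : r < 1 := inv_lt_one_of_one_lt₀ hb1
  have hsm : Summable (fun i : ℕ => (((i+2:ℕ):ℝ))^B * r^(i+2)) := by
    have h1 := summable_pow_mul_geometric_of_norm_lt_one (R := ℝ) B (r := r)
      (by rw [Real.norm_eq_abs, abs_of_pos hr0]; exact hr1)
    exact (summable_nat_add_iff (f := fun n : ℕ => (n:ℝ)^B * r^n) 2).2 h1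
  set T : ℝ := ∑' i : ℕ, (((i+2:ℕ):ℝ))^B * r^(i+2) with hT
  have hT0 : 0 ≤ T := tsum_nonneg fun i => by positivity
  obtain ⟨C, hC⟩ := exists_nat_ge ((b:ℝ) * (B * T))
  refine ⟨C, fun x e hbd h1 M => ?_⟩
  have h2 : Summable (fun k => (e k : ℝ) / (b:ℝ)^k) := h1.summable
  have h3 := h2.sum_add_tsum_nat_add (M+1)
  rw [h1.tsum_eq] at h3
  have hg : HasSum (fun i : ℕ => (b * ((M:ℝ)+1)^B / (b:ℝ)^M * B) *
      ((((i+2:ℕ):ℝ))^B * r^(i+2))) ((b * ((M:ℝ)+1)^B / (b:ℝ)^M * B) * T) :=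
    (hsm.hasSum).mul_left _
  have h4 : ‖∑' k, (e (k + (M+1)) : ℝ) / (b:ℝ)^(k + (M+1))‖ ≤
      (b * ((M:ℝ)+1)^B / (b:ℝ)^M * B) * T := by
    apply tsum_of_norm_bounded hg
    intro k
    rw [Real.norm_eq_abs, abs_div, abs_of_pos (by positivity : (0:ℝ) < (b:ℝ)^(k + (M+1)))]
    have h5 : |(e (k + (M+1)) : ℝ)| ≤ B * (((k + (M+1) : ℕ):ℝ)+1)^B := by
      have := hbd (k + (M+1))
      exact_mod_cast this
    have h6 : (((k + (M+1) : ℕ):ℝ)+1)^B ≤ (((M:ℝ)+1) * ((k+2:ℕ):ℝ))^B := by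
      apply pow_le_pow_left₀ (by positivity)
      push_cast
      have : (0:ℝ) ≤ M := by positivity
      have : (0:ℝ) ≤ k := by positivity
      nlinarith [mul_nonneg (by positivity : (0:ℝ) ≤ M) (by positivity : (0:ℝ) ≤ k)]
    calc |(e (k + (M+1)) : ℝ)| / (b:ℝ)^(k + (M+1))
        ≤ (B * (((M:ℝ)+1) * ((k+2:ℕ):ℝ))^B) / (b:ℝ)^(k + (M+1)) := by
          gcongr
          exact h5.trans (by gcongr)
      _ = (b * ((M:ℝ)+1)^B / (b:ℝ)^M * B) * ((((k+2:ℕ):ℝ))^B * r^(k+2)) := by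
          rw [hr, mul_pow, inv_pow, pow_add, pow_add, pow_add]
          field_simp
  rw [Real.norm_eq_abs] at h4
  have h5 : ∑ k ∈ range (M+1), (e k : ℝ) / (b:ℝ)^k - x
      = - ∑' k, (e (k + (M+1)) : ℝ) / (b:ℝ)^(k + (M+1)) := by
    rw [← h3]; ring
  rw [h5, abs_neg]
  refine h4.trans ?_
  calc (b * ((M:ℝ)+1)^B / (b:ℝ)^M * B) * T = (b * (B * T)) * ((M:ℝ)+1)^B / (b:ℝ)^M := by ring
    _ ≤ C * ((M:ℝ)+1)^B / (b:ℝ)^M := by gcongr

/-- sums of the first `n` terms of the expansion -/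
def pre (b : ℕ) (e : ℕ → ℤ) (n : ℕ) : ℚ := ∑ k ∈ range n, (e k : ℚ) / (b:ℚ)^k

lemma pre_int {b : ℕ} (hb : 2 ≤ b) (e : ℕ → ℤ) (n N : ℕ) (h : n ≤ N + 1) :
    ∃ z : ℤ, (b:ℚ)^N * pre b e n = z := by
  refine ⟨∑ k ∈ range n, e k * (b:ℤ)^(N-k), ?_⟩
  unfold pre
  rw [Finset.mul_sum]
  push_cast
  refine Finset.sum_congr rfl (fun k hk => ?_)
  have hk' : k ≤ N := by
    have := Finset.mem_range.1 hk
    omega
  have hb0 : (b:ℚ) ≠ 0 := by
    have : (0:ℚ) < b := by exact_mod_cast (by omega : 0 < b)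
    exact this.ne'
  rw [pow_sub₀ _ hb0 hk']
  ring

/-- numerator of the periodic tail -/
def Nk (b m : ℕ) (g : ℕ → ℤ) (k : ℕ) : ℤ := ∑ j ∈ range m, g (k+j) * (b:ℤ)^(m-j)

lemma Nk_succ (b m : ℕ) (g : ℕ → ℤ) (k : ℕ) (hg : g (k+m) = g k) :
    Nk b m g (k+1) = b * Nk b m g k - g k * b * ((b:ℤ)^m - 1) := by
  have h1 : ∑ j ∈ range (m+1), g (k+j) * (b:ℤ)^(m+1-j) = b * Nk b m g k + g (k+m) * b := by
    rw [Finset.sum_range_succ, Nk, Finset.mul_sum]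
    congr 1
    · refine Finset.sum_congr rfl (fun j hj => ?_)
      have hj' := Finset.mem_range.1 hj
      have : m + 1 - j = (m - j) + 1 := by omega
      rw [this, pow_succ]
      ring
    · rw [Nat.add_sub_cancel_left, pow_one]
  have h2 : ∑ j ∈ range (m+1), g (k+j) * (b:ℤ)^(m+1-j) = Nk b m g (k+1) + g k * (b:ℤ)^(m+1) := by
    rw [Finset.sum_range_succ', Nk]
    congr 1
    refine Finset.sum_congr rfl (fun j hj => ?_)
    have e1 : k + (j+1) = k + 1 + j := by ring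
    have e2 : m + 1 - (j+1) = m - j := by omega
    rw [e1, e2]
  have h3 : Nk b m g (k+1) = b * Nk b m g k + g (k+m) * b - g k * (b:ℤ)^(m+1) := by
    rw [← h1, h2]
    ring
  rw [h3, hg, pow_succ]
  ring

/-- periodic tail -/
def tau (b m : ℕ) (g : ℕ → ℤ) (k : ℕ) : ℚ := (Nk b m g k : ℚ) / ((b:ℚ)^k * ((b:ℚ)^m - 1))

lemma bm_pos {b m : ℕ} (hb : 2 ≤ b) (hm : 1 ≤ m) : (0:ℚ) < (b:ℚ)^m - 1 := by
  have h1 : (2:ℚ) ≤ b := by exact_mod_cast hb
  have h2 : (b:ℚ) ≤ (b:ℚ)^m := le_self_pow₀ (by linarith) (by omega)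
  linarith

lemma tau_succ {b m : ℕ} (hb : 2 ≤ b) (hm : 1 ≤ m) (g : ℕ → ℤ) (k : ℕ) (hg : g (k+m) = g k) :
    tau b m g (k+1) = tau b m g k - (g k : ℚ) / (b:ℚ)^k := by
  have h1 := bm_pos hb hm
  have hb0 : (0:ℚ) < b := by exact_mod_cast (by omega : 0 < b)
  unfold tau
  rw [Nk_succ b m g k hg]
  push_cast
  rw [pow_succ]
  field_simp

lemma geom_le {b : ℕ} (hb : 2 ≤ b) (m : ℕ) :
    ∑ j ∈ range m, (b:ℝ)^(m-j) ≤ 2 * ((b:ℝ)^m - 1) := by
  have hb' : (2:ℝ) ≤ b := by exact_mod_cast hb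
  induction m with
  | zero => simp
  | succ m ih =>
    have h1 : ∑ j ∈ range (m+1), (b:ℝ)^(m+1-j) = (b:ℝ) * ∑ j ∈ range m, (b:ℝ)^(m-j) + b := by
      rw [Finset.sum_range_succ, Finset.mul_sum]
      congr 1
      · refine Finset.sum_congr rfl (fun j hj => ?_)
        have hj' := Finset.mem_range.1 hj
        have : m + 1 - j = (m - j) + 1 := by omega
        rw [this, pow_succ]
        ring
      · rw [Nat.add_sub_cancel_left, pow_one]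
    rw [h1]
    have h2 : (b:ℝ) * ∑ j ∈ range m, (b:ℝ)^(m-j) ≤ b * (2 * ((b:ℝ)^m - 1)) :=
      mul_le_mul_of_nonneg_left ih (by linarith)
    have h3 : (b:ℝ)^(m+1) = b * (b:ℝ)^m := by ring
    rw [h3]
    linarith

lemma tau_le {b m : ℕ} (hb : 2 ≤ b) (hm : 1 ≤ m) (g : ℕ → ℤ) (k : ℕ) (E : ℝ)
    (hg : ∀ j < m, |(g (k+j) : ℝ)| ≤ E) : |(tau b m g k : ℝ)| ≤ 2 * E / (b:ℝ)^k := by
  have hb0 : (0:ℝ) < b := by exact_mod_cast (by omega : 0 < b)
  have h1 : (0:ℝ) < (b:ℝ)^m - 1 := by exact_mod_cast bm_pos hb hm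
  have hE : 0 ≤ E := (abs_nonneg _).trans (hg 0 (by omega))
  have h2 : |(Nk b m g k : ℝ)| ≤ E * (2 * ((b:ℝ)^m - 1)) := by
    unfold Nk
    push_cast
    refine (Finset.abs_sum_le_sum_abs _ _).trans ?_
    calc ∑ j ∈ range m, |(g (k+j) : ℝ) * (b:ℝ)^(m-j)|
        ≤ ∑ j ∈ range m, E * (b:ℝ)^(m-j) := by
          refine Finset.sum_le_sum (fun j hj => ?_)
          rw [abs_mul, abs_of_pos (pow_pos hb0 _)]
          exact mul_le_mul_of_nonneg_right (hg j (Finset.mem_range.1 hj)) (by positivity)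
      _ = E * ∑ j ∈ range m, (b:ℝ)^(m-j) := by rw [Finset.mul_sum]
      _ ≤ _ := mul_le_mul_of_nonneg_left (geom_le hb m) hE
  unfold tau
  push_cast
  rw [abs_div, abs_of_pos (by positivity : (0:ℝ) < (b:ℝ)^k * ((b:ℝ)^m - 1)),
    div_le_div_iff₀ (by positivity) (by positivity)]
  have h3 : (0:ℝ) < (b:ℝ)^k := by positivity
  calc |(Nk b m g k : ℝ)| * (b:ℝ)^k ≤ E * (2 * ((b:ℝ)^m - 1)) * (b:ℝ)^k :=
        mul_le_mul_of_nonneg_right h2 h3.le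
    _ = 2 * E * ((b:ℝ)^k * ((b:ℝ)^m - 1)) := by ring

/-- a short block -/
lemma block_short {b : ℕ} (hb : 2 ≤ b) {B C : ℕ} {x : ℝ} {e : ℕ → ℤ}
    (htail : ∀ M : ℕ, |∑ k ∈ range (M+1), (e k : ℝ) / (b:ℝ)^k - x| ≤
      C * ((M:ℝ)+1)^B / (b:ℝ)^M) {n a a' L : ℕ} (ha : a < a') (ha' : a' ≤ n) (hL : a' ≤ a + L) :
    |(pre b e a' : ℝ) - x| ≤ (b * C * ((n:ℝ)+1)^B) / (b:ℝ)^a' ∧
      ∃ z : ℤ, (b:ℚ)^(a+L) * pre b e a' = z := by
  have hb0 : (0:ℝ) < b := by exact_mod_cast (by omega : 0 < b)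
  refine ⟨?_, pre_int hb e a' (a+L) (by omega)⟩
  obtain ⟨M, rfl⟩ : ∃ M, a' = M + 1 := ⟨a' - 1, by omega⟩
  have h1 : ((pre b e (M+1) : ℚ) : ℝ) = ∑ k ∈ range (M+1), (e k : ℝ) / (b:ℝ)^k := by
    unfold pre
    push_cast
    rfl
  rw [h1]
  refine (htail M).trans ?_
  rw [div_le_div_iff₀ (by positivity) (by positivity), pow_succ]
  have h2 : ((M:ℝ)+1)^B ≤ ((n:ℝ)+1)^B := by
    apply pow_le_pow_left₀ (by positivity)
    have : ((M+1 : ℕ):ℝ) ≤ n := by exact_mod_cast ha'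
    push_cast at this
    linarith
  calc (C:ℝ) * ((M:ℝ)+1)^B * ((b:ℝ)^M * b) ≤ (C:ℝ) * ((n:ℝ)+1)^B * ((b:ℝ)^M * b) := by gcongr
    _ = b * C * ((n:ℝ)+1)^B * (b:ℝ)^M := by ring

/-- a periodic block -/
lemma block_long {b : ℕ} (hb : 2 ≤ b) {B C : ℕ} {x : ℝ} {e : ℕ → ℤ}
    (hbd : ∀ k : ℕ, |e k| ≤ B * ((k:ℤ)+1)^B)
    (htail : ∀ M : ℕ, |∑ k ∈ range (M+1), (e k : ℝ) / (b:ℝ)^k - x| ≤
      C * ((M:ℝ)+1)^B / (b:ℝ)^M) {n a a' m : ℕ} (ha : a < a') (ha' : a' ≤ n) (hm : 1 ≤ m)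
    (hmn : m ≤ n) (hper : ∀ k, a ≤ k → k + m < a' → e (k+m) = e k) :
    ∃ β : ℚ, |(β : ℝ) - x| ≤ (b * C * ((n:ℝ)+1)^B + 2 * (B * (2*((n:ℝ)+1))^B)) / (b:ℝ)^a' ∧
      ∃ z : ℤ, (b:ℚ)^a * ((b:ℚ)^m - 1) * β = z := by
  have hb0 : (0:ℝ) < b := by exact_mod_cast (by omega : 0 < b)
  have hbq : (0:ℚ) < b := by exact_mod_cast (by omega : 0 < b)
  obtain ⟨g, hg⟩ : ∃ g : ℕ → ℤ, g = fun k => e (a + (k - a) % m) := ⟨_, rfl⟩
  -- `g` is periodic
  have hgper : ∀ k, a ≤ k → g (k+m) = g k := by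
    intro k hk
    rw [hg]
    simp only
    have : k + m - a = (k - a) + m := by omega
    rw [this, Nat.add_mod_right]
  -- `g` agrees with `e` on the block
  have hge : ∀ k, a ≤ k → k < a' → e k = g k := by
    intro k
    induction k using Nat.strong_induction_on with
    | _ k ih =>
      intro h1 h2
      by_cases h3 : k < a + m
      · rw [hg]
        simp only
        rw [Nat.mod_eq_of_lt (by omega)]
        congr 1
        omega
      · push Not at h3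
        have h4 := ih (k - m) (by omega) (by omega) (by omega)
        have h5 := hper (k - m) (by omega) (by omega)
        have h6 := hgper (k - m) (by omega)
        rw [Nat.sub_add_cancel (by omega)] at h5 h6
        rw [h5, h4, h6]
  -- the approximation
  have hinv : ∀ k, a ≤ k → k ≤ a' → pre b e k + tau b m g k = pre b e a + tau b m g a := by
    intro k hk
    induction k, hk using Nat.le_induction with
    | base => intro _; rfl
    | succ k hk ih =>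
      intro h
      rw [← ih (by omega), tau_succ hb hm g k (hgper k hk), pre, pre, Finset.sum_range_succ,
        hge k hk (by omega)]
      ring
  refine ⟨pre b e a + tau b m g a, ?_, ?_⟩
  · rw [← hinv a' ha.le le_rfl]
    have h1 := (block_short hb htail (L := a' - a) ha ha' (by omega)).1
    have h2 : |(tau b m g a' : ℝ)| ≤ 2 * (B * (2*((n:ℝ)+1))^B) / (b:ℝ)^a' := by
      apply tau_le hb hm
      intro j _
      rw [hg]
      simp only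
      have h3 : (a' + j - a) % m < m := Nat.mod_lt _ (by omega)
      have h4 : ((a + (a' + j - a) % m : ℕ) : ℝ) + 1 ≤ 2*((n:ℝ)+1) := by
        have h5 : a + (a' + j - a) % m + 1 ≤ 2 * (n+1) := by omega
        exact_mod_cast h5
      obtain ⟨i, hi⟩ : ∃ i, i = a + (a' + j - a) % m := ⟨_, rfl⟩
      rw [← hi] at h4 ⊢
      have h5 : ((|e i| : ℤ) : ℝ) ≤ ((B * ((i:ℤ)+1)^B : ℤ) : ℝ) := Int.cast_le.2 (hbd i)
      push_cast at h5
      refine h5.trans ?_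
      gcongr
    push_cast
    rw [add_div]
    have h3 : (pre b e a' : ℝ) + (tau b m g a' : ℝ) - x =
        ((pre b e a' : ℝ) - x) + (tau b m g a' : ℝ) := by ring
    rw [h3]
    exact (abs_add_le _ _).trans (add_le_add h1 h2)
  · obtain ⟨z, hz⟩ := pre_int hb e a a (by omega)
    refine ⟨((b:ℤ)^m - 1) * z + Nk b m g a, ?_⟩
    have h1 := bm_pos hb hm
    push_cast
    rw [← hz]
    unfold tau
    field_simp
    
end Pool.Agent.Chain
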