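import Pool.Agent.Chain.Base

/-! # Exactness over `ℚ` for step functions approximating an algebraic number. -/

open Finset Polynomial

namespace Pool.Agent.Chain

open Pool.Agent.SqrtDC Pool.Agent.DigitA Pool.Agent.AlgD

lemma rat_int {b D : ℕ} {S : Finset ℕ} {w : ℕ → ℚ} {d R : ℕ} (P : ℤ[X]) (hd : P.natDegree = d)
    (hz : ∀ u ∈ S, ∃ z : ℤ, (b : ℚ)^u * D * w u = z) :
    ∃ z : ℤ, (b : ℚ)^R * (D : ℚ)^d * (∑ i ∈ range (d + 1), (P.coeff i : ℚ) *
      ∑ u ∈ (tup S i).filter (fun u => ∑ j, u j ≤ R), ∏ j, w (u j)) = z := by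
  have key : (b : ℚ)^R * (D : ℚ)^d * (∑ i ∈ range (d + 1), (P.coeff i : ℚ) *
      ∑ u ∈ (tup S i).filter (fun u => ∑ j, u j ≤ R), ∏ j, w (u j)) ∈
      (Int.castRingHom ℚ).range := by
    rw [Finset.mul_sum]
    refine Subring.sum_mem _ (fun i hi => ?_)
    have hi' : i ≤ d := by
      have := Finset.mem_range.1 hi
      omega
    rw [Finset.mul_sum, Finset.mul_sum]
    refine Subring.sum_mem _ (fun u hu => ?_)
    rw [Finset.mem_filter, tup, Fintype.mem_piFinset] at hu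
    have h1 : (b : ℚ)^R * (D : ℚ)^d * ((P.coeff i : ℚ) * ∏ j, w (u j)) =
        (P.coeff i : ℚ) * ((b : ℚ)^(R - ∑ j, u j) * ((D : ℚ)^(d - i) *
          ∏ j, ((b : ℚ)^(u j) * D * w (u j)))) := by
      have h2 : ∏ j, ((b : ℚ)^(u j) * D * w (u j)) =
          (b : ℚ)^(∑ j, u j) * (D : ℚ)^i * ∏ j, w (u j) := by
        rw [Finset.prod_mul_distrib, Finset.prod_mul_distrib, Finset.prod_const,
          Finset.card_univ, Fintype.card_fin, Finset.prod_pow_eq_pow_sum]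
      have h3 : (b : ℚ)^R = (b : ℚ)^(R - ∑ j, u j) * (b : ℚ)^(∑ j, u j) := by
        rw [← pow_add, Nat.sub_add_cancel hu.2]
      have h4 : (D : ℚ)^d = (D : ℚ)^(d - i) * (D : ℚ)^i := by
        rw [← pow_add, Nat.sub_add_cancel hi']
      rw [h2, h3, h4]
      ring
    rw [h1]
    refine Subring.mul_mem _ ⟨P.coeff i, rfl⟩ (Subring.mul_mem _ ?_ (Subring.mul_mem _ ?_ ?_))
    · exact Subring.pow_mem _ (RingHom.mem_range.2 ⟨(b : ℤ), by simp⟩) _
    · exact Subring.pow_mem _ (RingHom.mem_range.2 ⟨(D : ℤ), by simp⟩) _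
    · refine Subring.prod_mem _ (fun j _ => ?_)
      obtain ⟨z, hz'⟩ := hz (u j) (hu.1 j)
      exact ⟨z, by rw [hz']; rfl⟩
  obtain ⟨z, hz'⟩ := key
  exact ⟨z, by rw [← hz']; rfl⟩

theorem exact_rat (b : ℕ) (hb : 2 ≤ b) (P : ℤ[X]) (hP : 1 ≤ P.natDegree) (α : ℝ)
    (hα : aeval α P = 0) :
    ∃ C : ℕ, ∀ (Bn D N Λ R : ℕ) (S : Finset ℕ) (w : ℕ → ℚ), 0 ∈ S → S ⊆ range (N+1) →
      1 ≤ Bn → 1 ≤ D → (∀ u ∈ S, |(w u : ℝ)| ≤ Bn / (b:ℝ)^u) →
      (∀ u ∈ S, ∃ z : ℤ, (b : ℚ)^u * D * w u = z) →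
      |((∑ u ∈ S, w u : ℚ) : ℝ) - α| ≤ Bn / (b:ℝ)^N → R + Λ ≤ N →
      C * ((N+1) * Bn * D)^P.natDegree < b^Λ →
      (∀ s ∈ ss S P.natDegree, ¬ (R < s ∧ s ≤ R + Λ)) →
      cum R ((P.map (Int.castRingHom ℚ)).comp (gp S w)) = 0 := by
  classical
  -- Lipschitz constant
  have haev : ∀ x : ℝ, aeval x P = (P.map (Int.castRingHom ℝ)).eval x := by
    intro x
    rw [← algebraMap_int_eq, eval_map_algebraMap]
  obtain ⟨Q, hQ⟩ : (X - C α) ∣ P.map (Int.castRingHom ℝ) := by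
    rw [dvd_iff_isRoot]
    change (P.map (Int.castRingHom ℝ)).eval α = 0
    rw [← haev, hα]
  obtain ⟨C1, hC1⟩ := (isCompact_Icc (a := α - 1) (b := α + 1)).exists_bound_of_continuousOn
    (f := fun x => Q.eval x) Q.continuous.continuousOn
  have hLip : ∀ x, |x - α| ≤ 1 → |aeval x P| ≤ (⌈|C1|⌉₊ : ℝ) * |x - α| := by
    intro x hx
    rw [haev, hQ, eval_mul, eval_sub, eval_X, eval_C, abs_mul, mul_comm]
    refine mul_le_mul_of_nonneg_right ?_ (abs_nonneg _)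
    rw [abs_le] at hx
    have h1 := hC1 x ⟨by linarith [hx.1], by linarith [hx.2]⟩
    rw [Real.norm_eq_abs] at h1
    exact h1.trans ((le_abs_self C1).trans (Nat.le_ceil _))
  obtain ⟨d, hd⟩ : ∃ d, d = P.natDegree := ⟨_, rfl⟩
  let C2 : ℕ := ∑ i ∈ range (d+1), (P.coeff i).natAbs
  refine ⟨⌈|C1|⌉₊ + C2 + 1, ?_⟩
  intro Bn D N Λ R S w h0S hSN hBn hD hw hz happ hRN hC hss
  rw [← hd] at hC hss hP
  have hb0 : (0 : ℝ) < b := by
    have : (2 : ℝ) ≤ b := by exact_mod_cast hb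
    linarith
  have hb1 : (1 : ℝ) ≤ b := by exact_mod_cast (by omega : 1 ≤ b)
  have hdegq : (P.map (Int.castRingHom ℚ)).natDegree = d := by
    rw [hd]
    exact natDegree_map_eq_of_injective (RingHom.injective_int _) P
  rw [cum_comp_tup, hdegq]
  simp only [coeff_map, eq_intCast]
  set T : ℚ := ∑ i ∈ range (d + 1), (P.coeff i : ℚ) *
      ∑ u ∈ (tup S i).filter (fun u => ∑ j, u j ≤ R), ∏ j, w (u j) with hT
  obtain ⟨z, hz'⟩ := rat_int (b := b) (D := D) (R := R) P hd.symm hz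
  rw [← hT] at hz'
  -- the full sum
  set F : ℚ := ∑ u ∈ S, w u with hF
  have hFpow : ∀ i, F^i = ∑ u ∈ tup S i, ∏ j, w (u j) := by
    intro i
    rw [hF, tup, ← Finset.prod_univ_sum, Finset.prod_const, Finset.card_univ, Fintype.card_fin]
  have hPF : aeval (F : ℝ) P = ∑ i ∈ range (d+1), (P.coeff i : ℝ) * (F : ℝ)^i := by
    rw [aeval_eq_sum_range, hd]
    exact Finset.sum_congr rfl (fun i _ => by rw [zsmul_eq_mul])
  have hTF : (T : ℝ) = aeval (F : ℝ) P - ∑ i ∈ range (d+1), (P.coeff i : ℝ) *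
      ∑ u ∈ (tup S i).filter (fun u => ¬ ∑ j, u j ≤ R), ∏ j, (w (u j) : ℝ) := by
    rw [hPF, ← Finset.sum_sub_distrib, hT]
    push_cast
    refine Finset.sum_congr rfl (fun i _ => ?_)
    rw [← mul_sub]
    congr 1
    have h1 : (F : ℝ)^i = ∑ u ∈ tup S i, ∏ j, (w (u j) : ℝ) := by
      have := congrArg (fun x : ℚ => (x : ℝ)) (hFpow i)
      push_cast at this
      exact this
    rw [h1, ← Finset.sum_filter_add_sum_filter_not (tup S i) (fun u => ∑ j, u j ≤ R)]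
    ring
  have hBnr : (1 : ℝ) ≤ Bn := by exact_mod_cast hBn
  have hDr : (1 : ℝ) ≤ D := by exact_mod_cast hD
  have hNr : (1 : ℝ) ≤ (N : ℝ) + 1 := by
    have : (0 : ℝ) ≤ N := by positivity
    linarith
  have hcardS : (#S : ℝ) ≤ (N : ℝ) + 1 := by
    have h1 := Finset.card_le_card hSN
    rw [Finset.card_range] at h1
    exact_mod_cast h1
  have hterm : ∀ i ∈ range (d+1), ∀ u ∈ (tup S i).filter (fun u => ¬ ∑ j, u j ≤ R),
      |∏ j, (w (u j) : ℝ)| ≤ (Bn : ℝ)^d / (b : ℝ)^(R + Λ) := by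
    intro i hi u hu
    have hi' : i ≤ d := by
      have := Finset.mem_range.1 hi
      omega
    rw [Finset.mem_filter] at hu
    have hu1 := hu.1
    rw [tup, Fintype.mem_piFinset] at hu1
    have h1 : R + Λ < ∑ j, u j := by
      by_contra hcon
      push Not at hcon
      exact hss _ (ss_le _ h0S hi' ((mem_ss_iff _ _ _).2 ⟨u, hu.1, rfl⟩)) ⟨by omega, hcon⟩
    rw [Finset.abs_prod]
    calc ∏ j, |(w (u j) : ℝ)| ≤ ∏ j, ((Bn : ℝ) / (b : ℝ)^(u j)) :=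
          Finset.prod_le_prod (fun j _ => abs_nonneg _) (fun j _ => hw _ (hu1 j))
      _ = (Bn : ℝ)^i / (b : ℝ)^(∑ j, u j) := by
          rw [Finset.prod_div_distrib, Finset.prod_const, Finset.card_univ, Fintype.card_fin,
            Finset.prod_pow_eq_pow_sum]
      _ ≤ (Bn : ℝ)^d / (b : ℝ)^(R + Λ) := by
          apply div_le_div₀ (by positivity) (pow_le_pow_right₀ hBnr hi') (by positivity)
          exact pow_le_pow_right₀ hb1 h1.le
  have hcardt : ∀ i ∈ range (d+1),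
      (#((tup S i).filter (fun u => ¬ ∑ j, u j ≤ R)) : ℝ) ≤ ((N : ℝ) + 1)^d := by
    intro i hi
    have hi' : i ≤ d := by
      have := Finset.mem_range.1 hi
      omega
    calc (#((tup S i).filter (fun u => ¬ ∑ j, u j ≤ R)) : ℝ) ≤ (#(tup S i) : ℝ) := by
          exact_mod_cast Finset.card_filter_le _ _
      _ = (#S : ℝ)^i := by
          rw [tup, Fintype.card_piFinset_const]
          push_cast
          rfl
      _ ≤ ((N : ℝ) + 1)^i := pow_le_pow_left₀ (by positivity) hcardS i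
      _ ≤ ((N : ℝ) + 1)^d := pow_le_pow_right₀ hNr hi'
  have htail : |∑ i ∈ range (d+1), (P.coeff i : ℝ) *
      ∑ u ∈ (tup S i).filter (fun u => ¬ ∑ j, u j ≤ R), ∏ j, (w (u j) : ℝ)| ≤
      (C2 : ℝ) * ((((N : ℝ) + 1) * Bn)^d / (b : ℝ)^(R + Λ)) := by
    refine (Finset.abs_sum_le_sum_abs _ _).trans ?_
    have h1 : ∀ i ∈ range (d+1), |(P.coeff i : ℝ) *
        ∑ u ∈ (tup S i).filter (fun u => ¬ ∑ j, u j ≤ R), ∏ j, (w (u j) : ℝ)| ≤
        ((P.coeff i).natAbs : ℝ) * ((((N : ℝ) + 1) * Bn)^d / (b : ℝ)^(R + Λ)) := by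
      intro i hi
      rw [abs_mul]
      have h2 : |(P.coeff i : ℝ)| = ((P.coeff i).natAbs : ℝ) := by
        rw [← Int.cast_abs, Int.abs_eq_natAbs]
        rfl
      rw [h2]
      refine mul_le_mul_of_nonneg_left ?_ (by positivity)
      refine (Finset.abs_sum_le_sum_abs _ _).trans ?_
      refine (Finset.sum_le_sum (hterm i hi)).trans ?_
      rw [Finset.sum_const, nsmul_eq_mul, mul_pow, mul_div_assoc]
      exact mul_le_mul_of_nonneg_right (hcardt i hi) (by positivity)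
    refine (Finset.sum_le_sum h1).trans (le_of_eq ?_)
    rw [← Finset.sum_mul]
    simp only [C2]
    push_cast
    rfl
  -- the value at `F`
  have hC' : (⌈|C1|⌉₊ + C2 + 1 : ℝ) * (((N : ℝ) + 1) * Bn * D)^d < (b : ℝ)^Λ := by
    exact_mod_cast hC
  have hM1 : (1 : ℝ) ≤ ((N : ℝ) + 1) * Bn := by nlinarith
  have hMd : ((N : ℝ) + 1) * Bn ≤ (((N : ℝ) + 1) * Bn)^d := le_self_pow₀ hM1 (by omega)
  have hMD : (((N : ℝ) + 1) * Bn)^d * (D : ℝ)^d = (((N : ℝ) + 1) * Bn * D)^d := by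
    rw [← mul_pow]
  have hMD1 : (((N : ℝ) + 1) * Bn)^d ≤ (((N : ℝ) + 1) * Bn * D)^d := by
    rw [← hMD]
    exact le_mul_of_one_le_right (by positivity) (one_le_pow₀ hDr)
  have hceil : (0 : ℝ) ≤ ⌈|C1|⌉₊ := by positivity
  have hC20 : (0 : ℝ) ≤ C2 := by positivity
  have hBnM : (Bn : ℝ) ≤ (((N : ℝ) + 1) * Bn)^d := by
    refine le_trans ?_ hMd
    exact le_mul_of_one_le_left (by positivity) hNr
  have hbΛN : (b : ℝ)^Λ ≤ (b : ℝ)^N := pow_le_pow_right₀ hb1 (by omega)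
  have hbRN : (b : ℝ)^(R + Λ) ≤ (b : ℝ)^N := pow_le_pow_right₀ hb1 hRN
  have hbN0 : (0 : ℝ) < (b : ℝ)^N := by positivity
  have hbR0 : (0 : ℝ) < (b : ℝ)^(R + Λ) := by positivity
  have hbΛ0 : (0 : ℝ) < (b : ℝ)^Λ := by positivity
  have hPos : (0 : ℝ) < (((N : ℝ) + 1) * Bn * D)^d := by positivity
  have hBnN : (Bn : ℝ) ≤ (b : ℝ)^N := by nlinarith
  have happ1 : |(F : ℝ) - α| ≤ 1 := happ.trans ((div_le_one hbN0).2 hBnN)
  have hval : |aeval (F : ℝ) P| ≤ (⌈|C1|⌉₊ : ℝ) * ((((N : ℝ) + 1) * Bn)^d / (b : ℝ)^(R + Λ)) := by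
    refine (hLip _ happ1).trans (mul_le_mul_of_nonneg_left ?_ hceil)
    refine happ.trans ?_
    exact div_le_div₀ (by positivity) hBnM hbR0 hbRN
  have hTabs : |(T : ℝ)| ≤ ((⌈|C1|⌉₊ : ℝ) + C2) * ((((N : ℝ) + 1) * Bn)^d / (b : ℝ)^(R + Λ)) := by
    rw [hTF, add_mul]
    exact (abs_sub _ _).trans (add_le_add hval htail)
  -- the integer vanishes
  have hzr : (z : ℝ) = (b : ℝ)^R * (D : ℝ)^d * T := by
    have := congrArg (fun x : ℚ => (x : ℝ)) hz'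
    push_cast at this
    exact this.symm
  have hzabs : |(z : ℝ)| < 1 := by
    rw [hzr, abs_mul, abs_of_nonneg (by positivity : (0:ℝ) ≤ (b : ℝ)^R * (D : ℝ)^d)]
    refine (mul_le_mul_of_nonneg_left hTabs (by positivity)).trans_lt ?_
    have h1 : (b : ℝ)^R * (D : ℝ)^d * (((⌈|C1|⌉₊ : ℝ) + C2) *
        ((((N : ℝ) + 1) * Bn)^d / (b : ℝ)^(R + Λ))) =
        ((⌈|C1|⌉₊ : ℝ) + C2) * (((N : ℝ) + 1) * Bn * D)^d / (b : ℝ)^Λ := by
      rw [← hMD, pow_add]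
      field_simp
    rw [h1, div_lt_one hbΛ0]
    nlinarith
  have hz1 : |z| < 1 := by exact_mod_cast hzabs
  have hz0 : z = 0 := Int.abs_lt_one_iff.1 hz1
  rw [hz0, Int.cast_zero] at hz'
  rcases mul_eq_zero.1 hz' with h1 | h1
  · exfalso
    have hbq : (0 : ℚ) < b := by exact_mod_cast (by omega : 0 < b)
    have hDq : (0 : ℚ) < D := by exact_mod_cast hD
    have : (0 : ℚ) < (b : ℚ)^R * (D : ℚ)^d := by positivity
    linarith
  · exact h1

end Pool.Agent.Chain
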