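import Pool.Agent.Chain.Base

/-! # One step: the pole of the masses at `p` drops by one if the resolution is coarsened. -/

open Finset Polynomial

namespace Pool.Agent.Chain

open Pool.Agent.SqrtDC Pool.Agent.DigitA Pool.Agent.AlgD

variable {p : ℕ} [hp : Fact p.Prime]

open scoped Classical in
/-- `p^k * v e` as a `p`-adic integer -/
noncomputable def cc (v : ℕ → ℚ_[p]) (k e : ℕ) : ℤ_[p] :=
  if h : ‖(p : ℚ_[p])^k * v e‖ ≤ 1 then ⟨(p : ℚ_[p])^k * v e, h⟩ else 0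

/-- the masses modulo `p` -/
noncomputable def cb (v : ℕ → ℚ_[p]) (k e : ℕ) : ZMod p := PadicInt.toZMod (cc v k e)

lemma norm_p_pow (k : ℕ) : ‖(p : ℚ_[p])^k‖ = ((p : ℝ)^k)⁻¹ := by
  rw [norm_pow, Padic.norm_p, inv_pow]

lemma p_pos : (0 : ℝ) < p := by exact_mod_cast hp.out.pos

lemma cc_coe {v : ℕ → ℚ_[p]} {k e : ℕ} (h : ‖v e‖ ≤ (p : ℝ)^k) :
    (cc v k e : ℚ_[p]) = (p : ℚ_[p])^k * v e := by
  have h1 : ‖(p : ℚ_[p])^k * v e‖ ≤ 1 := by
    rw [norm_mul, norm_p_pow]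
    have h2 : (0 : ℝ) < (p : ℝ)^k := pow_pos p_pos k
    rw [inv_mul_le_iff₀ h2, mul_one]
    exact h
  unfold cc
  rw [dif_pos h1]

/-- integral tuple sums -/
noncomputable def TT (A : Finset ℕ) (v : ℕ → ℚ_[p]) (k i R : ℕ) : ℤ_[p] :=
  ∑ u ∈ (tup A i).filter (fun u => ∑ j, u j ≤ R), ∏ j, cc v k (u j)

lemma TT_coe {A : Finset ℕ} {v : ℕ → ℚ_[p]} {k : ℕ} (hv : ∀ e ∈ A, ‖v e‖ ≤ (p : ℝ)^k) (i R : ℕ) :
    (TT A v k i R : ℚ_[p]) = (p : ℚ_[p])^(k*i) * cum R ((gp A v)^i) := by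
  unfold TT
  rw [cum_gp_powD, Finset.mul_sum]
  have h0 : ((∑ u ∈ (tup A i).filter (fun u => ∑ j, u j ≤ R), ∏ j, cc v k (u j) : ℤ_[p]) : ℚ_[p]) =
      ∑ u ∈ (tup A i).filter (fun u => ∑ j, u j ≤ R), ∏ j, (cc v k (u j) : ℚ_[p]) := by
    have := map_sum (PadicInt.Coe.ringHom (p := p)) (fun u => ∏ j, cc v k (u j))
      ((tup A i).filter (fun u => ∑ j, u j ≤ R))
    refine this.trans (Finset.sum_congr rfl (fun u _ => ?_))
    exact map_prod (PadicInt.Coe.ringHom (p := p)) _ _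
  rw [h0]
  refine Finset.sum_congr rfl (fun u hu => ?_)
  have hu' := (Finset.mem_filter.1 hu).1
  rw [tup, Fintype.mem_piFinset] at hu'
  rw [Finset.prod_congr rfl (fun j _ => cc_coe (hv _ (hu' j))), Finset.prod_mul_distrib,
    Finset.prod_const, Finset.card_univ, Fintype.card_fin, ← pow_mul]

lemma TT_red (A : Finset ℕ) (v : ℕ → ℚ_[p]) (k i R : ℕ) :
    PadicInt.toZMod (TT A v k i R) = cum R ((gp A (cb v k))^i) := by
  unfold TT
  rw [cum_gp_powD, map_sum]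
  refine Finset.sum_congr rfl (fun u _ => ?_)
  rw [map_prod]
  rfl

lemma natDegree_map_padic (P : ℤ[X]) :
    (P.map (Int.castRingHom ℚ_[p])).natDegree = P.natDegree :=
  natDegree_map_eq_of_injective (RingHom.injective_int _) P

/-- the relation over `ℤ_p` -/
lemma rel_int {P : ℤ[X]} {A : Finset ℕ} {v : ℕ → ℚ_[p]} {k R : ℕ}
    (hv : ∀ e ∈ A, ‖v e‖ ≤ (p : ℝ)^k)
    (h : cum R ((P.map (Int.castRingHom ℚ_[p])).comp (gp A v)) = 0) :
    ∑ i ∈ range (P.natDegree + 1),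
      (P.coeff i : ℤ_[p]) * ((p : ℤ_[p])^(k*(P.natDegree - i)) * TT A v k i R) = 0 := by
  have hinj : Function.Injective (PadicInt.Coe.ringHom (p := p)) := Subtype.coe_injective
  apply hinj
  rw [map_sum, map_zero]
  rw [coarse_comp, natDegree_map_padic] at h
  have h1 : ∀ i ∈ range (P.natDegree + 1), PadicInt.Coe.ringHom
      ((P.coeff i : ℤ_[p]) * ((p : ℤ_[p])^(k*(P.natDegree - i)) * TT A v k i R)) =
      (p : ℚ_[p])^(k*P.natDegree) *
        ((P.map (Int.castRingHom ℚ_[p])).coeff i * cum R ((gp A v)^i)) := by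
    intro i hi
    have hi' : i ≤ P.natDegree := by
      have := Finset.mem_range.1 hi
      omega
    rw [map_mul, map_mul, map_pow, map_intCast, map_natCast, coeff_map]
    have h2 : (PadicInt.Coe.ringHom (TT A v k i R) : ℚ_[p]) =
      (p : ℚ_[p])^(k*i) * cum R ((gp A v)^i) := TT_coe hv i R
    rw [h2]
    have h3 : k * P.natDegree = k * (P.natDegree - i) + k * i := by
      rw [← mul_add, Nat.sub_add_cancel hi']
    rw [h3, pow_add]
    simp only [eq_intCast]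
    ring
  rw [Finset.sum_congr rfl h1, ← Finset.mul_sum, h, mul_zero]

lemma rel_pos {P : ℤ[X]} {A : Finset ℕ} {v : ℕ → ℚ_[p]} {k R : ℕ} (hk : 1 ≤ k)
    (hlc : ¬ (p : ℤ) ∣ P.leadingCoeff) (hv : ∀ e ∈ A, ‖v e‖ ≤ (p : ℝ)^k)
    (h : cum R ((P.map (Int.castRingHom ℚ_[p])).comp (gp A v)) = 0) :
    cum R ((gp A (cb v k))^P.natDegree) = 0 := by
  have h1 := congrArg (PadicInt.toZMod (p := p)) (rel_int hv h)
  rw [map_sum, map_zero, Finset.sum_range_succ] at h1
  have h2 : ∑ i ∈ range P.natDegree, PadicInt.toZMod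
      ((P.coeff i : ℤ_[p]) * ((p : ℤ_[p])^(k*(P.natDegree - i)) * TT A v k i R)) = 0 := by
    refine Finset.sum_eq_zero (fun i hi => ?_)
    have hi' := Finset.mem_range.1 hi
    rw [map_mul, map_mul, map_pow, map_natCast, CharP.cast_eq_zero, zero_pow, zero_mul, mul_zero]
    have : 1 ≤ k * (P.natDegree - i) := Nat.mul_pos hk (by omega)
    omega
  rw [h2, zero_add, map_mul, map_mul, Nat.sub_self, mul_zero, pow_zero, map_one, one_mul,
    map_intCast, TT_red] at h1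
  rcases mul_eq_zero.1 h1 with h3 | h3
  · exfalso
    apply hlc
    rw [← ZMod.intCast_zmod_eq_zero_iff_dvd]
    exact h3
  · exact h3

lemma rel_zero {P : ℤ[X]} {A : Finset ℕ} {v : ℕ → ℚ_[p]} {R : ℕ}
    (hlc : ¬ (p : ℤ) ∣ P.leadingCoeff) (hv : ∀ e ∈ A, ‖v e‖ ≤ 1)
    (h : cum R ((P.map (Int.castRingHom ℚ_[p])).comp (gp A v)) = 0) :
    cum R ((P.map (Int.castRingHom (ZMod p))).comp (gp A (cb v 0))) = 0 := by
  have h1 := congrArg (PadicInt.toZMod (p := p)) (rel_int (k := 0) (by simpa using hv) h)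
  have hdeg : (P.map (Int.castRingHom (ZMod p))).natDegree = P.natDegree := by
    apply Polynomial.natDegree_map_of_leadingCoeff_ne_zero
    intro h0
    apply hlc
    rw [← ZMod.intCast_zmod_eq_zero_iff_dvd]
    simpa using h0
  rw [map_sum, map_zero] at h1
  rw [coarse_comp, hdeg, ← h1]
  refine Finset.sum_congr rfl (fun i _ => ?_)
  rw [map_mul, map_mul, zero_mul, pow_zero, map_one, one_mul, map_intCast, TT_red, coeff_map]
  rfl

/-- the sum up to `c` is less singular if its reduction vanishes -/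
lemma norm_ph_of_red {A : Finset ℕ} {v : ℕ → ℚ_[p]} {k c : ℕ} (hk : 1 ≤ k)
    (hv : ∀ e ∈ A, ‖v e‖ ≤ (p : ℝ)^k) (h : ∑ e ∈ A.filter (fun e => e ≤ c), cb v k e = 0) :
    ‖∑ e ∈ A.filter (fun e => e ≤ c), v e‖ ≤ (p : ℝ)^(k-1) := by
  set z : ℤ_[p] := ∑ e ∈ A.filter (fun e => e ≤ c), cc v k e with hz
  have h1 : PadicInt.toZMod z = 0 := by
    rw [hz, map_sum]
    exact h
  have h2 : z ∈ IsLocalRing.maximalIdeal ℤ_[p] := by
    rw [← PadicInt.ker_toZMod, RingHom.mem_ker]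
    exact h1
  rw [PadicInt.maximalIdeal_eq_span_p, Ideal.mem_span_singleton] at h2
  obtain ⟨z', hz'⟩ := h2
  have h3 : (z : ℚ_[p]) = (p : ℚ_[p])^k * ∑ e ∈ A.filter (fun e => e ≤ c), v e := by
    have h4 : (z : ℚ_[p]) = ∑ e ∈ A.filter (fun e => e ≤ c), (cc v k e : ℚ_[p]) :=
      map_sum (PadicInt.Coe.ringHom (p := p)) _ _
    rw [h4, Finset.mul_sum]
    exact Finset.sum_congr rfl (fun e he => cc_coe (hv e (Finset.mem_filter.1 he).1))
  have h5 : (z : ℚ_[p]) = (p : ℚ_[p]) * (z' : ℚ_[p]) := by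
    rw [hz']
    push_cast
    rfl
  have h6 : ‖(z : ℚ_[p])‖ ≤ (p : ℝ)⁻¹ := by
    rw [h5, norm_mul, Padic.norm_p]
    have h7 : ‖(z' : ℚ_[p])‖ ≤ 1 := z'.2
    have h8 : (0 : ℝ) < (p : ℝ)⁻¹ := inv_pos.2 p_pos
    nlinarith
  rw [h3, norm_mul, norm_p_pow] at h6
  have h9 : (0 : ℝ) < (p : ℝ)^k := pow_pos p_pos k
  rw [inv_mul_le_iff₀ h9] at h6
  refine h6.trans (le_of_eq ?_)
  obtain ⟨j, rfl⟩ := Nat.exists_eq_add_of_le hk
  have hp0 : (p : ℝ) ≠ 0 := p_pos.ne'
  rw [Nat.add_sub_cancel_left, pow_add, pow_one]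
  field_simp

variable {P : ℤ[X]} {d : ℕ} {A : Finset ℕ} {v : ℕ → ℚ_[p]} {N Λ k : ℕ}

theorem step_ph (h : ExK (P.map (Int.castRingHom ℚ_[p])) d A v N Λ) (hd : P.natDegree = d)
    (hdp : d ≤ p) (hlc : ¬ (p : ℤ) ∣ P.leadingCoeff) (hk : 1 ≤ k)
    (hv : ∀ e ∈ A, ‖v e‖ ≤ (p : ℝ)^k) (R : ℕ) (hN : R + Λ ≤ N)
    (hgood : ∀ s ∈ ss A p, ¬ (R < s ∧ s ≤ R + Λ)) :
    ‖∑ e ∈ A.filter (fun e => e ≤ R / p), v e‖ ≤ (p : ℝ)^(k-1) := by
  apply norm_ph_of_red hk hv
  set g := gp A (cb v k) with hg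
  have h1 : cum R (g^(p-d) * g^d) = 0 := by
    rw [cum_mul]
    refine Finset.sum_eq_zero fun i hi => ?_
    rw [Finset.mem_range] at hi
    by_cases h0 : (g^(p-d)).coeff i = 0
    · rw [h0, zero_mul]
    · have h2 := coeff_gp_pow A (cb v k) (p-d) i h0
      have h3 : cum (R - i) (g^d) = 0 := by
        rw [← hd]
        apply rel_pos hk hlc hv
        apply h.ex (R - i) (by omega)
        intro s hs hcon
        refine hgood (s + i) ?_ (by omega)
        have h4 := ss_add A hs h2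
        rwa [Nat.add_sub_cancel' hdp] at h4
      rw [h3, mul_zero]
  rw [← pow_add, Nat.sub_add_cancel hdp] at h1
  have h2 := cum_gp_pow_q (p := p) 1 A (cb v k) R
  rw [pow_one, ← hg, h1] at h2
  exact h2.symm

/-- a window of length `p (γ+1)` contains a good point -/
theorem step_window (h : ExK (P.map (Int.castRingHom ℚ_[p])) d A v N Λ) (hd : P.natDegree = d)
    (hdp : d ≤ p) (hlc : ¬ (p : ℤ) ∣ P.leadingCoeff) (hk : 1 ≤ k)
    (hv : ∀ e ∈ A, ‖v e‖ ≤ (p : ℝ)^k) (t γ : ℕ) (ht : #A ≤ t) (hγ : Λ * t^p < p * (γ+1))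
    (c : ℕ) (hc : ∀ e ∈ A, c < e → c + γ < e) (hN : p * (c + γ + 1) + Λ ≤ N) :
    ‖∑ e ∈ A.filter (fun e => e ≤ c), v e‖ ≤ (p : ℝ)^(k-1) := by
  classical
  have hp0 : 0 < p := hp.out.pos
  let B1 : Finset ℕ := (ss A p).biUnion (fun s => Finset.Ico (s - Λ) s)
  have hB1 : #B1 ≤ t ^ p * Λ := by
    refine (Finset.card_biUnion_le_card_mul _ _ Λ ?_).trans
      (Nat.mul_le_mul_right _ ((ss_card A p).trans (Nat.pow_le_pow_left ht p)))
    intro s _
    rw [Nat.card_Ico]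
    omega
  have hlt : #B1 < #(Finset.Ico (p * c) (p * c + p * (γ+1))) := by
    rw [Nat.card_Ico]
    have : t ^ p * Λ = Λ * t ^ p := by ring
    omega
  obtain ⟨R, hR1, hR2⟩ := Finset.exists_mem_notMem_of_card_lt_card hlt
  rw [Finset.mem_Ico] at hR1
  have hRN : p * (c + γ + 1) = p * c + p * (γ+1) := by ring
  have h1 := step_ph h hd hdp hlc hk hv R (by omega) (by
    intro s hs hcon
    apply hR2
    rw [Finset.mem_biUnion]
    exact ⟨s, hs, Finset.mem_Ico.2 ⟨by omega, hcon.1⟩⟩)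
  have h2 : c ≤ R / p := by
    rw [Nat.le_div_iff_mul_le hp0, mul_comm]
    exact hR1.1
  have h3 : R / p ≤ c + γ := by
    have : R / p < c + γ + 1 := by
      rw [Nat.div_lt_iff_lt_mul hp0, mul_comm]
      omega
    omega
  have h4 : A.filter (fun e => e ≤ c) = A.filter (fun e => e ≤ R / p) := by
    ext e
    simp only [Finset.mem_filter]
    constructor
    · rintro ⟨he, hle⟩
      exact ⟨he, by omega⟩
    · rintro ⟨he, hle⟩
      refine ⟨he, ?_⟩
      by_contra hcon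
      push Not at hcon
      have := hc e he hcon
      omega
  rw [h4]
  exact h1

theorem step_mass [DecidableEq ℚ_[p]] (h : ExK (P.map (Int.castRingHom ℚ_[p])) d A v N Λ)
    (hd : P.natDegree = d)
    (hdp : d ≤ p) (hlc : ¬ (p : ℤ) ∣ P.leadingCoeff) (hk : 1 ≤ k)
    (hv : ∀ e ∈ A, ‖v e‖ ≤ (p : ℝ)^k) (t γ : ℕ) (ht : #A ≤ t) (hγ : Λ * t^p < p * (γ+1))
    (x : ℕ) (hx : x ∈ starts A γ) (hN : p * (x + t * γ + γ + 1) + Λ ≤ N) :
    ‖mass A v γ x‖ ≤ (p : ℝ)^(k-1) := by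
  obtain ⟨c, hcA, hxc, hct, hc, _, hmass⟩ := mass_eq_ph A h.zero v γ t x ht hx
  have h1 : ‖ph A v c‖ ≤ (p : ℝ)^(k-1) := by
    apply step_window h hd hdp hlc hk hv t γ ht hγ c hc
    have : p * (c + γ + 1) ≤ p * (x + t * γ + γ + 1) := Nat.mul_le_mul_left _ (by omega)
    omega
  have h2 : ‖∑ e ∈ A.filter (fun e => e < x), v e‖ ≤ (p : ℝ)^(k-1) := by
    rcases Nat.eq_zero_or_pos x with h0 | h0
    · subst h0
      have h3 : A.filter (fun e => e < 0) = ∅ := by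
        apply Finset.filter_eq_empty_iff.2
        intro e _
        exact Nat.not_lt_zero e
      rw [h3, Finset.sum_empty, norm_zero]
      exact (pow_pos p_pos _).le
    · have hst := ((mem_starts A).1 hx).2
      have hxγ : γ < x := by
        have := hst 0 h.zero h0
        omega
      have h3 : A.filter (fun e => e < x) = A.filter (fun e => e ≤ x - γ - 1) := by
        ext e
        simp only [Finset.mem_filter]
        constructor
        · rintro ⟨he, hlt⟩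
          have := hst e he hlt
          exact ⟨he, by omega⟩
        · rintro ⟨he, hle⟩
          exact ⟨he, by omega⟩
      rw [h3]
      apply step_window h hd hdp hlc hk hv t γ ht hγ (x - γ - 1)
      · intro e he hlt
        by_contra hcon
        push Not at hcon
        have := hst e he (by omega)
        omega
      · have : p * (x - γ - 1 + γ + 1) ≤ p * (x + t * γ + γ + 1) :=
          Nat.mul_le_mul_left _ (by omega)
        omega
  have h4 : mass A v γ x = ph A v c + -(∑ e ∈ A.filter (fun e => e < x), v e) := by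
    rw [← hmass]
    ring
  rw [h4]
  refine (Padic.nonarchimedean _ _).trans (max_le h1 ?_)
  rw [norm_neg]
  exact h2

end Pool.Agent.Chain
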