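import Pool.Agent.Chain.Exact
import Pool.Agent.Chain.Step

/-! # The exact system attached to a step function approximating `α`. -/

open Finset Polynomial

namespace Pool.Agent.Chain

open Pool.Agent.SqrtDC Pool.Agent.DigitA Pool.Agent.AlgD

/-- jumps of a function -/
def dG (G : ℕ → ℚ) (u : ℕ) : ℚ := if u = 0 then G 0 else G u - G (u-1)

lemma dG_zero (G : ℕ → ℚ) : dG G 0 = G 0 := by simp [dG]

lemma dG_succ (G : ℕ → ℚ) (u : ℕ) : dG G (u+1) = G (u+1) - G u := by simp [dG]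

lemma sum_dG (G : ℕ → ℚ) (N : ℕ) : ∑ u ∈ range (N+1), dG G u = G N := by
  induction N with
  | zero => simp [dG]
  | succ N ih => rw [Finset.sum_range_succ, ih, dG_succ]; ring

lemma sum_dG' (G : ℕ → ℚ) (N : ℕ) (S : Finset ℕ) (h0 : 0 ∈ S) (hS : S ⊆ range (N+1))
    (h : ∀ u, 1 ≤ u → u ≤ N → u ∉ S → G u = G (u-1)) : ∑ u ∈ S, dG G u = G N := by
  rw [← sum_dG G N]
  refine Finset.sum_subset hS (fun u hu hu' => ?_)
  have h1 : u ≠ 0 := by
    rintro rfl
    exact hu' h0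
  have h2 := Finset.mem_range.1 hu
  unfold dG
  rw [if_neg h1, h u (by omega) (by omega) hu', sub_self]

variable {p : ℕ} [hp : Fact p.Prime]

lemma cum_map {K L : Type*} [Field K] [Field L] (φ : K →+* L) (R : ℕ) (f : K[X]) :
    cum R (f.map φ) = φ (cum R f) := by
  unfold cum
  rw [map_sum]
  exact Finset.sum_congr rfl (fun s _ => coeff_map _ _)

lemma gp_map {K L : Type*} [Field K] [Field L] (φ : K →+* L) (A : Finset ℕ) (v : ℕ → K) :
    (gp A v).map φ = gp A (fun u => φ (v u)) := by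
  unfold gp
  rw [Polynomial.map_sum]
  exact Finset.sum_congr rfl (fun e _ => by rw [Polynomial.map_mul, map_C, Polynomial.map_pow, map_X])

theorem exK_of_fn (b : ℕ) (hb : 2 ≤ b) (P : ℤ[X]) (hP : 1 ≤ P.natDegree) (α : ℝ)
    (hα : aeval α P = 0) :
    ∃ C : ℕ, ∀ (p : ℕ) [Fact p.Prime] (E D N Λ : ℕ) (S : Finset ℕ) (G : ℕ → ℚ), 0 ∈ S →
      S ⊆ range (N+1) → 1 ≤ E → 1 ≤ D → (∀ R ≤ N, |(G R : ℝ) - α| ≤ E / (b:ℝ)^R) →
      (∀ R ≤ N, ∃ z : ℤ, (b : ℚ)^R * D * G R = z) →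
      (∀ u, 1 ≤ u → u ≤ N → u ∉ S → G u = G (u-1)) →
      C * ((N+1) * E * D)^P.natDegree < b^Λ →
      ExK (P.map (Int.castRingHom ℚ_[p])) P.natDegree S (fun u => (dG G u : ℚ_[p])) N Λ := by
  obtain ⟨C, hC⟩ := exact_rat b hb P hP α hα
  refine ⟨C * (b + 1 + ⌈|α|⌉₊)^P.natDegree, ?_⟩
  intro p hp E D N Λ S G h0 hS hE hD happ hz hconst hlt
  have hb1 : (1:ℝ) ≤ b := by exact_mod_cast (by omega : 1 ≤ b)
  have hb0 : (0:ℝ) < b := by linarith
  refine ⟨h0, fun R hR hs => ?_⟩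
  have h1 : cum R ((P.map (Int.castRingHom ℚ)).comp (gp S (dG G))) = 0 := by
    apply hC ((b + 1 + ⌈|α|⌉₊) * E) D N Λ R S (dG G) h0 hS (Nat.mul_pos (by omega) hE) hD
    · intro u hu
      have hu' := Finset.mem_range.1 (hS hu)
      have hE1 : (1:ℝ) ≤ E := by exact_mod_cast hE
      have hce : |α| ≤ ⌈|α|⌉₊ := Nat.le_ceil _
      rcases Nat.eq_zero_or_pos u with h2 | h2
      · subst h2
        rw [dG_zero, pow_zero, div_one]
        have h3 := happ 0 (Nat.zero_le _)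
        rw [pow_zero, div_one] at h3
        have h4 : |(G 0 : ℝ)| ≤ |(G 0 : ℝ) - α| + |α| := by
          have := abs_add_le ((G 0 : ℝ) - α) α
          rwa [sub_add_cancel] at this
        push_cast
        have h5 : (0:ℝ) ≤ (b:ℝ) * E := by positivity
        have h6 : (⌈|α|⌉₊ : ℝ) ≤ ⌈|α|⌉₊ * E := le_mul_of_one_le_right (by positivity) hE1
        nlinarith
      · obtain ⟨w, rfl⟩ : ∃ w, u = w + 1 := ⟨u - 1, by omega⟩
        rw [dG_succ]
        have h3 := happ (w+1) (by omega)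
        have h4 := happ w (by omega)
        have h5 : ((G (w+1) - G w : ℚ) : ℝ) = ((G (w+1) : ℝ) - α) - ((G w : ℝ) - α) := by
          push_cast
          ring
        rw [h5]
        refine (abs_sub _ _).trans ((add_le_add h3 h4).trans ?_)
        have h6 : (E:ℝ) / (b:ℝ)^w = (b * E) / (b:ℝ)^(w+1) := by
          rw [pow_succ]
          field_simp
        rw [h6, ← add_div]
        apply div_le_div_of_nonneg_right _ (by positivity)
        push_cast
        have h7 : (0:ℝ) ≤ ⌈|α|⌉₊ * (E:ℝ) := by positivity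
        nlinarith
    · intro u hu
      have hu' := Finset.mem_range.1 (hS hu)
      rcases Nat.eq_zero_or_pos u with h2 | h2
      · subst h2
        rw [dG_zero]
        exact hz 0 (Nat.zero_le _)
      · obtain ⟨w, rfl⟩ : ∃ w, u = w + 1 := ⟨u - 1, by omega⟩
        obtain ⟨z1, h3⟩ := hz (w+1) (by omega)
        obtain ⟨z2, h4⟩ := hz w (by omega)
        refine ⟨z1 - b * z2, ?_⟩
        rw [dG_succ]
        push_cast
        rw [← h3, ← h4]
        ring
    · rw [sum_dG' G N S h0 hS hconst]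
      refine (happ N le_rfl).trans ?_
      apply div_le_div_of_nonneg_right _ (by positivity)
      have : E ≤ (b + 1 + ⌈|α|⌉₊) * E := Nat.le_mul_of_pos_left _ (by omega)
      exact_mod_cast this
    · exact hR
    · refine lt_of_le_of_lt (le_of_eq ?_) hlt
      rw [mul_assoc C, ← mul_pow]
      congr 2
      ring
    · exact hs
  have h2 : (P.map (Int.castRingHom ℚ_[p])).comp (gp S (fun u => (dG G u : ℚ_[p]))) =
      ((P.map (Int.castRingHom ℚ)).comp (gp S (dG G))).map (Rat.castHom ℚ_[p]) := by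
    rw [Polynomial.map_comp, Polynomial.map_map, gp_map]
    congr 1
  rw [h2, cum_map, h1, map_zero]

lemma norm_dG {G : ℕ → ℚ} {N K : ℕ} (h : ∀ R ≤ N, ‖(G R : ℚ_[p])‖ ≤ (p:ℝ)^K) (u : ℕ)
    (hu : u ≤ N) : ‖((dG G u : ℚ) : ℚ_[p])‖ ≤ (p:ℝ)^K := by
  rcases Nat.eq_zero_or_pos u with h2 | h2
  · subst h2
    rw [dG_zero]
    exact h 0 (Nat.zero_le _)
  · obtain ⟨w, rfl⟩ : ∃ w, u = w + 1 := ⟨u - 1, by omega⟩
    rw [dG_succ]
    push_cast
    rw [sub_eq_add_neg]
    refine (Padic.nonarchimedean _ _).trans (max_le (h _ hu) ?_)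
    rw [norm_neg]
    exact h _ (by omega)

end Pool.Agent.Chain
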