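import Pool.Agent.Chain.Step
import Pool.Agent.AlgD.MainStep

/-! # Iteration: after `k` steps the masses are `p`-integral; contradiction with the main step. -/

open Finset Polynomial

namespace Pool.Agent.Chain

open Pool.Agent.SqrtDC Pool.Agent.DigitA Pool.Agent.AlgD

variable {p : ℕ} [hp : Fact p.Prime]

/-- the loss in one step -/
def Gam (p d t : ℕ) : ℕ := 4 * p * d * (t+1)^(p+1)

lemma Gam_ge {p d t : ℕ} (hp : 1 ≤ p) (hd : 1 ≤ d) :
    2 * p * (t+1) * t^p + 2 * p + 2 ≤ Gam p d t ∧ 1 + d * (t * t^p) ≤ Gam p d t := by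
  unfold Gam
  have h1 : t^p ≤ (t+1)^p := Nat.pow_le_pow_left (by omega) p
  have h2 : 1 ≤ (t+1)^(p+1) := Nat.one_le_pow _ _ (by omega)
  have h4 : (t+1) * t^p ≤ (t+1)^(p+1) := by
    calc (t+1) * t^p ≤ (t+1) * (t+1)^p := Nat.mul_le_mul_left _ h1
      _ = (t+1)^(p+1) := by ring
  have h5 : t * t^p ≤ (t+1)^(p+1) := by
    calc t * t^p ≤ (t+1) * t^p := Nat.mul_le_mul_right _ (by omega)
      _ ≤ _ := h4
  have h6 : p * (t+1)^(p+1) ≤ p * d * (t+1)^(p+1) := by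
    apply Nat.mul_le_mul_right
    exact Nat.le_mul_of_pos_right _ hd
  have h7 : d * (t+1)^(p+1) ≤ p * d * (t+1)^(p+1) := by
    apply Nat.mul_le_mul_right
    exact Nat.le_mul_of_pos_left _ hp
  set Z := (t+1)^(p+1) with hZ
  have h8 : 1 ≤ p * Z := Nat.mul_pos hp h2
  have h9 : p ≤ p * Z := Nat.le_mul_of_pos_right _ h2
  have h10 : 1 ≤ d * Z := Nat.mul_pos hd h2
  constructor
  · have h11 : 2 * p * (t+1) * t^p ≤ 2 * (p * Z) := by
      calc 2 * p * (t+1) * t^p = 2 * p * ((t+1) * t^p) := by ring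
        _ ≤ 2 * p * Z := Nat.mul_le_mul_left _ h4
        _ = 2 * (p * Z) := by ring
    have h12 : 2 * p + 2 ≤ 2 * (p * Z) + 2 := by omega
    have h13 : 4 * p * d * Z = 4 * (p * d * Z) := by ring
    rcases Nat.eq_zero_or_pos t with h0 | h0
    · subst h0
      have h14 : Z = 1 := by rw [hZ]; simp
      rw [h14] at *
      have h15 : (0:ℕ)^p = 0 := by
        apply zero_pow
        omega
      have h16 : 4 * p ≤ 4 * p * d := Nat.le_mul_of_pos_right _ hd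
      rw [h15, mul_zero, zero_add, mul_one]
      omega
    · have h14 : 2 ≤ Z := by
        rw [hZ]
        calc 2 ≤ t+1 := by omega
          _ ≤ (t+1)^(p+1) := Nat.le_self_pow (by omega) _
      have h15 : p * 2 ≤ p * Z := Nat.mul_le_mul_left _ h14
      omega
  · have h11 : d * (t * t^p) ≤ d * Z := Nat.mul_le_mul_left _ h5
    have h13 : 4 * p * d * Z = 4 * (p * d * Z) := by ring
    omega

theorem iter [DecidableEq ℚ_[p]] (P : ℤ[X]) (d : ℕ) (hd : P.natDegree = d) (hd1 : 1 ≤ d)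
    (hdp : d ≤ p)
    (hlc : ¬ (p : ℤ) ∣ P.leadingCoeff) (t : ℕ) (k : ℕ) :
    ∀ (A : Finset ℕ) (v : ℕ → ℚ_[p]) (N Λ : ℕ),
      ExK (P.map (Int.castRingHom ℚ_[p])) d A v N Λ → #A ≤ t → (∀ e ∈ A, ‖v e‖ ≤ (p:ℝ)^k) →
      1 ≤ Λ → Λ * (Gam p d t)^k * (2*p)^k ≤ N →
      ∃ (A' : Finset ℕ) (v' : ℕ → ℚ_[p]),
        ExK (P.map (Int.castRingHom ℚ_[p])) d A' v' (N/(2*p)^k) (Λ * (Gam p d t)^k) ∧
        #A' ≤ t ∧ (∀ e ∈ A', ‖v' e‖ ≤ 1) := by
  have hp0 : 0 < p := hp.out.pos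
  induction k with
  | zero =>
    intro A v N Λ h hA hv hΛ hN
    refine ⟨A, v, ?_, hA, by simpa using hv⟩
    simpa using h
  | succ k ih =>
    intro A v N Λ h hA hv hΛ hN
    set Γ := Gam p d t with hΓ
    obtain ⟨hG1, hG2⟩ := Gam_ge (p := p) (d := d) (t := t) hp0 hd1
    rw [← hΓ] at hG1 hG2
    have hΓ1 : 1 ≤ Γ := by omega
    obtain ⟨γ, hγ⟩ : ∃ γ, γ = Λ * t^p := ⟨_, rfl⟩
    obtain ⟨N', hN'⟩ : ∃ N', N' = N / (2*p) := ⟨_, rfl⟩
    have hN'N : N' ≤ N := by rw [hN']; exact Nat.div_le_self _ _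
    have hNN' : N' * (2*p) ≤ N := by rw [hN']; exact Nat.div_mul_le_self _ _
    have hΛΓ : Λ * Γ * (2*p) ≤ N := by
      refine le_trans ?_ hN
      have h1 : 1 ≤ Γ^k * (2*p)^k := Nat.mul_pos (Nat.pow_pos (by omega)) (Nat.pow_pos (by omega))
      calc Λ * Γ * (2*p) = Λ * Γ * (2*p) * 1 := by ring
        _ ≤ Λ * Γ * (2*p) * (Γ^k * (2*p)^k) := Nat.mul_le_mul_left _ h1
        _ = Λ * Γ^(k+1) * (2*p)^(k+1) := by ring
    have h1 := h.coarse (by rw [natDegree_map_padic, hd]) t γ hA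
    have h2 := (h1.trunc hN'N).mono (Λ' := Λ * Γ) (by
      rw [hγ]
      calc Λ + d * (t * (Λ * t^p)) = Λ * (1 + d * (t * t^p)) := by ring
        _ ≤ Λ * Γ := Nat.mul_le_mul_left _ hG2)
    have hc1 : #((starts A γ).filter (fun e => e ≤ N')) ≤ t :=
      ((Finset.card_filter_le _ _).trans (Finset.card_filter_le _ _)).trans hA
    have hv1 : ∀ e ∈ (starts A γ).filter (fun e => e ≤ N'), ‖mass A v γ e‖ ≤ (p:ℝ)^k := by
      intro e he
      rw [Finset.mem_filter] at he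
      have h3 := step_mass h hd hdp hlc (by omega : 1 ≤ k+1) hv t γ hA (by
        rw [← hγ]
        calc γ < γ + 1 := Nat.lt_succ_self _
          _ ≤ p * (γ + 1) := Nat.le_mul_of_pos_left _ hp0) e he.1 (by
        have h4 : e * (2*p) ≤ N := (Nat.mul_le_mul_right _ he.2).trans hNN'
        have h5 : 2 * (p * ((t+1) * γ + 1) + Λ) ≤ Λ * Γ := by
          calc 2 * (p * ((t+1) * γ + 1) + Λ) = Λ * (2 * p * (t+1) * t^p + 2) + 2 * p * 1 := by
                rw [hγ]; ring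
            _ ≤ Λ * (2 * p * (t+1) * t^p + 2) + 2 * p * Λ :=
                Nat.add_le_add_left (Nat.mul_le_mul_left _ hΛ) _
            _ = Λ * (2 * p * (t+1) * t^p + 2 * p + 2) := by ring
            _ ≤ Λ * Γ := Nat.mul_le_mul_left _ hG1
        have h6 : Λ * Γ ≤ Λ * Γ * (2*p) := Nat.le_mul_of_pos_right _ (by omega)
        have h7 : 2 * (p * (e + t * γ + γ + 1) + Λ) = e * (2*p) + 2 * (p * ((t+1) * γ + 1) + Λ) := by
          ring
        omega)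
      rwa [Nat.add_sub_cancel] at h3
    obtain ⟨A', v', h3, h4, h5⟩ := ih _ _ N' (Λ * Γ) h2 hc1 hv1
      (Nat.mul_pos hΛ hΓ1) (by
        rw [hN', Nat.le_div_iff_mul_le (by omega)]
        refine le_trans (le_of_eq ?_) hN
        ring)
    refine ⟨A', v', ?_, h4, h5⟩
    have e1 : N' / (2*p)^k = N / (2*p)^(k+1) := by
      rw [hN', Nat.div_div_eq_div_mul, ← pow_succ']
    have e2 : Λ * Γ * Γ^k = Λ * Γ^(k+1) := by ring
    rw [e1, e2] at h3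
    exact h3

theorem to_exP {P : ℤ[X]} {d : ℕ} {A : Finset ℕ} {v : ℕ → ℚ_[p]} {N Λ : ℕ}
    (h : ExK (P.map (Int.castRingHom ℚ_[p])) d A v N Λ) (hd : P.natDegree = d) (hd2 : 2 ≤ d)
    (hlc : ¬ (p : ℤ) ∣ P.leadingCoeff) (hv : ∀ e ∈ A, ‖v e‖ ≤ 1)
    (hroot : ∀ x : ZMod p, (P.map (Int.castRingHom (ZMod p))).eval x ≠ 0) :
    ExP p (P.map (Int.castRingHom (ZMod p))) A (cb v 0) N Λ := by
  have hdeg : (P.map (Int.castRingHom (ZMod p))).natDegree = P.natDegree := by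
    apply Polynomial.natDegree_map_of_leadingCoeff_ne_zero
    intro h0
    apply hlc
    rw [← ZMod.intCast_zmod_eq_zero_iff_dvd]
    simpa using h0
  refine ⟨h.zero, by omega, hroot, ?_⟩
  intro R hR hs
  rw [hdeg, hd] at hs
  exact rel_zero hlc hv (h.ex R hR hs)

theorem chain_padic (A₁ : ℕ) (P : ℤ[X]) (d : ℕ) (hd : P.natDegree = d) (hd2 : 2 ≤ d)
    (hdp : d ≤ p) (hlc : ¬ (p : ℤ) ∣ P.leadingCoeff)
    (hroot : ∀ x : ZMod p, (P.map (Int.castRingHom (ZMod p))).eval x ≠ 0)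
    (hpA : 2^(d*(d*(4*A₁))) < p) (hp3 : 3 ≤ p) (q i₀ : ℕ) (hq : q = p^i₀)
    (hi₀ : 1 ≤ i₀) (hPq : P.map (Int.castRingHom (ZMod p)) ∣ X^q - X) :
    ∃ m y₀ : ℕ, ∀ y, y₀ ≤ y → ∀ (l t N Λ ρ b k : ℕ) (A : Finset ℕ) (v : ℕ → ℚ_[p]),
      ExK (P.map (Int.castRingHom ℚ_[p])) d A v N Λ → #A ≤ t → (∀ e ∈ A, ‖v e‖ ≤ (p:ℝ)^k) →
      1 ≤ Λ → Λ * (Gam p d t)^k * (2*p)^k ≤ N →
      t < y^(A₁+1) → t < 2^l → 28*l^2 ≤ y → 12*(Λ * (Gam p d t)^k * t^q + 1) ≤ ρ →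
      100 * d * (m+2)^2 * (t+1)^(m+10+d) ≤ q^b → ρ * (q^b)^(y^8) ≤ N/(2*p)^k → False := by
  classical
  have hdeg : (P.map (Int.castRingHom (ZMod p))).natDegree = d := by
    rw [← hd]
    apply Polynomial.natDegree_map_of_leadingCoeff_ne_zero
    intro h0
    apply hlc
    rw [← ZMod.intCast_zmod_eq_zero_iff_dvd]
    simpa using h0
  obtain ⟨m, y₀, hmain⟩ := main_stepD A₁ p (P.map (Int.castRingHom (ZMod p))) d hdeg hd2 hpA hp3
    q i₀ hq hi₀ hPq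
  refine ⟨m, y₀, ?_⟩
  intro y hy l t N Λ ρ b k A v h hA hv hΛ hN hty htl hl hρ hb hfin
  obtain ⟨A', v', h1, h2, h3⟩ := iter P d hd (by omega) hdp hlc t k A v N Λ h hA hv hΛ hN
  exact hmain y hy l t _ _ ρ b A' (cb v' 0) (to_exP h1 hd hd2 hlc h3 hroot) h2 hty htl hl hρ hb hfin

end Pool.Agent.Chain
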