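import Pool.Agent.Chain.Iter
import Pool.Agent.DigitG.Cover

/-! # Parameters. -/

open Finset Filter

namespace Pool.Agent.Chain

lemma chain_prec {b d B C' C₀ n Ln X D : ℕ} (hb : 2 ≤ b) (hn2 : n < 2^(Ln+1)) (hD : D ≤ b^X) :
    C₀ * ((n+1) * ((C'+1) * (n+1)^B) * D)^d <
      b^(C₀*(C'+1)^d + (Ln+1)*((B+1)*d) + d*X) := by
  have hb0 : 0 < b := by omega
  have h2 : C₀ * ((n+1) * ((C'+1) * (n+1)^B) * D)^d ≤
      (C₀ * (C'+1)^d) * (n+1)^((B+1)*d) * b^(d*X) := by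
    calc C₀ * ((n+1) * ((C'+1) * (n+1)^B) * D)^d
        ≤ C₀ * ((n+1) * ((C'+1) * (n+1)^B) * b^X)^d := by gcongr
      _ = C₀ * ((C'+1) * (n+1)^(B+1) * b^X)^d := by rw [pow_succ (n+1) B]; ring_nf
      _ = (C₀ * (C'+1)^d) * (n+1)^((B+1)*d) * b^(d*X) := by
          rw [mul_pow, mul_pow, ← pow_mul, ← pow_mul, mul_comm X d]; ring
  have h3 : (n+1)^((B+1)*d) ≤ b^((Ln+1)*((B+1)*d)) := by
    rw [pow_mul b]
    apply Nat.pow_le_pow_left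
    calc n + 1 ≤ 2^(Ln+1) := hn2
      _ ≤ b^(Ln+1) := Nat.pow_le_pow_left hb _
  have h4 : C₀ * (C'+1)^d < b^(C₀ * (C'+1)^d) :=
    lt_of_lt_of_le Nat.lt_two_pow_self (Nat.pow_le_pow_left hb _)
  refine lt_of_le_of_lt h2 ?_
  have hp1 : 0 < b^(d*X) := Nat.pow_pos hb0
  have hp2 : 0 < (n+1)^((B+1)*d) := Nat.pow_pos (Nat.succ_pos n)
  calc (C₀ * (C'+1)^d) * (n+1)^((B+1)*d) * b^(d*X)
      < b^(C₀ * (C'+1)^d) * (n+1)^((B+1)*d) * b^(d*X) :=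
        Nat.mul_lt_mul_of_pos_right (Nat.mul_lt_mul_of_pos_right h4 hp2) hp1
    _ ≤ b^(C₀ * (C'+1)^d) * b^((Ln+1)*((B+1)*d)) * b^(d*X) := by gcongr
    _ = b^(C₀*(C'+1)^d + (Ln+1)*((B+1)*d) + d*X) := by rw [← pow_add, ← pow_add]

lemma Lam_le {c5 B d Ln L M t y K1 A1 : ℕ} (hM : 1 ≤ M) (ht : t = y^A1) (hy : 2 ≤ y)
    (hLn : Ln ≤ y^(K1+1)) (hyc : c5 + 2*((B+1)*d) + 3*d ≤ y) :
    c5 + (Ln+1)*((B+1)*d) + d*((L+1) + M*(t+1)) ≤ (L+1)*M*y^(K1+A1+3) := by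
  obtain ⟨Z, hZ⟩ : ∃ Z, Z = (L+1)*M*y^(K1+A1+2) := ⟨_, rfl⟩
  have hy1 : 1 ≤ y := by omega
  have hLM : 1 ≤ (L+1)*M := Nat.mul_pos (Nat.succ_pos _) hM
  have e1 : 1 ≤ y^(K1+A1+2) := Nat.one_le_pow _ _ hy1
  have hZ1 : 1 ≤ Z := by rw [hZ]; exact Nat.mul_pos hLM e1
  have h1 : Ln + 1 ≤ 2 * Z := by
    have h2 : y^(K1+1) ≤ Z := by
      rw [hZ]
      calc y^(K1+1) ≤ y^(K1+A1+2) := Nat.pow_le_pow_right hy1 (by omega)
        _ ≤ (L+1)*M*y^(K1+A1+2) := Nat.le_mul_of_pos_left _ hLM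
    omega
  have h2 : L + 1 ≤ Z := by
    rw [hZ]
    calc L + 1 ≤ (L+1)*M := Nat.le_mul_of_pos_right _ hM
      _ ≤ (L+1)*M*y^(K1+A1+2) := Nat.le_mul_of_pos_right _ e1
  have h3 : M*(t+1) ≤ Z := by
    have h4 : t + 1 ≤ y^(K1+A1+2) := by
      have h5 : 1 ≤ y^A1 := Nat.one_le_pow _ _ hy1
      have h6 : y^A1 * 2 ≤ y^A1 * y := Nat.mul_le_mul_left _ hy
      have h7 : y^A1 * y ≤ y^(K1+A1+2) := by
        rw [← pow_succ]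
        exact Nat.pow_le_pow_right hy1 (by omega)
      omega
    rw [hZ]
    calc M*(t+1) ≤ M*y^(K1+A1+2) := Nat.mul_le_mul_left _ h4
      _ ≤ (L+1)*(M*y^(K1+A1+2)) := Nat.le_mul_of_pos_left _ (Nat.succ_pos _)
      _ = (L+1)*M*y^(K1+A1+2) := by ring
  calc c5 + (Ln+1)*((B+1)*d) + d*((L+1) + M*(t+1))
      ≤ c5 * Z + (2*Z)*((B+1)*d) + d*(Z + Z) := by
        gcongr
        · exact Nat.le_mul_of_pos_right _ hZ1
    _ ≤ (c5 + 2*((B+1)*d) + 3*d) * Z := by nlinarith [Nat.zero_le (d*Z)]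
    _ ≤ y * Z := Nat.mul_le_mul_right _ hyc
    _ = (L+1)*M*y^(K1+A1+3) := by rw [hZ]; ring

lemma total_le {p d A1 K1 Q0 K' β y t k Λ L M w c3 c4 n : ℕ} (hp : 1 ≤ p) (hd : 1 ≤ d)
    (hM : 1 ≤ M) (ht : t = y^A1)
    (hy24 : 24 ≤ y) (hy8 : 8*p^2*d ≤ y) (hΛ1 : 1 ≤ Λ) (hΛ : Λ ≤ (L+1)*M*y^(K1+A1+3))
    (hQ0 : 2 ≤ Q0)
    (hβ : β = K'*w) (hyw : y ≤ 2^w) (hc3 : c3 = K1 + A1 + 4 + A1*Q0)
    (hc4 : c4 = (A1+1)*(p+1)+1) (hw : (c3 + Q0*K')*w ≤ y)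
    (hfin : (L+1)*M*2^(y^9 + w*(c4*k)) ≤ n) :
    12*(Λ * (Gam p d t)^k * t^Q0 + 1) * (Q0^β)^(y^8) * (2*p)^k ≤ n := by
  have hy1 : 1 ≤ y := by omega
  have ht1 : 1 ≤ t := by rw [ht]; exact Nat.one_le_pow _ _ hy1
  have hG1 : 1 ≤ Gam p d t := by
    unfold Gam
    exact Nat.mul_pos (Nat.mul_pos (Nat.mul_pos (by norm_num) hp) hd) (Nat.pow_pos (by omega))
  have hG : Gam p d t * (2*p) ≤ y^c4 := by
    have h1 : t + 1 ≤ y^(A1+1) := by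
      have h2 : y^(A1+1) = y * y^A1 := by rw [pow_succ]; ring
      have h3 : 2 * y^A1 ≤ y * y^A1 := Nat.mul_le_mul_right _ (by omega)
      omega
    calc Gam p d t * (2*p) = 8*p^2*d*(t+1)^(p+1) := by unfold Gam; ring
      _ ≤ y * (y^(A1+1))^(p+1) := Nat.mul_le_mul hy8 (Nat.pow_le_pow_left h1 _)
      _ = y^c4 := by rw [hc4, ← pow_mul, pow_succ]; ring
  have h1 : 12*(Λ * (Gam p d t)^k * t^Q0 + 1) ≤ (L+1)*M*y^c3*(Gam p d t)^k := by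
    have h2 : 1 ≤ Λ * (Gam p d t)^k * t^Q0 :=
      Nat.mul_pos (Nat.mul_pos hΛ1 (Nat.pow_pos hG1)) (Nat.pow_pos ht1)
    calc 12*(Λ * (Gam p d t)^k * t^Q0 + 1) ≤ 24 * (Λ * (Gam p d t)^k * t^Q0) := by omega
      _ ≤ y * (((L+1)*M*y^(K1+A1+3)) * (Gam p d t)^k * t^Q0) := by gcongr
      _ = (L+1)*M*y^c3*(Gam p d t)^k := by
          rw [ht, ← pow_mul, hc3]
          have : K1 + A1 + 4 + A1*Q0 = (K1+A1+3) + A1*Q0 + 1 := by ring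
          rw [this, pow_add, pow_add]
          ring
  have h2 : (Gam p d t)^k * (2*p)^k ≤ 2^(w*(c4*k)) := by
    rw [← mul_pow]
    calc (Gam p d t * (2*p))^k ≤ (y^c4)^k := Nat.pow_le_pow_left hG k
      _ = y^(c4*k) := by rw [← pow_mul]
      _ ≤ (2^w)^(c4*k) := Nat.pow_le_pow_left hyw _
      _ = 2^(w*(c4*k)) := by rw [← pow_mul]
  have h3 : y^c3 * (Q0^β)^(y^8) ≤ 2^(y^9) := by
    have e1 : y^c3 ≤ 2^(c3*w) := by
      calc y^c3 ≤ (2^w)^c3 := Nat.pow_le_pow_left hyw _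
        _ = 2^(c3*w) := by rw [← pow_mul]; congr 1; ring
    have e2 : Q0^β ≤ 2^(Q0*β) := by
      calc Q0^β ≤ (2^Q0)^β := Nat.pow_le_pow_left (Nat.lt_two_pow_self).le β
        _ = 2^(Q0*β) := by rw [← pow_mul]
    have e3 : (Q0^β)^(y^8) ≤ 2^(Q0*β*y^8) := by
      calc (Q0^β)^(y^8) ≤ (2^(Q0*β))^(y^8) := Nat.pow_le_pow_left e2 _
        _ = 2^(Q0*β*y^8) := by rw [← pow_mul]
    have e4 : c3*w + Q0*β*y^8 ≤ y^9 := by
      have h5 : 1 ≤ y^8 := Nat.one_le_pow _ _ hy1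
      have h6 : c3*w ≤ c3*w*y^8 := Nat.le_mul_of_pos_right _ h5
      have h7 : Q0*β*y^8 = Q0*K'*w*y^8 := by rw [hβ]; ring
      have h8 : c3*w*y^8 + Q0*K'*w*y^8 = (c3+Q0*K')*w*y^8 := by ring
      have h10 : (c3+Q0*K')*w*y^8 ≤ y * y^8 := Nat.mul_le_mul_right _ hw
      have h11 : y * y^8 = y^9 := by ring
      omega
    calc y^c3 * (Q0^β)^(y^8) ≤ 2^(c3*w) * 2^(Q0*β*y^8) := Nat.mul_le_mul e1 e3
      _ = 2^(c3*w + Q0*β*y^8) := by rw [← pow_add]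
      _ ≤ 2^(y^9) := Nat.pow_le_pow_right (by norm_num) e4
  calc 12*(Λ * (Gam p d t)^k * t^Q0 + 1) * (Q0^β)^(y^8) * (2*p)^k
      ≤ (L+1)*M*y^c3*(Gam p d t)^k * (Q0^β)^(y^8) * (2*p)^k := by gcongr
    _ = (L+1)*M*((y^c3 * (Q0^β)^(y^8)) * ((Gam p d t)^k * (2*p)^k)) := by ring
    _ ≤ (L+1)*M*(2^(y^9) * 2^(w*(c4*k))) := by gcongr
    _ = (L+1)*M*2^(y^9 + w*(c4*k)) := by rw [pow_add]
    _ ≤ n := hfin

/-- the real inequality behind `hfin` -/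
lemma real_fin {κ κ' δ₀ : ℝ} (hκ : 0 < κ) (hδ₀ : 0 < δ₀) (hsum : κ + δ₀ < κ') (hκ' : κ' < 1)
    (c4 cp : ℕ) :
    ∀ᶠ n : ℕ in atTop, ∀ (L M y w : ℕ), (M : ℝ) ≤ Real.exp ((Real.log n)^κ) → 1 ≤ M → 1 ≤ y →
      Real.exp ((y:ℝ)^10) ≤ Real.exp ((Real.log n)^δ₀) → w ≤ y →
      (L:ℝ) * Real.exp ((Real.log n)^κ') ≤ n →
      (L+1)*M*2^(y^9 + w*(c4*((cp + Nat.log 2 M) + Nat.log 2 M))) ≤ n := by
  have hlogt : Tendsto (fun n : ℕ => Real.log (n:ℝ)) atTop atTop :=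
    Real.tendsto_log_atTop.comp tendsto_natCast_atTop_atTop
  obtain ⟨T, hT⟩ : ∃ T : ℝ, T = 3 + (c4:ℝ) * (cp + 4) := ⟨_, rfl⟩
  have hT0 : 0 < T := by rw [hT]; positivity
  have hx : Tendsto (fun n : ℕ => (Real.log (n:ℝ)) ^ (κ' - (κ + δ₀))) atTop atTop :=
    (tendsto_rpow_atTop (by linarith)).comp hlogt
  filter_upwards [hx.eventually_ge_atTop T, hlogt.eventually_ge_atTop 1,
    eventually_ge_atTop 1] with n h1 h2 h3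
  intro L M y w hM hM1 hy1 hy hw hL
  obtain ⟨x, hx⟩ : ∃ x, x = Real.log (n:ℝ) := ⟨_, rfl⟩
  rw [← hx] at h1 h2 hM hy hL
  have hx0 : 0 < x := by linarith
  have hn0 : (0:ℝ) < n := by exact_mod_cast h3
  have hexp : Real.exp x = n := by rw [hx, Real.exp_log hn0]
  -- powers of `x`
  have hxκ : 1 ≤ x^κ := Real.one_le_rpow h2 hκ.le
  have hxδ : 1 ≤ x^δ₀ := Real.one_le_rpow h2 hδ₀.le
  have hxsum : x^(κ+δ₀) = x^κ * x^δ₀ := Real.rpow_add hx0 _ _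
  have hmain : T * x^(κ+δ₀) ≤ x^κ' := by
    have h4 : x^κ' = x^(κ' - (κ + δ₀)) * x^(κ+δ₀) := by
      rw [← Real.rpow_add hx0]
      congr 1
      ring
    rw [h4]
    exact mul_le_mul_of_nonneg_right h1 (by positivity)
  have hy' : (y:ℝ)^10 ≤ x^δ₀ := Real.exp_le_exp.1 hy
  have hyr : (1:ℝ) ≤ y := by exact_mod_cast hy1
  have hy9 : (y:ℝ)^9 ≤ x^δ₀ := (pow_le_pow_right₀ hyr (by norm_num)).trans hy'
  have hyy : (y:ℝ) ≤ x^δ₀ := by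
    calc (y:ℝ) = (y:ℝ)^1 := (pow_one _).symm
      _ ≤ (y:ℝ)^10 := pow_le_pow_right₀ hyr (by norm_num)
      _ ≤ _ := hy'
  have hwy : (w:ℝ) ≤ x^δ₀ := by
    have : (w:ℝ) ≤ y := by exact_mod_cast hw
    linarith
  -- the logarithm of `M`
  have hMr : (1:ℝ) ≤ M := by exact_mod_cast hM1
  have hlogM : (Nat.log 2 M : ℝ) ≤ 2 * x^κ := by
    have h4 : (Nat.log 2 M : ℝ) * Real.log 2 ≤ Real.log M := by
      rw [← Real.log_pow]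
      apply Real.log_le_log (by positivity)
      exact_mod_cast Nat.pow_log_le_self 2 (by omega)
    have h5 : Real.log M ≤ x^κ := by
      rw [Real.log_le_iff_le_exp (by linarith)]
      exact hM
    have h6 : (1/2:ℝ) ≤ Real.log 2 := by
      have := Real.log_two_gt_d9
      linarith
    have h7 : (0:ℝ) ≤ Nat.log 2 M := by positivity
    nlinarith
  obtain ⟨k, hk⟩ : ∃ k : ℕ, k = (cp + Nat.log 2 M) + Nat.log 2 M := ⟨_, rfl⟩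
  rw [← hk]
  have hkr : (k:ℝ) ≤ (cp + 4) * x^κ := by
    have h4 : (k:ℝ) = cp + Nat.log 2 M + Nat.log 2 M := by rw [hk]; push_cast; ring
    have h5 : (cp:ℝ) ≤ cp * x^κ := le_mul_of_one_le_right (by positivity) hxκ
    rw [h4]
    linarith
  -- the exponent
  have hexpo : ((y^9 + w*(c4*k) : ℕ) : ℝ) ≤ x^δ₀ + x^δ₀ * (c4 * ((cp + 4) * x^κ)) := by
    push_cast
    gcongr
  have h2e : (2:ℝ) ≤ Real.exp 1 := by
    have := Real.exp_one_gt_d9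
    linarith
  have hpow : (2:ℝ)^(y^9 + w*(c4*k)) ≤ Real.exp (x^δ₀ + x^δ₀ * (c4 * ((cp + 4) * x^κ))) := by
    calc (2:ℝ)^(y^9 + w*(c4*k)) ≤ (Real.exp 1)^(y^9 + w*(c4*k)) :=
          pow_le_pow_left₀ (by norm_num) h2e _
      _ = Real.exp ((y^9 + w*(c4*k) : ℕ) : ℝ) := by rw [← Real.exp_nat_mul, mul_one]
      _ ≤ _ := Real.exp_le_exp.2 hexpo
  have hprod : (2:ℝ) * (M * (2:ℝ)^(y^9 + w*(c4*k))) ≤ Real.exp (x^κ') := by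
    have h4 : (2:ℝ) * (M * (2:ℝ)^(y^9 + w*(c4*k))) ≤ Real.exp 1 * (Real.exp (x^κ) *
        Real.exp (x^δ₀ + x^δ₀ * (c4 * ((cp + 4) * x^κ)))) := by gcongr
    refine h4.trans ?_
    rw [← Real.exp_add, ← Real.exp_add]
    apply Real.exp_le_exp.2
    refine le_trans ?_ hmain
    rw [hT, hxsum]
    have h5 : 1 ≤ x^κ * x^δ₀ := by nlinarith
    have h6 : x^κ ≤ x^κ * x^δ₀ := le_mul_of_one_le_right (by positivity) hxδ
    have h7 : x^δ₀ ≤ x^κ * x^δ₀ := le_mul_of_one_le_left (by positivity) hxκ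
    have h8 : x^δ₀ * (c4 * ((cp + 4) * x^κ)) = (c4:ℝ) * (cp + 4) * (x^κ * x^δ₀) := by ring
    rw [h8]
    nlinarith
  have hpos : (0:ℝ) ≤ M * (2:ℝ)^(y^9 + w*(c4*k)) := by positivity
  have hgoal : ((L:ℝ)+1) * (M * (2:ℝ)^(y^9 + w*(c4*k))) ≤ n := by
    rcases Nat.eq_zero_or_pos L with h0 | h0
    · subst h0
      have h4 : Real.exp (x^κ') ≤ n := by
        rw [← hexp]
        apply Real.exp_le_exp.2
        calc x^κ' ≤ x^(1:ℝ) := Real.rpow_le_rpow_of_exponent_le h2 hκ'.le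
          _ = x := Real.rpow_one x
      push_cast
      linarith
    · have hL1 : (1:ℝ) ≤ L := by exact_mod_cast h0
      calc ((L:ℝ)+1) * (M * (2:ℝ)^(y^9 + w*(c4*k)))
          ≤ (2*L) * (M * (2:ℝ)^(y^9 + w*(c4*k))) := by gcongr; linarith
        _ = L * (2 * (M * (2:ℝ)^(y^9 + w*(c4*k)))) := by ring
        _ ≤ L * Real.exp (x^κ') := by gcongr
        _ ≤ n := hL
  have hcast : (((L+1)*M*2^(y^9 + w*(c4*k)) : ℕ) : ℝ) ≤ n := by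
    push_cast
    rw [mul_assoc]
    exact hgoal
  exact_mod_cast hcast

end Pool.Agent.Chain
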