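import Pool.Agent.Chain.Params

/-! # Parameters, two-parameter form. -/

open Finset Filter

namespace Pool.Agent.Chain

lemma prec2 {b d c6 c7 C₀ n Ln X W : ℕ} (hb : 2 ≤ b) (hn2 : n < 2^(Ln+1))
    (hW : W ≤ c6 * (n+1)^c7 * b^X) :
    C₀ * W^d < b^(C₀*c6^d + (Ln+1)*(c7*d) + d*X) := by
  have hb0 : 0 < b := by omega
  have h2 : C₀ * W^d ≤ (C₀ * c6^d) * (n+1)^(c7*d) * b^(d*X) := by
    calc C₀ * W^d ≤ C₀ * (c6 * (n+1)^c7 * b^X)^d := by gcongr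
      _ = (C₀ * c6^d) * (n+1)^(c7*d) * b^(d*X) := by
          rw [mul_pow, mul_pow, ← pow_mul, ← pow_mul, mul_comm X d]; ring
  have h3 : (n+1)^(c7*d) ≤ b^((Ln+1)*(c7*d)) := by
    rw [pow_mul b]
    apply Nat.pow_le_pow_left
    calc n + 1 ≤ 2^(Ln+1) := hn2
      _ ≤ b^(Ln+1) := Nat.pow_le_pow_left hb _
  have h4 : C₀ * c6^d < b^(C₀ * c6^d) :=
    lt_of_lt_of_le Nat.lt_two_pow_self (Nat.pow_le_pow_left hb _)
  refine lt_of_le_of_lt h2 ?_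
  have hp1 : 0 < b^(d*X) := Nat.pow_pos hb0
  have hp2 : 0 < (n+1)^(c7*d) := Nat.pow_pos (Nat.succ_pos n)
  calc (C₀ * c6^d) * (n+1)^(c7*d) * b^(d*X)
      < b^(C₀ * c6^d) * (n+1)^(c7*d) * b^(d*X) :=
        Nat.mul_lt_mul_of_pos_right (Nat.mul_lt_mul_of_pos_right h4 hp2) hp1
    _ ≤ b^(C₀ * c6^d) * b^((Ln+1)*(c7*d)) * b^(d*X) := by gcongr
    _ = b^(C₀*c6^d + (Ln+1)*(c7*d) + d*X) := by rw [← pow_add, ← pow_add]

lemma Lam_le3 {c5 c7 c8 Ln L t y K1 A1 : ℕ} (ht : t = y^A1) (hy : 2 ≤ y)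
    (hLn : Ln ≤ y^(K1+1)) (hyc : c5 + 2*c7 + c8 ≤ y) :
    c5 + (Ln+1)*c7 + c8*((L+1)*(t+1)) ≤ (L+1)*1*y^(K1+A1+3) := by
  obtain ⟨Z, hZ⟩ : ∃ Z, Z = (L+1)*y^(K1+A1+2) := ⟨_, rfl⟩
  have hy1 : 1 ≤ y := by omega
  have e1 : 1 ≤ y^(K1+A1+2) := Nat.one_le_pow _ _ hy1
  have hZ1 : 1 ≤ Z := by rw [hZ]; exact Nat.mul_pos (Nat.succ_pos _) e1
  have h1 : Ln + 1 ≤ 2 * Z := by
    have h2 : y^(K1+1) ≤ Z := by
      rw [hZ]
      calc y^(K1+1) ≤ y^(K1+A1+2) := Nat.pow_le_pow_right hy1 (by omega)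
        _ ≤ (L+1)*y^(K1+A1+2) := Nat.le_mul_of_pos_left _ (Nat.succ_pos _)
    omega
  have h3 : (L+1)*(t+1) ≤ Z := by
    have h4 : t + 1 ≤ y^(K1+A1+2) := by
      have h5 : 1 ≤ y^A1 := Nat.one_le_pow _ _ hy1
      have h6 : y^A1 * 2 ≤ y^A1 * y := Nat.mul_le_mul_left _ hy
      have h7 : y^A1 * y ≤ y^(K1+A1+2) := by
        rw [← pow_succ]
        exact Nat.pow_le_pow_right hy1 (by omega)
      omega
    rw [hZ]
    exact Nat.mul_le_mul_left _ h4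
  calc c5 + (Ln+1)*c7 + c8*((L+1)*(t+1))
      ≤ c5 * Z + (2*Z)*c7 + c8*Z := by
        gcongr
        · exact Nat.le_mul_of_pos_right _ hZ1
    _ = (c5 + 2*c7 + c8) * Z := by ring
    _ ≤ y * Z := Nat.mul_le_mul_right _ hyc
    _ = (L+1)*1*y^(K1+A1+3) := by rw [hZ]; ring

/-- the real inequality behind `hfin` -/
lemma real_fin3 {δ : ℝ} (hδ : 0 < δ) (c4 cp D₀ : ℕ) :
    ∃ C : ℝ, 0 ≤ C ∧ ∀ᶠ n : ℕ in atTop, 1 ≤ Real.log (Real.log n) ∧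
      ∀ (L K y w : ℕ), 1 + c4*cp*D₀ ≤ y →
      Real.exp ((y:ℝ)^10) ≤ Real.exp ((Real.log n)^δ) → w = Nat.log 2 y + 1 → w ≤ y →
      ((L:ℝ)+1) * Real.exp ((Real.log n)^δ + C * K * Real.log (Real.log n)) ≤ n →
      (L+1)*1*2^(y^9 + w*(c4*((cp + K)*D₀ + K))) ≤ n := by
  have hlogt : Tendsto (fun n : ℕ => Real.log (n:ℝ)) atTop atTop :=
    Real.tendsto_log_atTop.comp tendsto_natCast_atTop_atTop
  have hloglogt : Tendsto (fun n : ℕ => Real.log (Real.log (n:ℝ))) atTop atTop :=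
    Real.tendsto_log_atTop.comp hlogt
  refine ⟨(c4:ℝ)*(D₀+1)*(2*δ+1), by positivity, ?_⟩
  filter_upwards [hloglogt.eventually_ge_atTop 1, hlogt.eventually_ge_atTop 1,
    eventually_ge_atTop 1] with n h1 h2 h3
  refine ⟨h1, ?_⟩
  intro L K y w hy1 hy hw hwy hL
  obtain ⟨x, hx⟩ : ∃ x, x = Real.log (n:ℝ) := ⟨_, rfl⟩
  obtain ⟨lx, hlx⟩ : ∃ lx, lx = Real.log x := ⟨_, rfl⟩
  rw [← hx] at h1 h2 hy hL
  rw [← hlx] at h1 hL
  have hx0 : 0 < x := by linarith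
  have hy0 : 1 ≤ y := by omega
  have hyr : (1:ℝ) ≤ y := by exact_mod_cast hy0
  have hy' : (y:ℝ)^10 ≤ x^δ := Real.exp_le_exp.1 hy
  -- the logarithm of `y`
  have hlogy : Real.log y ≤ δ * lx := by
    have h4 : Real.log ((y:ℝ)^10) ≤ Real.log (x^δ) := Real.log_le_log (by positivity) hy'
    rw [Real.log_pow, Real.log_rpow hx0, ← hlx] at h4
    have h5 : 0 ≤ Real.log y := Real.log_nonneg hyr
    push_cast at h4
    linarith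
  have hl2 : (1/2:ℝ) ≤ Real.log 2 := by
    have := Real.log_two_gt_d9
    linarith
  have hwr : (w:ℝ) ≤ (2*δ+1) * lx := by
    have h4 : (Nat.log 2 y : ℝ) ≤ 2 * Real.log y := by
      have h4 : (Nat.log 2 y : ℝ) * Real.log 2 ≤ Real.log y := by
        rw [← Real.log_pow]
        apply Real.log_le_log (by positivity)
        exact_mod_cast Nat.pow_log_le_self 2 (by omega)
      have h7 : (0:ℝ) ≤ Nat.log 2 y := by positivity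
      nlinarith
    rw [hw]
    push_cast
    nlinarith
  obtain ⟨k, hk⟩ : ∃ k : ℕ, k = (cp + K)*D₀ + K := ⟨_, rfl⟩
  rw [← hk]
  have hkr : (k:ℝ) = cp*D₀ + (D₀+1)*K := by rw [hk]; push_cast; ring
  -- the exponent
  have hexpo : ((y^9 + w*(c4*k) : ℕ) : ℝ) ≤ x^δ + (c4:ℝ)*(D₀+1)*(2*δ+1)*K*lx := by
    have hw0 : (0:ℝ) ≤ w := by positivity
    have h5 : (y:ℝ)^9 + w*(c4*(cp*D₀)) ≤ (y:ℝ)^10 := by
      have h6 : y^9 + w*(c4*(cp*D₀)) ≤ y^10 := by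
        have h7 : 1 ≤ y^8 := Nat.one_le_pow _ _ hy0
        calc y^9 + w*(c4*(cp*D₀)) ≤ y^9 + y*(c4*(cp*D₀)) := by gcongr
          _ ≤ y^9 + y*(c4*(cp*D₀))*y^8 := by
              have := Nat.le_mul_of_pos_right (y*(c4*(cp*D₀))) h7
              omega
          _ = y^9 * (1 + c4*cp*D₀) := by ring
          _ ≤ y^9 * y := Nat.mul_le_mul_left _ hy1
          _ = y^10 := by ring
      exact_mod_cast h6
    have h6 : (w:ℝ)*(c4*((D₀+1)*K)) ≤ (c4:ℝ)*(D₀+1)*(2*δ+1)*K*lx := by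
      have h7 : (0:ℝ) ≤ c4*((D₀+1)*K) := by positivity
      calc (w:ℝ)*(c4*((D₀+1)*K)) ≤ ((2*δ+1) * lx)*(c4*((D₀+1)*K)) :=
            mul_le_mul_of_nonneg_right hwr h7
        _ = (c4:ℝ)*(D₀+1)*(2*δ+1)*K*lx := by ring
    have h7 : ((y^9 + w*(c4*k) : ℕ) : ℝ) =
        ((y:ℝ)^9 + w*(c4*(cp*D₀))) + w*(c4*((D₀+1)*K)) := by
      push_cast
      rw [hkr]
      ring
    rw [h7]
    linarith
  have h2e : (2:ℝ) ≤ Real.exp 1 := by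
    have := Real.exp_one_gt_d9
    linarith
  have hpow : (2:ℝ)^(y^9 + w*(c4*k)) ≤ Real.exp (x^δ + (c4:ℝ)*(D₀+1)*(2*δ+1)*K*lx) := by
    calc (2:ℝ)^(y^9 + w*(c4*k)) ≤ (Real.exp 1)^(y^9 + w*(c4*k)) :=
          pow_le_pow_left₀ (by norm_num) h2e _
      _ = Real.exp ((y^9 + w*(c4*k) : ℕ) : ℝ) := by rw [← Real.exp_nat_mul, mul_one]
      _ ≤ _ := Real.exp_le_exp.2 hexpo
  have hgoal : ((L:ℝ)+1) * (2:ℝ)^(y^9 + w*(c4*k)) ≤ n :=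
    (mul_le_mul_of_nonneg_left hpow (by positivity)).trans hL
  have hcast : (((L+1)*1*2^(y^9 + w*(c4*k)) : ℕ) : ℝ) ≤ n := by
    push_cast
    rw [mul_one]
    exact hgoal
  exact_mod_cast hcast

end Pool.Agent.Chain
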