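import Pool.Agent.Chain.Apx

/-! # The step function attached to `Q(ξ) = q α`. -/

open Finset

namespace Pool.Agent.Chain

open Pool.Agent.SqrtDC Pool.Agent.DigitA Pool.Agent.AlgD

variable {p : ℕ} [hp : Fact p.Prime]

lemma prod_map_toMultiset {r : ℕ} (ξ : Fin r → ℝ) (s : Fin r →₀ ℕ) :
    ((Finsupp.toMultiset s).map ξ).prod = ∏ i, ξ i ^ s i := by
  rw [Finsupp.toMultiset_map, Finsupp.prod_toMultiset, Finsupp.prod_mapDomain_index,
    Finsupp.prod_pow]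
  · intro a; exact pow_zero a
  · intro a m n; exact pow_add a m n

lemma card_support_le {r D₀ : ℕ} (Q : MvPolynomial (Fin r) ℤ) (hQ : Q.totalDegree ≤ D₀) :
    #Q.support ≤ (D₀+1)^r := by
  classical
  have h1 : ∀ s ∈ Q.support, ∀ i, s i ≤ D₀ := by
    intro s hs i
    have h2 := MvPolynomial.le_totalDegree hs
    have h3 : s i ≤ s.sum (fun _ e => e) := by
      by_cases h0 : s i = 0
      · omega
      · exact Finset.single_le_sum (f := fun j => s j) (fun j _ => Nat.zero_le _)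
          (Finsupp.mem_support_iff.2 h0)
    omega
  have h2 : #(Q.support.image (fun s : Fin r →₀ ℕ => (fun i => s i : Fin r → ℕ))) ≤ (D₀+1)^r := by
    have h3 : Q.support.image (fun s : Fin r →₀ ℕ => (fun i => s i : Fin r → ℕ)) ⊆
        Fintype.piFinset (fun _ => range (D₀+1)) := by
      intro f hf
      rw [Finset.mem_image] at hf
      obtain ⟨s, hs, rfl⟩ := hf
      rw [Fintype.mem_piFinset]
      intro i
      have := h1 s hs i
      exact Finset.mem_range.2 (by omega)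
    refine (Finset.card_le_card h3).trans ?_
    rw [Fintype.card_piFinset_const, Finset.card_range]
  rwa [Finset.card_image_of_injective] at h2
  intro s s' h
  ext i
  exact congrFun h i

theorem Apx.poly {b n r D₀ q K₂ : ℕ} (hb : 2 ≤ b) {ξ : Fin r → ℝ} {G : Fin r → ℕ → ℚ}
    {S : Finset ℕ} {E H : ℝ} {D K t : ℕ} {α : ℝ} (h0 : 0 ∈ S) (ht : #S ≤ t)
    (h : ∀ i, Apx p b n (ξ i) (G i) S E D K) (hE : 1 ≤ E) (Q : MvPolynomial (Fin r) ℤ)
    (hQ : Q.totalDegree ≤ D₀) (hH : ∀ s, |((Q.coeff s : ℤ) : ℝ)| ≤ H) (hq : 1 ≤ q)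
    (hval : MvPolynomial.aeval ξ Q = q * α) (hK₂ : 1 ≤ (p:ℝ)^K₂ * ‖(q : ℚ_[p])‖) :
    ∃ F : ℕ → ℚ,
      (∀ R ≤ n, |(F R : ℝ) - α| ≤ ((D₀+1)^r * H * ((b+2) * t * E)^D₀) / (b:ℝ)^R) ∧
      (∀ R ≤ n, ∃ z : ℤ, (b:ℚ)^R * ((q * D^D₀ : ℕ) : ℚ) * F R = z) ∧
      (∀ u, 1 ≤ u → u ≤ n → u ∉ ss S D₀ → F u = F (u-1)) ∧
      (∀ R ≤ n, ‖(F R : ℚ_[p])‖ ≤ (p:ℝ)^(K * D₀ + K₂)) := by
  classical
  have ht1 : 1 ≤ t := (Finset.card_pos.2 ⟨0, h0⟩).trans_le ht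
  have hH0 : 0 ≤ H := (abs_nonneg _).trans (hH 0)
  have hq0 : (0:ℚ) < q := by exact_mod_cast hq
  have hq0r : (0:ℝ) < q := by exact_mod_cast hq
  have hq1r : (1:ℝ) ≤ q := by exact_mod_cast hq
  have hb0 : (0:ℝ) < b := by exact_mod_cast (by omega : 0 < b)
  have ht1r : (1:ℝ) ≤ t := by exact_mod_cast ht1
  have hbase : (1:ℝ) ≤ (b+2) * t * E := by
    have h1 : (1:ℝ) ≤ (b+2) * t := by nlinarith
    nlinarith
  -- the monomials
  have hmono : ∀ s : Fin r →₀ ℕ, ∃ Hs : ℕ → ℚ, s ∈ Q.support →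
      Apx p b n (∏ i, ξ i ^ s i) Hs (ss S D₀) (((b+2) * t * E)^D₀) (D^D₀) (K * D₀) := by
    intro s
    by_cases hs : s ∈ Q.support
    · obtain ⟨Hs, hHs⟩ := Apx.prod hb ht ht1 h hE (Finsupp.toMultiset s)
      have hcard : Multiset.card (Finsupp.toMultiset s) ≤ D₀ := by
        rw [Finsupp.card_toMultiset]
        exact (MvPolynomial.le_totalDegree hs).trans hQ
      rw [prod_map_toMultiset] at hHs
      obtain ⟨c, hc⟩ : ∃ c, c = Multiset.card (Finsupp.toMultiset s) := ⟨_, rfl⟩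
      rw [← hc] at hHs hcard
      refine ⟨Hs, fun _ => ?_⟩
      have hpow : ((b+2) * t * E : ℝ)^c ≤ ((b+2) * t * E)^D₀ := pow_le_pow_right₀ hbase hcard
      refine ⟨ss_le _ h0 (Nat.zero_le _) (by simp [ss]), hHs.one.trans hpow, hHs.xbd.trans hpow,
        fun R hR => (hHs.app R hR).trans (by gcongr), ?_, ?_, ?_⟩
      · intro R hR
        obtain ⟨z, hz⟩ := hHs.int R hR
        refine ⟨(D:ℤ)^(D₀ - c) * z, ?_⟩
        push_cast
        rw [← hz]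
        have h3 : (D:ℚ)^D₀ = (D:ℚ)^(D₀-c) * (D:ℚ)^c := by
          rw [← pow_add, Nat.sub_add_cancel hcard]
        rw [h3]
        push_cast
        ring
      · intro u hu hun huS
        exact hHs.const u hu hun (fun h' => huS (ss_le _ h0 hcard h'))
      · intro R hR
        refine (hHs.norm R hR).trans ?_
        exact pow_le_pow_right₀ (by exact_mod_cast hp.out.one_le) (Nat.mul_le_mul_left _ hcard)
    · exact ⟨fun _ => 0, fun h' => absurd h' hs⟩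
  choose Hs hHs using hmono
  refine ⟨fun R => (∑ s ∈ Q.support, ((Q.coeff s : ℤ) : ℚ) * Hs s R) / q, ?_, ?_, ?_, ?_⟩
  · intro R hR
    have hα : α = (∑ s ∈ Q.support, ((Q.coeff s : ℤ) : ℝ) * ∏ i, ξ i ^ s i) / q := by
      rw [eq_div_iff hq0r.ne', mul_comm, ← hval, MvPolynomial.aeval_def, MvPolynomial.eval₂_eq']
      rfl
    have h1 : (((∑ s ∈ Q.support, ((Q.coeff s : ℤ) : ℚ) * Hs s R) / q : ℚ) : ℝ) - α =
        (∑ s ∈ Q.support, ((Q.coeff s : ℤ) : ℝ) * ((Hs s R : ℝ) - ∏ i, ξ i ^ s i)) / q := by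
      rw [hα]
      push_cast
      rw [← sub_div, ← Finset.sum_sub_distrib]
      congr 1
      exact Finset.sum_congr rfl (fun s _ => by ring)
    rw [h1, abs_div, abs_of_pos hq0r]
    refine (div_le_self (abs_nonneg _) hq1r).trans ?_
    refine (Finset.abs_sum_le_sum_abs _ _).trans ?_
    calc ∑ s ∈ Q.support, |((Q.coeff s : ℤ) : ℝ) * ((Hs s R : ℝ) - ∏ i, ξ i ^ s i)|
        ≤ ∑ s ∈ Q.support, H * (((b+2) * t * E)^D₀ / (b:ℝ)^R) := by
          refine Finset.sum_le_sum (fun s hs => ?_)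
          rw [abs_mul]
          exact mul_le_mul (hH s) ((hHs s hs).app R hR) (abs_nonneg _) hH0
      _ = (#Q.support : ℝ) * (H * (((b+2) * t * E)^D₀ / (b:ℝ)^R)) := by
          rw [Finset.sum_const, nsmul_eq_mul]
      _ ≤ ((D₀+1)^r : ℝ) * (H * (((b+2) * t * E)^D₀ / (b:ℝ)^R)) := by
          refine mul_le_mul_of_nonneg_right ?_ (by positivity)
          exact_mod_cast card_support_le Q hQ
      _ = ((D₀+1)^r * H * ((b+2) * t * E)^D₀) / (b:ℝ)^R := by ring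
  · intro R hR
    have key : (b:ℚ)^R * ((q * D^D₀ : ℕ) : ℚ) * ((∑ s ∈ Q.support, ((Q.coeff s : ℤ) : ℚ) * Hs s R) / q) ∈
        (Int.castRingHom ℚ).range := by
      have h1 : (b:ℚ)^R * ((q * D^D₀ : ℕ) : ℚ) *
          ((∑ s ∈ Q.support, ((Q.coeff s : ℤ) : ℚ) * Hs s R) / q) =
          ∑ s ∈ Q.support, ((Q.coeff s : ℤ) : ℚ) * ((b:ℚ)^R * ((D^D₀ : ℕ) : ℚ) * Hs s R) := by
        have h2 : ∑ s ∈ Q.support, ((Q.coeff s : ℤ) : ℚ) * ((b:ℚ)^R * ((D^D₀ : ℕ) : ℚ) * Hs s R) =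
            ((b:ℚ)^R * ((D^D₀ : ℕ) : ℚ)) * ∑ s ∈ Q.support, ((Q.coeff s : ℤ) : ℚ) * Hs s R := by
          rw [Finset.mul_sum]
          exact Finset.sum_congr rfl (fun s _ => by ring)
        rw [h2]
        push_cast
        field_simp
      rw [h1]
      refine Subring.sum_mem _ (fun s hs => ?_)
      obtain ⟨z, hz⟩ := (hHs s hs).int R hR
      rw [hz]
      exact Subring.mul_mem _ (RingHom.mem_range.2 ⟨Q.coeff s, rfl⟩) (RingHom.mem_range.2 ⟨z, rfl⟩)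
    obtain ⟨z, hz⟩ := key
    exact ⟨z, by rw [← hz]; rfl⟩
  · intro u hu hun huS
    beta_reduce
    congr 1
    exact Finset.sum_congr rfl (fun s hs => by rw [(hHs s hs).const u hu hun huS])
  · intro R hR
    have h1 : ‖(q : ℚ_[p]) * (((∑ s ∈ Q.support, ((Q.coeff s : ℤ) : ℚ) * Hs s R) / q : ℚ) : ℚ_[p])‖ ≤
        (p:ℝ)^(K * D₀) := by
      have h2 : (q : ℚ_[p]) * (((∑ s ∈ Q.support, ((Q.coeff s : ℤ) : ℚ) * Hs s R) / q : ℚ) : ℚ_[p]) =
          ∑ s ∈ Q.support, ((Q.coeff s : ℤ) : ℚ_[p]) * (Hs s R : ℚ_[p]) := by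
        have h3 : ((q : ℚ) * ((∑ s ∈ Q.support, ((Q.coeff s : ℤ) : ℚ) * Hs s R) / q)) =
            ∑ s ∈ Q.support, ((Q.coeff s : ℤ) : ℚ) * Hs s R := by field_simp
        have h4 := congrArg (fun x : ℚ => (x : ℚ_[p])) h3
        push_cast at h4 ⊢
        exact h4
      rw [h2]
      apply sum_norm_le _ _ (pow_nonneg p_pos.le _)
      intro s hs
      rw [norm_mul]
      calc ‖((Q.coeff s : ℤ) : ℚ_[p])‖ * ‖(Hs s R : ℚ_[p])‖ ≤ 1 * (p:ℝ)^(K * D₀) :=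
            mul_le_mul (Padic.norm_int_le_one _) ((hHs s hs).norm R hR) (norm_nonneg _) zero_le_one
        _ = (p:ℝ)^(K * D₀) := one_mul _
    rw [norm_mul] at h1
    beta_reduce
    obtain ⟨g, hg⟩ : ∃ g : ℝ, g = ‖(((∑ s ∈ Q.support, ((Q.coeff s : ℤ) : ℚ) * Hs s R) / q : ℚ) : ℚ_[p])‖ :=
      ⟨_, rfl⟩
    rw [← hg] at h1 ⊢
    have hg0 : 0 ≤ g := by rw [hg]; exact norm_nonneg _
    have hpK : (0:ℝ) ≤ (p:ℝ)^K₂ := pow_nonneg p_pos.le _
    calc g = 1 * g := (one_mul _).symm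
      _ ≤ ((p:ℝ)^K₂ * ‖(q : ℚ_[p])‖) * g := mul_le_mul_of_nonneg_right hK₂ hg0
      _ = (p:ℝ)^K₂ * (‖(q : ℚ_[p])‖ * g) := by ring
      _ ≤ (p:ℝ)^K₂ * (p:ℝ)^(K * D₀) := mul_le_mul_of_nonneg_left h1 hpK
      _ = (p:ℝ)^(K * D₀ + K₂) := by rw [← pow_add, add_comm]

end Pool.Agent.Chain
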